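import Pool.Agent.Lib.MP_9721b5_an.Sing.Nonres

/-!
Fourier uniqueness on the two torus, a Riesz representation lemma, and the passage from a
bounded trilinear array to a measure on the plane `s + t + u = 0`.
-/

set_option autoImplicit false

open MeasureTheory Set Filter Topology ComplexConjugate
open scoped ENNReal NNReal

namespace Pool.Agent.Lib.MP_9721b5_an.Sing

/-- characters of the two torus -/
noncomputable def chi (a b : ℤ) (p : UnitAddCircle × UnitAddCircle) : ℂ :=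
  fourier a p.1 * fourier b p.2

lemma continuous_chi (a b : ℤ) : Continuous (chi a b) := by unfold chi; fun_prop

lemma norm_fourier (a : ℤ) (s : UnitAddCircle) : ‖fourier a s‖ = 1 := by
  rw [fourier_apply]; exact Circle.norm_coe _

lemma norm_chi (a b : ℤ) (p : UnitAddCircle × UnitAddCircle) : ‖chi a b p‖ = 1 := by
  rw [chi, norm_mul, norm_fourier, norm_fourier, mul_one]

lemma fourier_add_pt (a : ℤ) (s t : UnitAddCircle) :
    fourier a (s + t) = fourier a s * fourier a t := by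
  simp only [fourier_apply, smul_add, AddCircle.toCircle_add, Circle.coe_mul]

lemma fourier_neg_pt (a : ℤ) (s : UnitAddCircle) : fourier a (-s) = fourier (-a) s := by
  simp only [fourier_apply, smul_neg, neg_smul]

/-- uniqueness for integrals against integrable weights, from a family with dense span -/
lemma setIntegral_eq_of_dense {Z ι Y₁ Y₂ : Type*} [MetricSpace Z] [CompactSpace Z]
    [MeasurableSpace Z] [BorelSpace Z] [MeasurableSpace Y₁] [MeasurableSpace Y₂]
    (e : ι → C(Z, ℂ)) (he : (Submodule.span ℂ (range e)).topologicalClosure = ⊤)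
    {ν₁ : Measure Y₁} {ν₂ : Measure Y₂} {φ₁ : Y₁ → Z} {φ₂ : Y₂ → Z} (h₁ : Measurable φ₁)
    (h₂ : Measurable φ₂) {K₁ : Y₁ → ℂ} {K₂ : Y₂ → ℂ} (hK₁ : Integrable K₁ ν₁)
    (hK₂ : Integrable K₂ ν₂)
    (h : ∀ i, ∫ y, e i (φ₁ y) * K₁ y ∂ν₁ = ∫ y, e i (φ₂ y) * K₂ y ∂ν₂) :
    ∀ A, MeasurableSet A → ∫ y in φ₁ ⁻¹' A, K₁ y ∂ν₁ = ∫ y in φ₂ ⁻¹' A, K₂ y ∂ν₂ := by
  have hi₁ : ∀ ψ : C(Z, ℂ), Integrable (fun y => ψ (φ₁ y) * K₁ y) ν₁ := fun ψ =>
    hK₁.bdd_mul (c := ‖ψ‖) (ψ.continuous.measurable.comp h₁).aestronglyMeasurable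
      (Eventually.of_forall fun y => ψ.norm_coe_le_norm _)
  have hi₂ : ∀ ψ : C(Z, ℂ), Integrable (fun y => ψ (φ₂ y) * K₂ y) ν₂ := fun ψ =>
    hK₂.bdd_mul (c := ‖ψ‖) (ψ.continuous.measurable.comp h₂).aestronglyMeasurable
      (Eventually.of_forall fun y => ψ.norm_coe_le_norm _)
  have c₁ : Continuous fun ψ : C(Z, ℂ) => ∫ y, ψ (φ₁ y) * K₁ y ∂ν₁ := by
    refine (LipschitzWith.of_dist_le_mul (K := NNReal.mk (∫ y, ‖K₁ y‖ ∂ν₁)
      (integral_nonneg fun _ => norm_nonneg _)) fun ψ ψ' => ?_).continuous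
    rw [dist_eq_norm, ← integral_sub (hi₁ ψ) (hi₁ ψ'), NNReal.coe_mk, ← integral_mul_const]
    refine norm_integral_le_of_norm_le (hK₁.norm.mul_const _) (Eventually.of_forall fun y => ?_)
    rw [← sub_mul, norm_mul, mul_comm, ← dist_eq_norm]
    exact mul_le_mul_of_nonneg_left (ContinuousMap.dist_apply_le_dist _) (norm_nonneg _)
  have c₂ : Continuous fun ψ : C(Z, ℂ) => ∫ y, ψ (φ₂ y) * K₂ y ∂ν₂ := by
    refine (LipschitzWith.of_dist_le_mul (K := NNReal.mk (∫ y, ‖K₂ y‖ ∂ν₂)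
      (integral_nonneg fun _ => norm_nonneg _)) fun ψ ψ' => ?_).continuous
    rw [dist_eq_norm, ← integral_sub (hi₂ ψ) (hi₂ ψ'), NNReal.coe_mk, ← integral_mul_const]
    refine norm_integral_le_of_norm_le (hK₂.norm.mul_const _) (Eventually.of_forall fun y => ?_)
    rw [← sub_mul, norm_mul, mul_comm, ← dist_eq_norm]
    exact mul_le_mul_of_nonneg_left (ContinuousMap.dist_apply_le_dist _) (norm_nonneg _)
  have hall : ∀ ψ : C(Z, ℂ), ∫ y, ψ (φ₁ y) * K₁ y ∂ν₁ = ∫ y, ψ (φ₂ y) * K₂ y ∂ν₂ := by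
    intro ψ
    have hψ : ψ ∈ closure (Submodule.span ℂ (range e) : Set C(Z, ℂ)) := by
      rw [← Submodule.topologicalClosure_coe, he]; trivial
    refine closure_minimal (t := {ψ : C(Z, ℂ) |
      ∫ y, ψ (φ₁ y) * K₁ y ∂ν₁ = ∫ y, ψ (φ₂ y) * K₂ y ∂ν₂}) (fun ψ hψ => ?_)
      (isClosed_eq c₁ c₂) hψ
    induction hψ using Submodule.span_induction with
    | mem x hx => obtain ⟨i, rfl⟩ := hx; exact h i
    | zero => simp
    | add x y _ _ hx hy =>
      simp only [mem_ofPred_eq, ContinuousMap.add_apply, add_mul] at hx hy ⊢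
      rw [integral_add (hi₁ x) (hi₁ y), integral_add (hi₂ x) (hi₂ y), hx, hy]
    | smul a x _ hx =>
      simp only [mem_ofPred_eq, ContinuousMap.smul_apply, smul_eq_mul, mul_assoc] at hx ⊢
      rw [integral_const_mul, integral_const_mul, hx]
  have lim : ∀ F : Set Z, IsClosed F → ∃ ψ : ℕ → C(Z, ℂ), (∀ n z, ‖ψ n z‖ ≤ 1) ∧
      ∀ z, Tendsto (fun n => ψ n z) atTop (𝓝 (F.indicator (fun _ => (1 : ℂ)) z)) := by
    intro F hF
    have hpos : ∀ n : ℕ, (0 : ℝ) < 1 / ((n : ℝ) + 1) := fun n => by positivity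
    have hl := thickenedIndicator_tendsto_indicator_closure hpos
      tendsto_one_div_add_atTop_nhds_zero_nat F
    rw [hF.closure_eq, tendsto_pi_nhds] at hl
    refine ⟨fun n => ⟨fun z => ((thickenedIndicator (hpos n) F z : ℝ) : ℂ), by fun_prop⟩,
      fun n z => ?_, fun z => ?_⟩
    · simp only [ContinuousMap.coe_mk, Complex.norm_real, Real.norm_eq_abs, NNReal.abs_eq]
      exact_mod_cast thickenedIndicator_le_one (hpos n) F z
    · have := (Complex.continuous_ofReal.tendsto _).comp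
        ((NNReal.continuous_coe.tendsto _).comp (hl z))
      have e : F.indicator (fun _ => (1 : ℂ)) z = (((F.indicator (fun _ => (1 : ℝ≥0)) z : ℝ≥0) : ℝ) : ℂ) := by
        by_cases hz : z ∈ F <;> simp [hz]
      rw [e]
      exact this
  have hgen : (inferInstance : MeasurableSpace Z) =
      MeasurableSpace.generateFrom {s : Set Z | IsClosed s} :=
    BorelSpace.measurable_eq.trans borel_eq_generateFrom_isClosed
  intro A hA
  induction A, hA using MeasurableSpace.induction_on_inter hgen isPiSystem_isClosed with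
  | empty => simp
  | basic F hF =>
    obtain ⟨ψ, hψ, hl⟩ := lim F hF
    have hFm : MeasurableSet F := IsClosed.measurableSet hF
    have t₁ : Tendsto (fun n => ∫ y, ψ n (φ₁ y) * K₁ y ∂ν₁) atTop
        (𝓝 (∫ y in φ₁ ⁻¹' F, K₁ y ∂ν₁)) := by
      rw [← integral_indicator (h₁ hFm)]
      refine tendsto_integral_of_dominated_convergence (fun y => ‖K₁ y‖)
        (fun n => (hi₁ _).aestronglyMeasurable) hK₁.norm
        (fun n => Eventually.of_forall fun y => ?_) (Eventually.of_forall fun y => ?_)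
      · rw [norm_mul]; exact mul_le_of_le_one_left (norm_nonneg _) (hψ n _)
      · convert (hl (φ₁ y)).mul_const (K₁ y) using 2
        by_cases hy : φ₁ y ∈ F <;> simp [hy]
    have t₂ : Tendsto (fun n => ∫ y, ψ n (φ₂ y) * K₂ y ∂ν₂) atTop
        (𝓝 (∫ y in φ₂ ⁻¹' F, K₂ y ∂ν₂)) := by
      rw [← integral_indicator (h₂ hFm)]
      refine tendsto_integral_of_dominated_convergence (fun y => ‖K₂ y‖)
        (fun n => (hi₂ _).aestronglyMeasurable) hK₂.norm
        (fun n => Eventually.of_forall fun y => ?_) (Eventually.of_forall fun y => ?_)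
      · rw [norm_mul]; exact mul_le_of_le_one_left (norm_nonneg _) (hψ n _)
      · convert (hl (φ₂ y)).mul_const (K₂ y) using 2
        by_cases hy : φ₂ y ∈ F <;> simp [hy]
    simp only [hall] at t₁
    exact tendsto_nhds_unique t₁ t₂
  | compl B hB ih =>
    have h1 := hall 1
    simp only [ContinuousMap.one_apply, one_mul] at h1
    rw [preimage_compl, preimage_compl, setIntegral_compl (h₁ hB) hK₁,
      setIntegral_compl (h₂ hB) hK₂, h1, ih]
  | iUnion f hd hf ih =>
    rw [preimage_iUnion, preimage_iUnion]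
    have s₁ := hasSum_integral_iUnion (fun i => h₁ (hf i))
      (fun i j hij => (hd hij).preimage φ₁) hK₁.integrableOn
    have s₂ := hasSum_integral_iUnion (fun i => h₂ (hf i))
      (fun i j hij => (hd hij).preimage φ₂) hK₂.integrableOn
    simp only [ih] at s₁
    exact s₁.unique s₂

/-- Fourier uniqueness on the two torus -/
lemma setIntegral_eq_of_chi {Y₁ Y₂ : Type*} [MeasurableSpace Y₁] [MeasurableSpace Y₂]
    {ν₁ : Measure Y₁} {ν₂ : Measure Y₂} {φ₁ : Y₁ → UnitAddCircle × UnitAddCircle}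
    {φ₂ : Y₂ → UnitAddCircle × UnitAddCircle} (h₁ : Measurable φ₁)
    (h₂ : Measurable φ₂) {K₁ : Y₁ → ℂ} {K₂ : Y₂ → ℂ} (hK₁ : Integrable K₁ ν₁)
    (hK₂ : Integrable K₂ ν₂)
    (h : ∀ a b, ∫ y, chi a b (φ₁ y) * K₁ y ∂ν₁ = ∫ y, chi a b (φ₂ y) * K₂ y ∂ν₂) :
    ∀ A, MeasurableSet A → ∫ y in φ₁ ⁻¹' A, K₁ y ∂ν₁ = ∫ y in φ₂ ⁻¹' A, K₂ y ∂ν₂ := by
  intro A hA
  let j : UnitAddCircle × UnitAddCircle → UnitAddTorus (Fin 2) := fun p => ![p.1, p.2]
  have hj : Measurable j := by
    refine measurable_pi_lambda _ fun i => ?_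
    fin_cases i
    · exact measurable_fst
    · exact measurable_snd
  let j' : UnitAddTorus (Fin 2) → UnitAddCircle × UnitAddCircle := fun z => (z 0, z 1)
  have hj' : Measurable j' := (measurable_pi_apply 0).prodMk (measurable_pi_apply 1)
  have := setIntegral_eq_of_dense (Z := UnitAddTorus (Fin 2)) UnitAddTorus.mFourier
    UnitAddTorus.span_mFourier_closure_eq_top (hj.comp h₁) (hj.comp h₂) hK₁ hK₂ (fun n => by
      have := h (n 0) (n 1)
      simpa [UnitAddTorus.mFourier, Fin.prod_univ_two, j, chi] using this) _ (hj' hA)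
  exact this

lemma riesz {ι H : Type*} [NormedAddCommGroup H] [InnerProductSpace ℂ H] [CompleteSpace H]
    (v : ι → H) (β : ι → ℂ) (C : ℝ)
    (h : ∀ c : ι →₀ ℂ, ‖Finsupp.linearCombination ℂ β c‖ ≤ C * ‖Finsupp.linearCombination ℂ v c‖) :
    ∃ k : H, ∀ i, β i = inner ℂ k (v i) := by
  set Φ := Finsupp.linearCombination ℂ v with hΦ
  set b := Finsupp.linearCombination ℂ β with hb
  have hker : LinearMap.ker Φ ≤ LinearMap.ker b := fun c hc => by
    have := h c
    rw [LinearMap.mem_ker.1 hc, norm_zero, mul_zero] at this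
    exact norm_le_zero_iff.1 this
  let f : LinearMap.range Φ →ₗ[ℂ] ℂ :=
    ((LinearMap.ker Φ).liftQ b hker).comp Φ.quotKerEquivRange.symm.toLinearMap
  have hf : ∀ c, f ⟨Φ c, LinearMap.mem_range_self _ _⟩ = b c := fun c => by
    simp only [f, LinearMap.comp_apply, LinearEquiv.coe_coe]
    rw [LinearMap.quotKerEquivRange_symm_apply_image]
    rfl
  let f' : StrongDual ℂ (LinearMap.range Φ) := f.mkContinuous C (by
    rintro ⟨_, c, rfl⟩
    rw [hf]; exact h c)
  obtain ⟨g, hg, -⟩ := exists_extension_norm_eq _ f'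
  refine ⟨(InnerProductSpace.toDual ℂ H).symm g, fun i => ?_⟩
  rw [InnerProductSpace.toDual_symm_apply]
  have := hg ⟨Φ (Finsupp.single i 1), LinearMap.mem_range_self _ _⟩
  simp only [f', LinearMap.mkContinuous_apply, hf] at this
  simpa [hΦ, hb] using this.symm

lemma riesz2 (ν : Measure (UnitAddCircle × UnitAddCircle)) [IsFiniteMeasure ν] (β : ℤ → ℤ → ℂ)
    (C : ℝ) (hC : 0 ≤ C) (h : ∀ (s : Finset (ℤ × ℤ)) (c : ℤ × ℤ → ℂ),
      ‖∑ i ∈ s, c i * β i.1 i.2‖ ^ 2 ≤ C * ∫ p, ‖∑ i ∈ s, c i * chi i.1 i.2 p‖ ^ 2 ∂ν) :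
    ∃ K, Integrable K ν ∧ ∀ a b, β a b = ∫ p, chi a b p * K p ∂ν := by
  have hm : ∀ i : ℤ × ℤ, MemLp (chi i.1 i.2) 2 ν := fun i =>
    MemLp.of_bound (continuous_chi _ _).aestronglyMeasurable 1
      (Eventually.of_forall fun p => (norm_chi _ _ p).le)
  obtain ⟨k, hk⟩ := riesz (fun i : ℤ × ℤ => (hm i).toLp _) (fun i => β i.1 i.2) (√C) fun c => by
    rw [Finsupp.linearCombination_apply, Finsupp.linearCombination_apply, Finsupp.sum, Finsupp.sum]
    have e : ‖∑ i ∈ c.support, c i • (hm i).toLp _‖ ^ 2 =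
        ∫ p, ‖∑ i ∈ c.support, c i * chi i.1 i.2 p‖ ^ 2 ∂ν := by
      rw [← inner_self_eq_norm_sq (𝕜 := ℂ), L2.inner_def, ← integral_re (L2.integrable_inner _ _)]
      refine integral_congr_ae ?_
      have : ∀ᵐ p ∂ν, ∀ i : ℤ × ℤ, ((c i • (hm i).toLp _ : Lp ℂ 2 ν) : _ → ℂ) p =
          c i * chi i.1 i.2 p := by
        rw [ae_all_iff]
        intro i
        filter_upwards [Lp.coeFn_smul (c i) ((hm i).toLp _), (hm i).coeFn_toLp] with p h1 h2
        rw [h1, Pi.smul_apply, h2, smul_eq_mul]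
      filter_upwards [this, Lp.coeFn_finsetSum c.support fun i => c i • (hm i).toLp _]
        with p h1 h2
      rw [inner_self_eq_norm_sq, h2, Finset.sum_apply]
      simp only [h1]
    have := h c.support c
    rw [← e] at this
    simp only [smul_eq_mul]
    refine (abs_le_of_sq_le_sq' ?_ (by positivity)).2
    rw [mul_pow, Real.sq_sqrt hC]
    exact this
  refine ⟨fun p => conj (k p), ?_, fun a b => ?_⟩
  · exact (Complex.conjCLE : ℂ →L[ℝ] ℂ).integrable_comp ((Lp.memLp k).integrable one_le_two)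
  · rw [hk (a, b), L2.inner_def]
    refine integral_congr_ae ?_
    filter_upwards [(hm (a, b)).coeFn_toLp] with p hp
    rw [hp]
    simp

lemma ac_of_chi {ν ν' : Measure (UnitAddCircle × UnitAddCircle)}
    {φ : UnitAddCircle × UnitAddCircle → UnitAddCircle × UnitAddCircle} (hφ : Measurable φ)
    {K K' : UnitAddCircle × UnitAddCircle → ℂ} (hK : Integrable K ν) (hK' : Integrable K' ν')
    (h : ∀ a b, ∫ y, chi a b (φ y) * K y ∂ν = ∫ y, chi a b y * K' y ∂ν')
    (hinv : ∃ ψ, Measurable ψ ∧ ∀ p, ψ (φ p) = p) :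
    (ν.withDensity fun p => ‖K p‖ₑ).map φ ≪ ν' := by
  obtain ⟨ψ, hψ, hψφ⟩ := hinv
  refine Measure.AbsolutelyContinuous.mk fun A hA hA0 => ?_
  rw [Measure.map_apply hφ hA, withDensity_apply _ (hφ hA)]
  have : K =ᵐ[ν.restrict (φ ⁻¹' A)] 0 := by
    refine hK.integrableOn.ae_eq_zero_of_forall_setIntegral_eq_zero fun B hB _ => ?_
    rw [Measure.restrict_restrict hB]
    have := setIntegral_eq_of_chi hφ measurable_id hK hK' h _ ((hψ hB).inter hA)
    rw [preimage_id, setIntegral_measure_zero _ (measure_mono_null inter_subset_right hA0)] at this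
    convert this using 3
    ext p; simp [hψφ]
  refine (lintegral_congr_ae ?_).trans lintegral_zero
  filter_upwards [this] with p hp
  simp [hp]

lemma dirichlet (s : UnitAddCircle) :
    Tendsto (fun H : ℕ => (H : ℂ)⁻¹ * ∑ a ∈ Finset.range H, fourier (a : ℤ) s) atTop
      (𝓝 (if s = 0 then 1 else 0)) := by
  have hp : ∀ a : ℕ, fourier (a : ℤ) s = fourier 1 s ^ a := by
    intro a
    induction a with
    | zero => simp
    | succ a ih => rw [pow_succ, ← ih, ← fourier_add]; push_cast; rfl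
  split_ifs with hs
  · subst hs
    refine tendsto_const_nhds.congr' ?_
    filter_upwards [eventually_gt_atTop 0] with H hH
    have : (H : ℂ) ≠ 0 := by exact_mod_cast hH.ne'
    simp [this]
  · have hne : fourier 1 s ≠ 1 := by
      rw [fourier_one]
      intro h
      apply hs
      apply AddCircle.injective_toCircle (one_ne_zero)
      rw [AddCircle.toCircle_zero]
      exact Circle.ext h
    simp only [hp, geom_sum_eq hne]
    refine squeeze_zero_norm (a := fun H : ℕ => (H : ℝ)⁻¹ * (2 / ‖fourier 1 s - 1‖)) (fun H => ?_) ?_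
    · rw [norm_mul, norm_inv, Complex.norm_natCast, norm_div]
      gcongr
      refine (norm_sub_le _ _).trans ?_
      rw [norm_pow, norm_fourier]; norm_num
    · simpa using tendsto_inv_atTop_nhds_zero_nat.mul_const (2 / ‖fourier 1 s - 1‖)

/-- The abstract spectral theorem: an array invariant under the diagonal shift, with pair bounds,
with no component at any frequency of the first variable, vanishes under non resonance. -/
theorem array_zero {σ₁ σ₂ σ₃ : Measure UnitAddCircle} [IsFiniteMeasure σ₁] [IsFiniteMeasure σ₂]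
    [IsFiniteMeasure σ₃] {S₁ S₂ S₃ : Set UnitAddCircle}
    (hS₁ : MeasurableSet S₁) (hS₂ : MeasurableSet S₂) (hS₃ : MeasurableSet S₃)
    (hs₁ : σ₁.restrict S₁ᶜ ⟂ₘ volume) (hs₂ : σ₂.restrict S₂ᶜ ⟂ₘ volume)
    (hs₃ : σ₃.restrict S₃ᶜ ⟂ₘ volume)
    (hn : ((volume : Measure UnitAddCircle).prod (volume : Measure UnitAddCircle))
      {p | p.1 ∈ S₁ ∧ p.2 ∈ S₂ ∧ -p.1 - p.2 ∈ S₃} = 0)
    (β : ℤ → ℤ → ℤ → ℂ) (hβ : ∀ a b c, β (a + 1) (b + 1) (c + 1) = β a b c) (C : ℝ) (hC : 0 ≤ C)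
    (b12 : ∀ (s : Finset (ℤ × ℤ)) (c : ℤ × ℤ → ℂ), ‖∑ i ∈ s, c i * β i.1 i.2 0‖ ^ 2 ≤
      C * ∫ p, ‖∑ i ∈ s, c i * chi i.1 i.2 p‖ ^ 2 ∂(σ₁.prod σ₂))
    (b13 : ∀ (s : Finset (ℤ × ℤ)) (c : ℤ × ℤ → ℂ), ‖∑ i ∈ s, c i * β i.1 0 i.2‖ ^ 2 ≤
      C * ∫ p, ‖∑ i ∈ s, c i * chi i.1 i.2 p‖ ^ 2 ∂(σ₁.prod σ₃))
    (b23 : ∀ (s : Finset (ℤ × ℤ)) (c : ℤ × ℤ → ℂ), ‖∑ i ∈ s, c i * β 0 i.1 i.2‖ ^ 2 ≤
      C * ∫ p, ‖∑ i ∈ s, c i * chi i.1 i.2 p‖ ^ 2 ∂(σ₂.prod σ₃))
    (hat : ∀ s : UnitAddCircle, Tendsto (fun H : ℕ => (H : ℂ)⁻¹ *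
      ∑ a ∈ Finset.range H, fourier (-(a : ℤ)) s * β a 0 0) atTop (𝓝 0)) :
    β 0 0 0 = 0 := by
  have hsh : ∀ (m : ℤ) a b c, β (a + m) (b + m) (c + m) = β a b c := by
    intro m
    induction m using Int.induction_on with
    | zero => simp
    | succ m ih => intro a b c; rw [← ih a b c, ← hβ (a + m)]; simp only [add_assoc]
    | pred m ih =>
      intro a b c
      rw [← ih a b c, ← hβ (a + (-m - 1))]
      congr 1 <;> ring
  obtain ⟨K, hK, e12⟩ := riesz2 _ (fun a b => β a b 0) C hC b12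
  obtain ⟨K', hK', e13⟩ := riesz2 _ (fun a b => β a 0 b) C hC b13
  obtain ⟨K'', hK'', e23⟩ := riesz2 _ (fun a b => β 0 a b) C hC b23
  have hfin : IsFiniteMeasure ((σ₁.prod σ₂).withDensity fun p => ‖K p‖ₑ) :=
    isFiniteMeasure_withDensity hK.2.ne
  have tri : Tri σ₁ σ₂ σ₃ ((σ₁.prod σ₂).withDensity fun p => ‖K p‖ₑ) := by
    refine ⟨withDensity_absolutelyContinuous _ _, ac_of_chi measurable_t13 hK hK' (fun a b => ?_)
      ⟨t13, measurable_t13, fun p => by simp [t13]⟩, ac_of_chi measurable_t23 hK hK''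
      (fun a b => ?_) ⟨fun p => (-p.1 - p.2, p.1),
        (measurable_fst.neg.sub measurable_snd).prodMk measurable_fst, fun p => by
          simp only [t23]; congr 1; abel⟩⟩
    · rw [← e13, ← hsh (-b)]
      simp only [zero_add, add_neg_cancel]
      rw [e12]
      refine integral_congr_ae (Eventually.of_forall fun p => ?_)
      simp only [chi, t13, sub_eq_add_neg, fourier_add_pt, fourier_neg_pt, fourier_add]
      ring
    · rw [← e23, ← hsh (-b)]
      simp only [zero_add, add_neg_cancel]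
      rw [e12]
      refine integral_congr_ae (Eventually.of_forall fun p => ?_)
      simp only [chi, t23, sub_eq_add_neg, fourier_add_pt, fourier_neg_pt, fourier_add]
      ring
  have h0 := tri.nonres hS₁ hS₂ hS₃ hs₁ hs₂ hs₃ hn
  rw [ae_withDensity_iff' hK.1.enorm] at h0
  -- each atom carries nothing
  have hatom : ∀ s : UnitAddCircle, ∫ p in Prod.fst ⁻¹' {s}, K p ∂(σ₁.prod σ₂) = 0 := by
    intro s
    refine tendsto_nhds_unique ?_ (hat s)
    rw [← integral_indicator (measurable_fst (measurableSet_singleton s))]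
    have e : ∀ H : ℕ, (H : ℂ)⁻¹ * ∑ a ∈ Finset.range H, fourier (-(a : ℤ)) s * β a 0 0 =
        ∫ p, ((H : ℂ)⁻¹ * ∑ a ∈ Finset.range H, fourier (a : ℤ) (p.1 - s)) * K p
          ∂(σ₁.prod σ₂) := by
      intro H
      simp only [mul_assoc, Finset.sum_mul]
      rw [integral_const_mul, integral_finsetSum]
      · congr 1
        refine Finset.sum_congr rfl fun a _ => ?_
        rw [e12, ← integral_const_mul]
        refine integral_congr_ae (Eventually.of_forall fun p => ?_)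
        simp only [chi, sub_eq_add_neg, fourier_add_pt, fourier_neg_pt, fourier_zero]
        ring
      · intro a _
        exact hK.bdd_mul (c := 1) (by fun_prop : Continuous _).aestronglyMeasurable
          (Eventually.of_forall fun p => (norm_fourier _ _).le)
    simp only [e]
    have hb : ∀ (H : ℕ) (t : UnitAddCircle),
        ‖(H : ℂ)⁻¹ * ∑ a ∈ Finset.range H, fourier (a : ℤ) t‖ ≤ 1 := by
      intro H t
      rw [norm_mul, norm_inv, Complex.norm_natCast]
      have : ‖∑ a ∈ Finset.range H, fourier (a : ℤ) t‖ ≤ H :=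
        (norm_sum_le _ _).trans (by simp)
      exact inv_mul_le_one_of_le₀ this (Nat.cast_nonneg _)
    refine tendsto_integral_of_dominated_convergence (fun p => ‖K p‖)
      (fun H => (Continuous.aestronglyMeasurable (by fun_prop)).mul hK.1) hK.norm
      (fun H => Eventually.of_forall fun p => ?_) (Eventually.of_forall fun p => ?_)
    · rw [norm_mul]; exact mul_le_of_le_one_left (norm_nonneg _) (hb _ _)
    · convert (dirichlet (p.1 - s)).mul_const (K p) using 2
      by_cases hp : p.1 = s <;> simp [hp, sub_eq_zero]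
  have hA := countable_atoms σ₁
  have := hA.to_subtype
  have hs := hasSum_integral_iUnion (μ := σ₁.prod σ₂) (f := K)
    (s := fun s : {s | σ₁ {s} ≠ 0} => Prod.fst ⁻¹' {(s : UnitAddCircle)})
    (fun s => measurable_fst (measurableSet_singleton _))
    (fun s t hst => Disjoint.preimage _ (disjoint_singleton.2 fun h => hst (Subtype.ext h)))
    hK.integrableOn
  simp only [hatom] at hs
  have hs' := hs.unique hasSum_zero
  rw [e12, ← hs']
  simp only [chi, fourier_zero, one_mul]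
  refine (setIntegral_eq_integral_of_ae_compl_eq_zero ?_).symm
  filter_upwards [h0] with p hp hp'
  by_contra hne
  exact hp' (mem_iUnion.2 ⟨⟨p.1, hp (by simpa using hne)⟩, rfl⟩)

end Pool.Agent.Lib.MP_9721b5_an.Sing
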