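import Pool.Agent.Lib.MP_9721b5_an.Sing.Stop
import Pool.Agent.Lib.MP_9721b5_an.Sing.Fourier

/-!
The ergodic case: double recurrence and the lemma of Host give triple recurrence under
spectral non resonance.
-/

set_option autoImplicit false

open MeasureTheory Filter Topology Finset ComplexConjugate
open Pool.Agent.Shared.Ergodic

namespace Pool.Agent.Lib.MP_9721b5_an.Sing

variable {X : Type*} [MeasurableSpace X] {μ : Measure X}

/-- twisted double recurrence for the pairs of exponents among one, two, three -/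
def BDR (μ : Measure X) (T : X → X) : Prop :=
  ∀ p q : ℕ, 0 < p → p < q → q ≤ 3 → ∀ u v : X → ℂ, Measurable u → Measurable v →
    (∀ x, ‖u x‖ ≤ 1) → (∀ x, ‖v x‖ ≤ 1) → ∀ s : UnitAddCircle,
      Conv μ fun n x => fourier (n : ℤ) s * u (T^[p * n] x) * v (T^[q * n] x)

variable [IsProbabilityMeasure μ] {T : X → X}

lemma pair_limit (hT : Ergodic T μ) (hB : BDR μ T) {p q : ℕ} (hp : 0 < p) (hpq : p < q)
    (hq : q ≤ 3) {ι : Type*} (s : Finset ι) (e : ι → ℂ) {u v : ι → X → ℂ}
    (hu : ∀ i, Measurable (u i)) (hv : ∀ i, Measurable (v i)) (bu : ∀ i x, ‖u i x‖ ≤ 1)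
    (bv : ∀ i x, ‖v i x‖ ≤ 1) {W : X → X → ℝ} (hW : ∀ x y, 0 ≤ W x y)
    (eW : ∀ x y, (W x y : ℂ) = ∑ i ∈ s, e i * (u i x * v i y))
    {N : ℕ → X → ℕ} (mN : ∀ k, Measurable (N k)) (leN : ∀ k x, k ≤ N k x) {ε : ℝ} (hε : 0 < ε) :
    ∀ᶠ k in atTop, ∫ x, (N k x : ℝ)⁻¹ * ∑ n ∈ range (N k x), W (T^[p * n] x) (T^[q * n] x) ∂μ ≤
      2 * (∑ i ∈ s, e i * ((∫ x, u i x ∂μ) * ∫ x, v i x ∂μ)).re + ε := by
  have mT : ∀ n, Measurable T^[n] := fun n => hT.measurable.iterate n
  have pT : ∀ n, MeasurePreserving T^[n] μ μ := fun n => hT.toMeasurePreserving.iterate n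
  have buv : ∀ i x y, ‖u i x * v i y‖ ≤ 1 := fun i x y => by
    rw [norm_mul]; exact mul_le_one₀ (bu i x) (norm_nonneg _) (bv i y)
  have bW : ∀ x y, ‖(W x y : ℂ)‖ ≤ ∑ i ∈ s, ‖e i‖ := fun x y => by
    rw [eW]
    refine (norm_sum_le _ _).trans (sum_le_sum fun i _ => ?_)
    rw [norm_mul]; exact mul_le_of_le_one_right (norm_nonneg _) (buv i x y)
  have mW : ∀ {a b : X → X}, Measurable a → Measurable b →
      Measurable fun x => (W (a x) (b x) : ℂ) := by
    intro a b ha hb
    simp only [eW]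
    exact Finset.measurable_sum _ fun i _ =>
      measurable_const.mul (((hu i).comp ha).mul ((hv i).comp hb))
  let G : ℕ → X → ℂ := fun n x => (W (T^[p * n] x) (T^[q * n] x) : ℂ)
  have hG : Bd G (∑ i ∈ s, ‖e i‖) := ⟨fun n => mW (mT _) (mT _), fun n x => bW _ _⟩
  have hc : Conv μ G := by
    simp only [G, eW]
    refine conv_sum s e fun i _ => ?_
    simpa using hB p q hp hpq hq (u i) (v i) (hu i) (hv i) (bu i) (bv i) 0
  let S : Stop X :=
    { N := N, M := fun k _ => k, w := fun _ _ => 1, mN := mN, mM := fun _ => measurable_const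
      mw := fun _ => measurable_const, leN := leN, leM := fun _ _ => le_rfl
      bw := fun _ _ => by simp }
  have h1 := (Complex.continuous_re.tendsto _).comp (S.lam_conv hG hc)
  let w : ℕ → ℝ := fun m => ∫ x, W x (T^[m] x) ∂μ
  have hw : ∀ m, 0 ≤ w m := fun m => integral_nonneg fun x => hW _ _
  have ew : ∀ m, (w m : ℂ) = ∫ x, (W x (T^[m] x) : ℂ) ∂μ := fun m => integral_complex_ofReal.symm
  have h2 : Tendsto (av fun m => (w m : ℂ)) atTop
      (𝓝 (∑ i ∈ s, e i * ((∫ x, u i x ∂μ) * ∫ x, v i x ∂μ))) := by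
    have e1 : ∀ M, av (fun m => (w m : ℂ)) M =
        ∑ i ∈ s, e i * ∫ x, u i x * av (fun m => v i (T^[m] x)) M ∂μ := by
      intro M
      have : ∀ m, (w m : ℂ) = ∑ i ∈ s, e i * ∫ x, u i x * v i (T^[m] x) ∂μ := by
        intro m
        rw [ew]
        simp only [eW]
        rw [integral_finsetSum _ fun i _ => (integrable_bdd (f := fun x => u i x * v i (T^[m] x))
          ((hu i).mul ((hv i).comp (mT m))) fun x => buv i _ _).const_mul _]
        simp only [integral_const_mul]
      simp only [this, av_sum]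
      refine sum_congr rfl fun i _ => ?_
      congr 1
      simp only [av, mul_sum]
      rw [integral_finsetSum _ fun m _ => ?_]
      · refine sum_congr rfl fun m _ => ?_
        rw [← integral_const_mul]
        exact integral_congr_ae (Eventually.of_forall fun x => by ring)
      · have := (integrable_bdd (μ := μ) ((hu i).mul ((hv i).comp (mT m)))
          fun x => buv i _ _).const_mul (M : ℂ)⁻¹
        refine this.congr (Eventually.of_forall fun x => ?_)
        simp only [Function.comp_apply, Pi.mul_apply]; ring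
    rw [show (av fun m => (w m : ℂ)) = fun M =>
      ∑ i ∈ s, e i * ∫ x, u i x * av (fun m => v i (T^[m] x)) M ∂μ from funext e1]
    refine tendsto_finsetSum _ fun i _ => Tendsto.const_mul _ ?_
    rw [← integral_mul_const]
    refine tendsto_integral_of_dominated_convergence (fun _ => 1)
      (fun M => ((hu i).mul (measurable_av (fun m => (hv i).comp (mT m)) M)).aestronglyMeasurable)
      (integrable_const _) (fun M => Eventually.of_forall fun x => ?_) ?_
    · rw [norm_mul]
      exact mul_le_one₀ (bu i x) (norm_nonneg _) (norm_av_le (fun m => bv i _) M)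
    · filter_upwards [erg_mean hT (hv i) (bv i)] with x hx
      exact hx.const_mul _
  have h3 := ((Complex.continuous_re.tendsto _).comp
    (h2.comp (tendsto_id.const_mul_atTop' (show 0 < 2 by norm_num)))).const_mul 2
  have h4 := h1.add h3
  rw [Complex.zero_re, zero_add] at h4
  filter_upwards [h4.eventually (gt_mem_nhds (lt_add_of_pos_right _ hε)), eventually_gt_atTop 0]
    with k hk hk0
  refine le_trans ?_ hk.le
  simp only [Function.comp_apply, id]
  have hk' : (0 : ℝ) < k := by exact_mod_cast hk0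
  have i1 : Integrable (fun x => av (fun n => G n x) (N k x)) μ :=
    integrable_bdd (measurable_av_stop hG.meas (mN k)) fun x => norm_av_le (fun n => hG.le n x) _
  have i2 : Integrable (fun x => av (fun n => G n x) k) μ :=
    integrable_bdd (measurable_av hG.meas k) fun x => norm_av_le (fun n => hG.le n x) _
  have e2 : S.lam μ G k = ∫ x, av (fun n => G n x) (N k x) ∂μ - ∫ x, av (fun n => G n x) k ∂μ := by
    rw [← integral_sub i1 i2]
    simp [Stop.lam, Stop.osc, S]
  have e3 : ∫ x, av (fun n => G n x) (N k x) ∂μ =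
      ((∫ x, (N k x : ℝ)⁻¹ * ∑ n ∈ range (N k x), W (T^[p * n] x) (T^[q * n] x) ∂μ : ℝ) : ℂ) := by
    rw [← integral_complex_ofReal]
    simp only [G, av_ofReal]
  have e4 : ∫ x, av (fun n => G n x) k ∂μ = av (fun n => (w ((q - p) * n) : ℂ)) k := by
    simp only [av]
    rw [integral_const_mul, integral_finsetSum _ fun n _ => integrable_bdd (hG.meas n) (hG.le n)]
    congr 1
    refine sum_congr rfl fun n _ => ?_
    rw [ew, ← integral_comp_mp (pT (p * n)) (mW measurable_id' (mT _))]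
    refine integral_congr_ae (Eventually.of_forall fun x => ?_)
    simp only [G, ← Function.iterate_add_apply]
    congr 3
    rw [← add_mul, Nat.sub_add_cancel hpq.le]
  rw [e2, e3, e4, av_ofReal, av_ofReal, Complex.sub_re, Complex.ofReal_re, Complex.ofReal_re,
    Complex.ofReal_re]
  have : ∑ n ∈ range k, w ((q - p) * n) ≤ ∑ m ∈ range (2 * k), w m := by
    have hd : 0 < q - p := by omega
    rw [← sum_image (g := fun n => (q - p) * n) (f := w)
      fun a _ b _ h => Nat.eq_of_mul_eq_mul_left hd h]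
    refine sum_le_sum_of_subset_of_nonneg (fun m hm => ?_) fun m _ _ => hw m
    obtain ⟨n, hn, rfl⟩ := mem_image.1 hm
    rw [mem_range] at hn ⊢
    have : q - p ≤ 2 := by omega
    nlinarith
  have e5 : 2 * (((2 * k : ℕ) : ℝ)⁻¹ * ∑ m ∈ range (2 * k), w m) =
      (k : ℝ)⁻¹ * ∑ m ∈ range (2 * k), w m := by
    push_cast; field_simp
  rw [e5]
  have := mul_le_mul_of_nonneg_left this (inv_nonneg.2 hk'.le)
  linarith

lemma lam_sq (hT : Ergodic T μ) (hB : BDR μ T) {p q : ℕ} (hp : 0 < p) (hpq : p < q)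
    (hq : q ≤ 3) {ι : Type*} (s : Finset ι) (e : ι → ℂ) {u v : ι → X → ℂ}
    (hu : ∀ i, Measurable (u i)) (hv : ∀ i, Measurable (v i)) (bu : ∀ i x, ‖u i x‖ ≤ 1)
    (bv : ∀ i x, ‖v i x‖ ≤ 1) {W : X → X → ℝ} (hW : ∀ x y, 0 ≤ W x y)
    (eW : ∀ x y, (W x y : ℂ) = ∑ i ∈ s, e i * (u i x * v i y))
    (S : Stop X) {G : ℕ → X → ℂ} {C : ℝ} (hG : Bd G C)
    (hGW : ∀ n x, ‖G n x‖ ^ 2 ≤ W (T^[p * n] x) (T^[q * n] x)) {L : ℂ}
    (hL : Tendsto (S.lam μ G) (hyperfilter ℕ) (𝓝 L)) :
    ‖L‖ ^ 2 ≤ 32 * (∑ i ∈ s, e i * ((∫ x, u i x ∂μ) * ∫ x, v i x ∂μ)).re := by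
  refine le_of_forall_pos_le_add fun ε hε => ?_
  have mT : ∀ n, Measurable T^[n] := fun n => hT.measurable.iterate n
  have mW : ∀ n, Measurable fun x => W (T^[p * n] x) (T^[q * n] x) := by
    intro n
    have : Measurable fun x => (W (T^[p * n] x) (T^[q * n] x) : ℂ) := by
      simp only [eW]
      exact Finset.measurable_sum _ fun i _ =>
        measurable_const.mul (((hu i).comp (mT _)).mul ((hv i).comp (mT _)))
    exact Complex.measurable_re.comp this
  have bW : ∀ x y, ‖(W x y : ℂ)‖ ≤ ∑ i ∈ s, ‖e i‖ := fun x y => by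
    rw [eW]
    refine (norm_sum_le _ _).trans (sum_le_sum fun i _ => ?_)
    rw [norm_mul, norm_mul]
    exact mul_le_of_le_one_right (norm_nonneg _) (mul_le_one₀ (bu i x) (norm_nonneg _) (bv i y))
  have iW : ∀ {N : X → ℕ}, Measurable N → Integrable
      (fun x => (N x : ℝ)⁻¹ * ∑ n ∈ range (N x), W (T^[p * n] x) (T^[q * n] x)) μ := by
    intro N hN
    have := (integrable_bdd (μ := μ) (measurable_av_stop
      (G := fun n x => (W (T^[p * n] x) (T^[q * n] x) : ℂ))
      (fun n => Complex.measurable_ofReal.comp (mW n)) hN)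
      fun x => norm_av_le (fun n => bW _ _) _).re
    simpa only [av_ofReal, RCLike.re_to_complex, Complex.ofReal_re] using this
  have hε' : 0 < ε / 16 := by positivity
  refine le_of_tendsto (hL.norm.pow 2) (Eventually.filter_mono Nat.hyperfilter_le_atTop ?_)
  filter_upwards [pair_limit hT hB hp hpq hq s e hu hv bu bv hW eW S.mN S.leN hε',
    pair_limit hT hB hp hpq hq s e hu hv bu bv hW eW S.mM S.leM hε'] with k h1 h2
  have h3 : ‖S.lam μ G k‖ ^ 2 ≤ ∫ x, ‖S.osc G k x‖ ^ 2 ∂μ :=
    (pow_le_pow_left₀ (norm_nonneg _) (norm_integral_le_integral_norm _) 2).trans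
      (sq_integral_le (S.measurable_osc hG.meas k).norm (C := 4 * C)
        fun x => by rw [norm_norm]; exact S.norm_osc_le hG k x)
  have h4 : ∀ x (N : ℕ), ‖av (fun n => G n x) N‖ ^ 2 ≤
      (N : ℝ)⁻¹ * ∑ n ∈ range N, W (T^[p * n] x) (T^[q * n] x) := fun x N =>
    (norm_av_sq_le _ N).trans (by gcongr with n; exact hGW n x)
  have h5 : ∫ x, ‖S.osc G k x‖ ^ 2 ∂μ ≤ ∫ x, 8 *
      ((S.N k x : ℝ)⁻¹ * ∑ n ∈ range (S.N k x), W (T^[p * n] x) (T^[q * n] x) +
      (S.M k x : ℝ)⁻¹ * ∑ n ∈ range (S.M k x), W (T^[p * n] x) (T^[q * n] x)) ∂μ := by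
    refine integral_mono_of_nonneg (Eventually.of_forall fun x => by positivity)
      (((iW (S.mN k)).add (iW (S.mM k))).const_mul 8) (Eventually.of_forall fun x => ?_)
    have a1 := h4 x (S.N k x)
    have a2 := h4 x (S.M k x)
    have a3 := norm_sub_le (av (fun n => G n x) (S.N k x)) (av (fun n => G n x) (S.M k x))
    have a4 : ‖S.osc G k x‖ ≤ 2 * (‖av (fun n => G n x) (S.N k x)‖ +
        ‖av (fun n => G n x) (S.M k x)‖) := by
      rw [Stop.osc, norm_mul]
      exact mul_le_mul (S.bw k x) a3 (norm_nonneg _) (by norm_num)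
    have a5 := pow_le_pow_left₀ (norm_nonneg _) a4 2
    simp only
    nlinarith [sq_nonneg (‖av (fun n => G n x) (S.N k x)‖ - ‖av (fun n => G n x) (S.M k x)‖)]
  rw [integral_const_mul, integral_add (iW (S.mN k)) (iW (S.mM k))] at h5
  linarith

/-- a two sided orbit of a bounded function under `S`, with spectral measure `σ` -/
structure Orb (μ : Measure X) (S : X → X) (F : ℤ → X → ℂ) (σ : Measure UnitAddCircle) : Prop where
  meas : ∀ a, Measurable (F a)
  le : ∀ a x, ‖F a x‖ ≤ 1
  step : ∀ a x, F (a + 1) x = F a (S x)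
  spec : ∀ a b, ∫ x, F a x * conj (F b x) ∂μ = ∫ s, fourier (a - b) s ∂σ

lemma ofReal_norm_sq_sum {ι : Type*} (s : Finset ι) (z : ι → ℂ) :
    ((‖∑ i ∈ s, z i‖ ^ 2 : ℝ) : ℂ) = ∑ j ∈ s ×ˢ s, z j.1 * conj (z j.2) := by
  push_cast
  rw [← Complex.mul_conj', map_sum, sum_mul_sum, sum_product]

lemma pair_bound (hT : Ergodic T μ) (hB : BDR μ T) {p q : ℕ} (hp : 0 < p) (hpq : p < q)
    (hq : q ≤ 3) {F F' : ℤ → X → ℂ} {σ σ' : Measure UnitAddCircle} [IsFiniteMeasure σ]
    [IsFiniteMeasure σ'] {R R' : X → X} (hF : Orb μ R F σ) (hF' : Orb μ R' F' σ')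
    (S : Stop X) {H : ℕ → X → ℂ} (hH : Bd H 1) {β : ℤ → ℤ → ℂ}
    (hβ : ∀ a b, Tendsto (S.lam μ fun n x => F a (T^[p * n] x) * F' b (T^[q * n] x) * H n x)
      (hyperfilter ℕ) (𝓝 (β a b))) (s : Finset (ℤ × ℤ)) (c : ℤ × ℤ → ℂ) :
    ‖∑ i ∈ s, c i * β i.1 i.2‖ ^ 2 ≤
      32 * ∫ z, ‖∑ i ∈ s, c i * chi i.1 i.2 z‖ ^ 2 ∂(σ.prod σ') := by
  have mT : ∀ n, Measurable T^[n] := fun n => hT.measurable.iterate n
  have b1 : ∀ {a b : ℂ}, ‖a‖ ≤ 1 → ‖b‖ ≤ 1 → ‖a * b‖ ≤ 1 := fun ha hb => by
    rw [norm_mul]; exact mul_le_one₀ ha (norm_nonneg _) hb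
  have hG : ∀ i : ℤ × ℤ,
      Bd (fun n x => F i.1 (T^[p * n] x) * F' i.2 (T^[q * n] x) * H n x) 1 := fun i =>
    ⟨fun n => (((hF.meas _).comp (mT _)).mul ((hF'.meas _).comp (mT _))).mul (hH.meas n),
      fun n x => b1 (b1 (hF.le _ _) (hF'.le _ _)) (hH.le n x)⟩
  have hL := tendsto_finsetSum s fun i _ => (hβ i.1 i.2).const_mul (c i)
  simp only [← S.lam_sum s c hG] at hL
  have := lam_sq hT hB hp hpq hq (s ×ˢ s) (fun j => c j.1 * conj (c j.2))
    (u := fun j x => F j.1.1 x * conj (F j.2.1 x)) (v := fun j x => F' j.1.2 x * conj (F' j.2.2 x))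
    (fun j => (hF.meas _).mul (Complex.continuous_conj.measurable.comp (hF.meas _)))
    (fun j => (hF'.meas _).mul (Complex.continuous_conj.measurable.comp (hF'.meas _)))
    (fun j x => b1 (hF.le _ _) (by rw [Complex.norm_conj]; exact hF.le _ _))
    (fun j x => b1 (hF'.le _ _) (by rw [Complex.norm_conj]; exact hF'.le _ _))
    (W := fun x y => ‖∑ i ∈ s, c i * (F i.1 x * F' i.2 y)‖ ^ 2) (fun x y => by positivity)
    (fun x y => by
      rw [ofReal_norm_sq_sum]
      refine sum_congr rfl fun j _ => ?_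
      simp only [map_mul]; ring) S (C := ∑ i ∈ s, ‖c i‖)
    (G := fun n x => ∑ i ∈ s, c i * (F i.1 (T^[p * n] x) * F' i.2 (T^[q * n] x) * H n x))
    ⟨fun n => Finset.measurable_sum _ fun i _ => measurable_const.mul ((hG i).meas n),
      fun n x => (norm_sum_le _ _).trans (sum_le_sum fun i _ => by
        rw [norm_mul]; exact mul_le_of_le_one_right (norm_nonneg _) ((hG i).le n x))⟩
    (fun n x => by
      refine pow_le_pow_left₀ (norm_nonneg _) ?_ 2
      simp only [← mul_assoc, ← sum_mul]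
      rw [norm_mul]
      exact mul_le_of_le_one_right (norm_nonneg _) (hH.le n x)) hL
  refine this.trans (le_of_eq ?_)
  congr 1
  rw [← Complex.ofReal_re (∫ z, _ ∂(σ.prod σ')), ← integral_complex_ofReal]
  congr 1
  simp only [ofReal_norm_sq_sum]
  rw [integral_finsetSum]
  · refine sum_congr rfl fun j _ => ?_
    rw [hF.spec, hF'.spec, ← integral_prod_mul, ← integral_const_mul]
    refine integral_congr_ae (Eventually.of_forall fun z => ?_)
    simp only [chi, map_mul, sub_eq_add_neg, fourier_add, fourier_neg]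
    ring
  · intro j _
    refine Integrable.of_bound (Continuous.aestronglyMeasurable ?_) (‖c j.1‖ * ‖c j.2‖)
      (Eventually.of_forall fun z => ?_)
    · exact (continuous_const.mul (continuous_chi _ _)).mul
        (Complex.continuous_conj.comp (continuous_const.mul (continuous_chi _ _)))
    · simp [norm_chi]

omit [IsProbabilityMeasure μ] in
lemma Orb.iter {R : X → X} {F : ℤ → X → ℂ} {σ : Measure UnitAddCircle} (hF : Orb μ R F σ)
    (a : ℤ) (n : ℕ) (x : X) : F (a + n) x = F a (R^[n] x) := by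
  induction n generalizing x with
  | zero => simp
  | succ n ih => rw [Nat.cast_succ, ← add_assoc, hF.step, ih, Function.iterate_succ_apply]

omit [IsProbabilityMeasure μ] in
/-- the eigenfunction component of a bounded function at a given frequency -/
lemma exists_eigen (hT : Ergodic T μ) (hB : BDR μ T) {f : X → ℂ} (hf : Measurable f)
    (bf : ∀ x, ‖f x‖ ≤ 1) (s : UnitAddCircle) :
    ∃ g : X → ℂ, Measurable g ∧ (∀ x, ‖g x‖ ≤ 1) ∧
      (∀ᵐ x ∂μ, ∀ n : ℕ, g (T^[n] x) = fourier (n : ℤ) s * g x) ∧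
      ∀ᵐ x ∂μ, Tendsto (av fun a => fourier (-(a : ℤ)) s * f (T^[a] x)) atTop (𝓝 (g x)) := by
  have mT : ∀ n, Measurable T^[n] := fun n => hT.measurable.iterate n
  have hm : ∀ a : ℕ, Measurable fun x => fourier (-(a : ℤ)) s * f (T^[a] x) := fun a =>
    measurable_const.mul (hf.comp (mT a))
  have hb : ∀ (a : ℕ) x, ‖fourier (-(a : ℤ)) s * f (T^[a] x)‖ ≤ 1 := fun a x => by
    rw [norm_mul, norm_fourier, one_mul]; exact bf _
  have h0 := hB 1 2 one_pos one_lt_two (by norm_num) f (fun _ => 1) hf measurable_const bf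
    (fun _ => by simp) (-s)
  simp only [one_mul, mul_one, fourier_neg_pt] at h0
  obtain ⟨g0, hg0, hl⟩ := measurable_limit_of_tendsto_metrizable_ae
    (f := fun N x => av (fun a => fourier (-(a : ℤ)) s * f (T^[a] x)) N) (L := atTop)
    (fun N => (measurable_av hm N).aemeasurable) h0
  classical
  have hl' : ∀ᵐ x ∂μ, Tendsto (av fun a => fourier (-(a : ℤ)) s * f (T^[a] x)) atTop
      (𝓝 (if ‖g0 x‖ ≤ 1 then g0 x else 0)) := by
    filter_upwards [hl] with x hx
    rw [if_pos (le_of_tendsto' hx.norm fun N => norm_av_le (fun a => hb a x) N)]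
    exact hx
  refine ⟨fun x => if ‖g0 x‖ ≤ 1 then g0 x else 0,
    Measurable.ite (measurableSet_le hg0.norm measurable_const) hg0 measurable_const,
    fun x => by dsimp only; split_ifs with h; exacts [h, by simp], ?_, hl'⟩
  have key : ∀ g : X → ℂ,
      (∀ᵐ x ∂μ, Tendsto (av fun a => fourier (-(a : ℤ)) s * f (T^[a] x)) atTop (𝓝 (g x))) →
      ∀ᵐ x ∂μ, ∀ n : ℕ, g (T^[n] x) = fourier (n : ℤ) s * g x := by
    intro g hg
    have h1 : ∀ᵐ x ∂μ, g (T x) = fourier 1 s * g x := by
      filter_upwards [hg, hT.quasiMeasurePreserving.ae hg] with x hx hx'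
      have h2 := ((tendsto_av_shift fun a => hb a x).add hx).const_mul (fourier 1 s)
      simp only [sub_add_cancel, zero_add] at h2
      refine tendsto_nhds_unique hx' (h2.congr fun N => ?_)
      simp only [av, mul_sum]
      refine sum_congr rfl fun a _ => ?_
      have : fourier (-(a : ℤ)) s = fourier 1 s * fourier (-((a + 1 : ℕ) : ℤ)) s := by
        rw [← fourier_add]; congr 2; push_cast; ring
      rw [this, Function.iterate_succ_apply]; ring
    have h2 : ∀ᵐ x ∂μ, ∀ n : ℕ, g (T (T^[n] x)) = fourier 1 s * g (T^[n] x) :=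
      ae_all_iff.2 fun n => (hT.toMeasurePreserving.iterate n).quasiMeasurePreserving.ae h1
    filter_upwards [h2] with x hx n
    induction n with
    | zero => simp
    | succ n ih =>
      rw [Function.iterate_succ_apply', hx, ih, ← mul_assoc, ← fourier_add]
      congr 3; push_cast; ring
  exact key _ hl'

theorem core (hT : Ergodic T μ) (hB : BDR μ T) {F₁ F₂ F₃ : ℤ → X → ℂ}
    {σ₁ σ₂ σ₃ : Measure UnitAddCircle} [IsFiniteMeasure σ₁] [IsFiniteMeasure σ₂]
    [IsFiniteMeasure σ₃] (h₁ : Orb μ T^[1] F₁ σ₁) (h₂ : Orb μ T^[2] F₂ σ₂) (h₃ : Orb μ T^[3] F₃ σ₃)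
    {S₁ S₂ S₃ : Set UnitAddCircle}
    (hS₁ : MeasurableSet S₁) (hS₂ : MeasurableSet S₂) (hS₃ : MeasurableSet S₃)
    (hs₁ : σ₁.restrict S₁ᶜ ⟂ₘ volume) (hs₂ : σ₂.restrict S₂ᶜ ⟂ₘ volume)
    (hs₃ : σ₃.restrict S₃ᶜ ⟂ₘ volume)
    (hn : ((volume : Measure UnitAddCircle).prod (volume : Measure UnitAddCircle))
      {p | p.1 ∈ S₁ ∧ p.2 ∈ S₂ ∧ -p.1 - p.2 ∈ S₃} = 0) :
    Conv μ fun n x => F₁ 0 (T^[1 * n] x) * F₂ 0 (T^[2 * n] x) * F₃ 0 (T^[3 * n] x) := by
  have mT : ∀ n, Measurable T^[n] := fun n => hT.measurable.iterate n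
  have b1 : ∀ {a b : ℂ}, ‖a‖ ≤ 1 → ‖b‖ ≤ 1 → ‖a * b‖ ≤ 1 := fun ha hb => by
    rw [norm_mul]; exact mul_le_one₀ ha (norm_nonneg _) hb
  let G : ℤ → ℤ → ℤ → ℕ → X → ℂ := fun a b c n x =>
    F₁ a (T^[1 * n] x) * F₂ b (T^[2 * n] x) * F₃ c (T^[3 * n] x)
  have hG : ∀ a b c, Bd (G a b c) 1 := fun a b c =>
    ⟨fun n => (((h₁.meas _).comp (mT _)).mul ((h₂.meas _).comp (mT _))).mul
      ((h₃.meas _).comp (mT _)), fun n x => b1 (b1 (h₁.le _ _) (h₂.le _ _)) (h₃.le _ _)⟩
  by_contra hc
  obtain ⟨S, c, hc0, hS⟩ := exists_stop (hG 0 0 0) hc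
  have hex : ∀ {H : ℕ → X → ℂ} {C : ℝ}, Bd H C →
      ∃ L, Tendsto (S.lam μ H) (hyperfilter ℕ) (𝓝 L) := by
    intro H C hH
    obtain ⟨L, -, hL⟩ := (isCompact_closedBall (0 : ℂ) (4 * C)).ultrafilter_le_nhds'
      ((hyperfilter ℕ).map (S.lam μ H)) (Ultrafilter.mem_map.2 (univ_mem' fun k => by
        simpa using S.norm_lam_le hH k))
    exact ⟨L, hL⟩
  choose β hβ using fun a b c => hex (hG a b c)
  have h0 : β 0 0 0 = 0 := by
    have b12 := pair_bound hT hB one_pos one_lt_two (by norm_num) h₁ h₂ S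
        (H := fun n x => F₃ 0 (T^[3 * n] x)) (β := fun a b => β a b 0)
        ⟨fun n => (h₃.meas _).comp (mT _), fun n x => h₃.le _ _⟩ fun a b => hβ a b 0
    have b13 := pair_bound hT hB one_pos (show 1 < 3 by norm_num) le_rfl h₁ h₃ S
        (H := fun n x => F₂ 0 (T^[2 * n] x)) (β := fun a b => β a 0 b)
        ⟨fun n => (h₂.meas _).comp (mT _), fun n x => h₂.le _ _⟩ fun a b => by
          have e : (fun n x => F₁ a (T^[1 * n] x) * F₃ b (T^[3 * n] x) * F₂ 0 (T^[2 * n] x)) =
              G a 0 b := by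
            funext n x; simp only [G]; ring
          rw [e]; exact hβ a 0 b
    have b23 := pair_bound hT hB two_pos (show 2 < 3 by norm_num) le_rfl h₂ h₃ S
        (H := fun n x => F₁ 0 (T^[1 * n] x)) (β := fun a b => β 0 a b)
        ⟨fun n => (h₁.meas _).comp (mT _), fun n x => h₁.le _ _⟩ fun a b => by
          have e : (fun n x => F₂ a (T^[2 * n] x) * F₃ b (T^[3 * n] x) * F₁ 0 (T^[1 * n] x)) =
              G 0 a b := by
            funext n x; simp only [G]; ring
          rw [e]; exact hβ 0 a b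
    refine array_zero hS₁ hS₂ hS₃ hs₁ hs₂ hs₃ hn β (fun a b c => ?_) 32 (by norm_num)
      b12 b13 b23 fun s => ?_
    · have h1 := ((S.lam_shift (μ := μ) (hG a b c)).mono_left Nat.hyperfilter_le_atTop).add
        (hβ a b c)
      simp only [sub_add_cancel, zero_add] at h1
      refine tendsto_nhds_unique (hβ _ _ _) ?_
      have e : G (a + 1) (b + 1) (c + 1) = fun n => G a b c (n + 1) := by
        funext n x
        simp only [G, h₁.step, h₂.step, h₃.step, ← Function.iterate_add_apply, mul_add, mul_one,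
          add_comm]
      rw [e]; exact h1
    · obtain ⟨g, hg, bg, eg, lg⟩ := exists_eigen hT hB (h₁.meas 0) (h₁.le 0) s
      let H : ℕ → X → ℂ := fun n x => F₂ 0 (T^[2 * n] x) * F₃ 0 (T^[3 * n] x)
      have hH : Bd H 1 := ⟨fun n => ((h₂.meas _).comp (mT _)).mul ((h₃.meas _).comp (mT _)),
        fun n x => b1 (h₂.le _ _) (h₃.le _ _)⟩
      have hg1 : Bd (fun n x => g (T^[1 * n] x) * H n x) 1 :=
        ⟨fun n => (hg.comp (mT _)).mul (hH.meas n), fun n x => b1 (bg _) (hH.le n x)⟩
      have c1 : Conv μ fun n x => g (T^[1 * n] x) * H n x := by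
        have := (hB 2 3 two_pos (by norm_num) le_rfl _ _ (h₂.meas 0) (h₃.meas 0) (h₂.le 0)
          (h₃.le 0) s).mul_left g
        filter_upwards [this, eg] with x ⟨L, hL⟩ hx
        refine ⟨L, hL.congr fun N => ?_⟩
        congr 1
        refine sum_congr rfl fun n _ => ?_
        rw [one_mul, hx]; simp only [H]; ring
      have l1 := (S.lam_conv hg1 c1).mono_left Nat.hyperfilter_le_atTop
      let γ : ℕ → X → ℂ := fun M x => av (fun a => fourier (-(a : ℤ)) s * F₁ 0 (T^[a] x)) M
      have mγ : ∀ M, Measurable (γ M) := fun M =>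
        measurable_av (fun a => measurable_const.mul ((h₁.meas 0).comp (mT a))) M
      have bγ : ∀ M x, ‖γ M x‖ ≤ 1 := fun M x => norm_av_le
        (fun a => by rw [norm_mul, norm_fourier, one_mul]; exact h₁.le _ _) M
      have bd : ∀ M x, ‖γ M x - g x‖ ≤ 2 := fun M x =>
        (norm_sub_le _ _).trans (by linarith [bγ M x, bg x])
      have key : ∀ M : ℕ, ‖(M : ℂ)⁻¹ * ∑ a ∈ range M, fourier (-(a : ℤ)) s * β a 0 0‖ ^ 2 ≤
          32 * ∫ x, ‖γ M x - g x‖ ^ 2 ∂μ := by
        intro M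
        have hγ1 : Bd (fun n x => γ M (T^[1 * n] x) * H n x) 1 :=
          ⟨fun n => ((mγ M).comp (mT _)).mul (hH.meas n), fun n x => b1 (bγ M _) (hH.le n x)⟩
        have l2 := tendsto_finsetSum (range M) fun a _ =>
          (hβ a 0 0).const_mul ((M : ℂ)⁻¹ * fourier (-(a : ℤ)) s)
        simp only [← S.lam_sum (range M) _ (fun a : ℕ => hG a 0 0)] at l2
        have e : (fun n x => ∑ a ∈ range M, (M : ℂ)⁻¹ * fourier (-(a : ℤ)) s * G a 0 0 n x) =
            fun n x => γ M (T^[1 * n] x) * H n x := by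
          funext n x
          simp only [γ, av, G, H, mul_sum, sum_mul]
          refine sum_congr rfl fun a _ => ?_
          have := h₁.iter 0 a (T^[1 * n] x)
          rw [zero_add] at this
          rw [this]
          simp only [Function.iterate_one]
          ring
        rw [e] at l2
        have l3 := l2.sub l1
        simp only [← S.lam_sub hγ1 hg1, sub_zero] at l3
        have := lam_sq hT hB one_pos one_lt_two (by norm_num) ({()} : Finset Unit) (fun _ => 4)
          (u := fun _ x => ((‖γ M x - g x‖ ^ 2 / 4 : ℝ) : ℂ)) (v := fun _ _ => 1)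
          (fun _ => Complex.measurable_ofReal.comp ((((mγ M).sub hg).norm.pow_const 2).div_const 4))
          (fun _ => measurable_const)
          (fun _ x => by
            rw [Complex.norm_real, Real.norm_eq_abs, abs_of_nonneg (by positivity)]
            nlinarith [bd M x, norm_nonneg (γ M x - g x)])
          (fun _ _ => by simp) (W := fun x _ => ‖γ M x - g x‖ ^ 2) (fun _ _ => by positivity)
          (fun x y => by simp only [sum_singleton]; push_cast; ring) S (C := 2)
          (G := fun n x => γ M (T^[1 * n] x) * H n x - g (T^[1 * n] x) * H n x)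
          ⟨fun n => (hγ1.meas n).sub (hg1.meas n), fun n x =>
            (norm_sub_le _ _).trans (by linarith [hγ1.le n x, hg1.le n x])⟩
          (fun n x => by
            refine pow_le_pow_left₀ (norm_nonneg _) ?_ 2
            rw [← sub_mul, norm_mul]
            exact mul_le_of_le_one_right (norm_nonneg _) (hH.le n x)) l3
        simp only [sum_singleton, integral_const, probReal_univ, one_smul, mul_one,
          integral_complex_ofReal, integral_div] at this
        simp only [mul_sum, ← mul_assoc]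
        refine this.trans (le_of_eq ?_)
        congr 1
        rw [show (4 : ℂ) = ((4 : ℝ) : ℂ) by norm_num, ← Complex.ofReal_mul, Complex.ofReal_re]
        ring
      have l4 := tendsto_integral_of_dominated_convergence (μ := μ)
        (F := fun M x => ‖γ M x - g x‖ ^ 2) (f := fun _ => 0) (fun _ => 4)
        (fun M => (((mγ M).sub hg).norm.pow_const 2).aestronglyMeasurable) (integrable_const _)
        (fun M => Eventually.of_forall fun x => by
          rw [Real.norm_eq_abs, abs_of_nonneg (by positivity)]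
          nlinarith [bd M x, norm_nonneg (γ M x - g x)]) (by
          filter_upwards [lg] with x hx
          have := (hx.sub_const (g x)).norm.pow 2
          rw [sub_self, norm_zero, zero_pow two_ne_zero] at this
          exact this)
      rw [integral_zero] at l4
      have l5 := squeeze_zero (fun M => by positivity) key (by simpa using l4.const_mul 32)
      rw [tendsto_zero_iff_norm_tendsto_zero]
      have l6 := l5.sqrt
      simp only [Real.sqrt_sq (norm_nonneg _), Real.sqrt_zero] at l6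
      exact l6
  have := ge_of_tendsto' ((Complex.continuous_re.tendsto _).comp (hβ 0 0 0)) hS
  rw [h0, Complex.zero_re] at this
  linarith

end Pool.Agent.Lib.MP_9721b5_an.Sing
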