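import Mathlib

/-!
Definitions used in the statement: spectral measure, tail and Pinsker sigma algebras.
-/

set_option autoImplicit false

open MeasureTheory ComplexConjugate

namespace Pool.Agent.Lib.MP_9721b5_an.Sing

/-- `σ` is the spectral measure of `f` for the Koopman operator of `T`: a finite positive measure
on the circle whose Fourier coefficients are the correlations of `f`. -/
structure IsSpectralMeasure {X : Type*} [MeasurableSpace X] (μ : Measure X) (T : X → X)
    (f : X → ℂ) (σ : Measure UnitAddCircle) : Prop where
  finite : IsFiniteMeasure σ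
  coeff : ∀ n : ℕ, ∫ s, fourier (n : ℤ) s ∂σ = ∫ x, f (T^[n] x) * conj (f x) ∂μ

/-- The set `S` carries the absolutely continuous part of the spectral measure of `f`:
outside `S` the spectral measure is singular with respect to Lebesgue measure. -/
def CarriesAC {X : Type*} [MeasurableSpace X] (μ : Measure X) (T : X → X) (f : X → ℂ)
    (S : Set UnitAddCircle) : Prop :=
  ∀ σ, IsSpectralMeasure μ T f σ → σ.restrict Sᶜ ⟂ₘ (volume : Measure UnitAddCircle)

/-- The tail sigma algebra of the process generated by the finite partition `ξ`:
the intersection over `n` of the sigma algebras generated by `ξ ∘ T^m`, `m ≥ n`. -/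
@[reducible] def tailSigma {X : Type*} (T : X → X) {k : ℕ} (ξ : X → Fin k) : MeasurableSpace X :=
  ⨅ n : ℕ, ⨆ m : ℕ, ⨆ _ : n ≤ m, MeasurableSpace.comap (fun x => ξ (T^[m] x)) ⊤

/-- The Pinsker sigma algebra, in the form of Pinsker, Rokhlin and Sinai: it is generated by the
tail sigma algebras of all finite measurable partitions. -/
@[reducible] def pinsker {X : Type*} [MeasurableSpace X] (T : X → X) : MeasurableSpace X :=
  ⨆ k : ℕ, ⨆ ξ : X → Fin k, ⨆ _ : Measurable ξ, tailSigma T ξ

end Pool.Agent.Lib.MP_9721b5_an.Sing
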