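import Pool.Agent.Lib.MP_9721b5_an.Sing.Pinsker

/-!
Normalisation: essentially bounded functions.
-/

set_option autoImplicit false

open MeasureTheory Filter Topology Finset ComplexConjugate
open scoped ENNReal NNReal

namespace Pool.Agent.Lib.MP_9721b5_an.Sing

variable {X : Type*} [mX : MeasurableSpace X] {μ : Measure X}

lemma pinsker_le {T : X → X} (hT : Measurable T) : pinsker T ≤ mX :=
  iSup_le fun _ => iSup₂_le fun ξ hξ => (iInf_le _ 0).trans (iSup₂_le fun n _ =>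
    ((measurable_from_top (f := id)).comp (hξ.comp (hT.iterate n)) :
      Measurable fun x => ξ (T^[n] x)).comap_le)

lemma exists_normal {f : X → ℂ} (hf : MemLp f ⊤ μ) :
    ∃ (C : ℝ≥0) (g : X → ℂ), 0 < C ∧ Measurable g ∧ (∀ x, ‖g x‖ ≤ 1) ∧
      f =ᵐ[μ] fun x => (C : ℂ) * g x := by
  obtain ⟨C, hC⟩ := eLpNormEssSup_lt_top_iff_isBoundedUnder.1
    (by simpa [eLpNorm_exponent_top] using hf.2)
  rw [eventually_map] at hC
  have h1 : (0 : ℝ) < C + 1 := by positivity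
  have h2 : ((C + 1 : ℝ≥0) : ℂ) ≠ 0 := by exact_mod_cast h1.ne'
  refine ⟨C + 1, fun x => clip (hf.1.mk f x / ((C + 1 : ℝ≥0) : ℂ)), by positivity,
    measurable_clip.comp (hf.1.stronglyMeasurable_mk.measurable.div_const _),
    fun x => norm_clip _, ?_⟩
  filter_upwards [hC, hf.1.ae_eq_mk] with x hx hx'
  rw [← hx', clip_eq, mul_div_cancel₀ _ h2]
  rw [norm_div, Complex.norm_real, Real.norm_eq_abs, abs_of_pos (by exact_mod_cast h1),
    div_le_one (by exact_mod_cast h1)]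
  have : ‖f x‖ ≤ C := by exact_mod_cast hx
  push_cast
  linarith

variable [IsProbabilityMeasure μ]

lemma spec_normal {T : X → X} (hT : MeasurePreserving T μ μ) {f g : X → ℂ} {C : ℝ≥0} (hC : 0 < C)
    (bg : ∀ x, ‖g x‖ ≤ 1) (e : f =ᵐ[μ] fun x => (C : ℂ) * g x) {S : Set UnitAddCircle}
    (h : CarriesAC μ T (μ[f | pinsker T]) S) :
    ∃ σ, IsSpectralMeasure μ T (μ[g | pinsker T]) σ ∧ σ.restrict Sᶜ ⟂ₘ volume := by
  obtain ⟨σ, hσ⟩ := herglotz hT ((measurable_ce (μ := μ) g).mono (pinsker_le hT.measurable) le_rfl)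
    (norm_ce g)
  have hσ' := hσ.congr hT (ce_ae bg)
  have := hσ.finite
  have e' : (fun x => (C : ℂ) * (μ[g | pinsker T]) x) =ᵐ[μ] μ[f | pinsker T] :=
    ((condExp_congr_ae e).trans (condExp_smul (C : ℂ) g (pinsker T))).symm
  have h2 : IsSpectralMeasure μ T (fun x => (C : ℂ) * (μ[g | pinsker T]) x) ((C ^ 2) • σ) := by
    refine ⟨inferInstance, fun n => ?_⟩
    rw [integral_smul_nnreal_measure, hσ'.coeff, NNReal.smul_def, Complex.real_smul,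
      ← integral_const_mul]
    refine integral_congr_ae (Eventually.of_forall fun x => ?_)
    simp only [map_mul, Complex.conj_ofReal]
    push_cast
    ring
  refine ⟨σ, hσ', (h _ (h2.congr hT e')).mono_ac ?_ Measure.AbsolutelyContinuous.rfl⟩
  refine Measure.AbsolutelyContinuous.restrict ?_ _
  exact Measure.absolutelyContinuous_smul (c := ((C ^ 2 : ℝ≥0) : ℝ≥0∞)) (by simpa using hC.ne')

theorem final (hB : BDRshift) {T : X ≃ᵐ X} (hT : MeasurePreserving T μ μ) {f g h : X → ℂ}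
    (hf : MemLp f ⊤ μ) (hg : MemLp g ⊤ μ) (hh : MemLp h ⊤ μ) {A B C : Set UnitAddCircle}
    (hA : MeasurableSet A) (hB' : MeasurableSet B) (hC : MeasurableSet C)
    (sf : CarriesAC μ T (μ[f | pinsker T]) A) (sg : CarriesAC μ T (μ[g | pinsker T]) B)
    (sh : CarriesAC μ T (μ[h | pinsker T]) C)
    (hn : ((volume : Measure UnitAddCircle).prod (volume : Measure UnitAddCircle))
      {p | -(2 • p.1) - 3 • p.2 ∈ A ∧ p.1 ∈ B ∧ p.2 ∈ C} = 0) :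
    ∀ᵐ x ∂μ, ∃ L : ℂ, Tendsto (fun N : ℕ => (N : ℂ)⁻¹ *
      ∑ n ∈ Icc 1 N, f (T^[n] x) * g (T^[2 * n] x) * h (T^[3 * n] x)) atTop (𝓝 L) := by
  obtain ⟨c₁, f₁, p₁, m₁, b₁, e₁⟩ := exists_normal hf
  obtain ⟨c₂, f₂, p₂, m₂, b₂, e₂⟩ := exists_normal hg
  obtain ⟨c₃, f₃, p₃, m₃, b₃, e₃⟩ := exists_normal hh
  obtain ⟨σ₁, h₁, s₁⟩ := spec_normal hT p₁ b₁ e₁ sf
  obtain ⟨σ₂, h₂, s₂⟩ := spec_normal hT p₂ b₂ e₂ sg
  obtain ⟨σ₃, h₃, s₃⟩ := spec_normal hT p₃ b₃ e₃ sh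
  have := pinsker_general hB hT (pinsker_le hT.measurable) le_rfl m₁ m₂ m₃ b₁ b₂ b₃ h₁ h₂ h₃
    hA hB' hC s₁ s₂ s₃ hn
  have it : ∀ {u v : X → ℂ}, u =ᵐ[μ] v → ∀ᵐ x ∂μ, ∀ n, u (T^[n] x) = v (T^[n] x) := fun e =>
    ae_all_iff.2 fun n => (hT.iterate n).quasiMeasurePreserving.ae e
  filter_upwards [this, it e₁, it e₂, it e₃] with x ⟨L, hL⟩ x₁ x₂ x₃
  have k1 : ∀ {a b : ℂ}, ‖a‖ ≤ 1 → ‖b‖ ≤ 1 → ‖a * b‖ ≤ 1 := fun ha hb => by
    rw [norm_mul]; exact mul_le_one₀ ha (norm_nonneg _) hb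
  have h1 := ((tendsto_av_shift
    (a := fun n => f₁ (T^[n] x) * f₂ (T^[2 * n] x) * f₃ (T^[3 * n] x))
    fun n => k1 (k1 (b₁ _) (b₂ _)) (b₃ _)).add hL).const_mul ((c₁ : ℂ) * c₂ * c₃)
  refine ⟨_, h1.congr fun N => ?_⟩
  simp only [av, sub_add_cancel, x₁, x₂, x₃]
  rw [mul_left_comm, mul_sum, range_eq_Ico, sum_Ico_add' (fun n => (c₁ : ℂ) * c₂ * c₃ *
    (f₁ (T^[n] x) * f₂ (T^[2 * n] x) * f₃ (T^[3 * n] x))), zero_add, Ico_add_one_right_eq_Icc]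
  congr 1
  exact sum_congr rfl fun n _ => by ring

end Pool.Agent.Lib.MP_9721b5_an.Sing
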