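import Pool.Agent.Lib.MP_9721b5_an.Sing.Spec
import Pool.Agent.Shared.Ergodic.Decomp

/-!
Removal of ergodicity through the shift model and the ergodic decomposition.
-/

set_option autoImplicit false

open MeasureTheory Filter Topology Finset ComplexConjugate
open Pool.Agent.Shared.Ergodic

namespace Pool.Agent.Lib.MP_9721b5_an.Sing

variable {X : Type*} [MeasurableSpace X] {μ : Measure X}

lemma orb_of_spec {S : X → X} (hS : MeasurePreserving S μ μ) {Φ : ℤ → X → ℂ}
    (hm : ∀ a, Measurable (Φ a)) (hb : ∀ a x, ‖Φ a x‖ ≤ 1) (hs : ∀ a x, Φ (a + 1) x = Φ a (S x))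
    {σ : Measure UnitAddCircle} (hσ : IsSpectralMeasure μ S (Φ 0) σ) {j : ℕ} (hj : 0 < j) :
    Orb μ S^[j] (fun a => Φ (j * a)) (σ.map fun s => j • s) := by
  have hit : ∀ (a : ℤ) (n : ℕ) x, Φ (a + n) x = Φ a (S^[n] x) := by
    intro a n
    induction n with
    | zero => simp
    | succ n ih => intro x; rw [Nat.cast_succ, ← add_assoc, hs, ih, Function.iterate_succ_apply]
  let c : ℤ → ℤ → ℂ := fun a b => ∫ x, Φ a x * conj (Φ b x) ∂μ
  have h1 : ∀ a b, c (a + 1) (b + 1) = c a b := fun a b => by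
    simp only [c, hs]
    exact integral_comp_mp hS (v := fun x => Φ a x * conj (Φ b x))
      ((hm a).mul (Complex.continuous_conj.measurable.comp (hm b)))
  have h2 : ∀ (m : ℤ) a b, c (a + m) (b + m) = c a b := by
    intro m
    induction m using Int.induction_on with
    | zero => simp
    | succ m ih => intro a b; rw [← ih a b, ← h1 (a + m)]; simp only [add_assoc]
    | pred m ih =>
      intro a b
      rw [← ih a b, ← h1 (a + (-m - 1))]
      congr 1 <;> ring
  have h3 : ∀ n : ℕ, c n 0 = ∫ s, fourier (n : ℤ) s ∂σ := fun n => by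
    rw [hσ.coeff]
    simp only [c, ← hit, zero_add]
  have h4 : ∀ n : ℤ, c n 0 = ∫ s, fourier n s ∂σ := by
    intro n
    obtain ⟨m, rfl | rfl⟩ := n.eq_nat_or_neg
    · exact h3 m
    · rw [integral_fourier_neg, ← h3, ← h2 m, neg_add_cancel, zero_add]
      simp only [c]
      rw [← integral_conj]
      simp only [map_mul, Complex.conj_conj, mul_comm]
  refine ⟨fun a => hm _, fun a => hb _, fun a x => by rw [mul_add, mul_one, hit], fun a b => ?_⟩
  rw [integral_map (mp_nsmul hj).measurable.aemeasurable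
    (fourier (a - b)).continuous.aestronglyMeasurable]
  have : ∀ s : UnitAddCircle, fourier (a - b) (j • s) = fourier (j * a - j * b) s := fun s => by
    simp only [fourier_apply]
    congr 2
    rw [← natCast_zsmul, smul_smul]
    congr 1; ring
  simp only [this]
  rw [← h4, ← h2 (j * b), sub_add_cancel, zero_add]

/-- the model space -/
abbrev Ysp : Type := ℤ → ℂ × ℂ × ℂ

/-- the shift on the model space -/
def shift : Ysp ≃ᵐ Ysp where
  toFun z n := z (n + 1)
  invFun z n := z (n - 1)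
  left_inv z := by funext n; simp
  right_inv z := by funext n; simp
  measurable_toFun := measurable_pi_lambda _ fun _ => measurable_pi_apply _
  measurable_invFun := measurable_pi_lambda _ fun _ => measurable_pi_apply _

lemma shift_apply (z : Ysp) (n : ℤ) : shift z n = z (n + 1) := rfl

/-- truncation -/
noncomputable def clip (w : ℂ) : ℂ := if ‖w‖ ≤ 1 then w else 0

lemma measurable_clip : Measurable clip :=
  Measurable.ite (measurableSet_le measurable_norm measurable_const) measurable_id measurable_const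

lemma norm_clip (w : ℂ) : ‖clip w‖ ≤ 1 := by
  unfold clip; split_ifs with h; exacts [h, by simp]

lemma clip_eq {w : ℂ} (h : ‖w‖ ≤ 1) : clip w = w := if_pos h

/-- double recurrence on all ergodic shift systems of the model space -/
def BDRshift : Prop :=
  ∀ κ : Measure Ysp, IsProbabilityMeasure κ → Ergodic shift κ → BDR κ shift

/-- integer powers of an invertible map -/
def zit (T : X ≃ᵐ X) (n : ℤ) : X → X := (T.toEquiv ^ n : Equiv.Perm X)

lemma zit_zero (T : X ≃ᵐ X) (x : X) : zit T 0 x = x := by simp [zit]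

lemma zit_succ (T : X ≃ᵐ X) (n : ℤ) (x : X) : zit T (n + 1) x = zit T n (T x) := by
  simp [zit, zpow_add_one]

lemma zit_add (T : X ≃ᵐ X) (m n : ℤ) (x : X) : zit T (m + n) x = zit T m (zit T n x) := by
  simp [zit, zpow_add]

lemma zit_nat (T : X ≃ᵐ X) (n : ℕ) (x : X) : zit T n x = T^[n] x := by
  induction n generalizing x with
  | zero => exact zit_zero T x
  | succ n ih => rw [Nat.cast_succ, zit_succ, ih, Function.iterate_succ_apply]

lemma mp_zit {T : X ≃ᵐ X} (hT : MeasurePreserving T μ μ) (n : ℤ) :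
    MeasurePreserving (zit T n) μ μ := by
  induction n using Int.induction_on with
  | zero => rw [show zit T 0 = id from funext (zit_zero T)]; exact MeasurePreserving.id μ
  | succ n ih => rw [show zit T (n + 1) = zit T n ∘ T from funext (zit_succ T n)]; exact ih.comp hT
  | pred n ih =>
    have : zit T (-n - 1) = zit T (-n) ∘ T.symm := by
      funext x
      rw [Function.comp_apply, ← T.apply_symm_apply x, ← zit_succ, T.symm_apply_apply,
        sub_add_cancel]
    rw [this]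
    exact ih.comp hT.symm

lemma singular_components {Y : Type*} [MeasurableSpace Y] (ν : Measure Y) [IsProbabilityMeasure ν]
    {S : Y → Y} (hS : Measurable S) (κ : Y → Measure Y) [∀ y, IsProbabilityMeasure (κ y)]
    (h1 : ∀ᵐ y ∂ν, Ergodic S (κ y))
    (h2 : ∀ f : Y → ℂ, Integrable f ν → AEStronglyMeasurable (fun y => ∫ z, f z ∂κ y) ν ∧
        ∫ y, ∫ z, f z ∂κ y ∂ν = ∫ z, f z ∂ν)
    {φ : Y → ℂ} (hφ : Measurable φ) (bφ : ∀ y, ‖φ y‖ ≤ 1) {σ : Measure UnitAddCircle}
    (hσ : IsSpectralMeasure ν S φ σ) {A : Set UnitAddCircle} (_hA : MeasurableSet A)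
    (hs : σ.restrict Aᶜ ⟂ₘ volume) :
    ∀ᵐ y ∂ν, ∃ τ, IsSpectralMeasure (κ y) S φ τ ∧ τ.restrict Aᶜ ⟂ₘ volume := by
  classical
  have := hσ.finite
  let τ : Y → Measure UnitAddCircle := fun y =>
    if h : ∃ τ, IsSpectralMeasure (κ y) S φ τ then h.choose else 0
  have hτ : ∀ y, (∃ τ, IsSpectralMeasure (κ y) S φ τ) → IsSpectralMeasure (κ y) S φ (τ y) :=
    fun y h => by simp only [τ, dif_pos h]; exact h.choose_spec
  have hfin : ∀ y, IsFiniteMeasure (τ y) := fun y => by
    by_cases h : ∃ τ, IsSpectralMeasure (κ y) S φ τ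
    · exact (hτ y h).finite
    · simp only [τ, dif_neg h]; infer_instance
  have bc : ∀ n y, ‖φ (S^[n] y) * conj (φ y)‖ ≤ 1 := fun n y => by
    rw [norm_mul, Complex.norm_conj]; exact mul_le_one₀ (bφ _) (norm_nonneg _) (bφ _)
  have hmass : ∀ y, (τ y).real Set.univ ≤ 1 := fun y => by
    by_cases h : ∃ τ, IsSpectralMeasure (κ y) S φ τ
    · have e := congrArg norm ((hτ y h).coeff 0)
      simp only [Nat.cast_zero, fourier_zero, integral_const, Complex.real_smul, mul_one,
        Complex.norm_real, Real.norm_eq_abs] at e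
      refine (le_abs_self _).trans (e.trans_le ?_)
      simpa using norm_integral_le_of_norm_le_const (μ := κ y) (Eventually.of_forall (bc 0))
    · simp [τ, dif_neg h]
  have hae : ∀ᵐ y ∂ν, IsSpectralMeasure (κ y) S φ (τ y) := by
    filter_upwards [h1] with y hy
    exact hτ y (herglotz hy.toMeasurePreserving hφ bφ)
  obtain ⟨N, hN, n1, n2⟩ := hs.symm
  rw [Measure.restrict_apply hN.compl] at n2
  have := mixture_null ν τ hmass σ (fun n => by
    have e : (fun y => ∫ z, φ (S^[n] z) * conj (φ z) ∂κ y) =ᵐ[ν]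
        fun y => ∫ s, fourier (n : ℤ) s ∂τ y := by
      filter_upwards [hae] with y hy using (hy.coeff n).symm
    have := h2 (fun z => φ (S^[n] z) * conj (φ z)) (integrable_bdd
      ((hφ.comp (hS.iterate n)).mul (Complex.continuous_conj.measurable.comp hφ)) (bc n))
    exact ⟨this.1.congr e, by rw [← integral_congr_ae e, this.2, hσ.coeff]⟩) n2
  filter_upwards [hae, this] with y hy hy'
  exact ⟨τ y, hy, Measure.MutuallySingular.symm ⟨N, hN, n1, by
    rw [Measure.restrict_apply hN.compl]; exact hy'⟩⟩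

theorem general (hB : BDRshift) [IsProbabilityMeasure μ] {T : X ≃ᵐ X}
    (hT : MeasurePreserving T μ μ) {f₁ f₂ f₃ : X → ℂ} (m₁ : Measurable f₁) (m₂ : Measurable f₂)
    (m₃ : Measurable f₃) (b₁ : ∀ x, ‖f₁ x‖ ≤ 1) (b₂ : ∀ x, ‖f₂ x‖ ≤ 1) (b₃ : ∀ x, ‖f₃ x‖ ≤ 1)
    {σ₁ σ₂ σ₃ : Measure UnitAddCircle} (h₁ : IsSpectralMeasure μ T f₁ σ₁)
    (h₂ : IsSpectralMeasure μ T f₂ σ₂) (h₃ : IsSpectralMeasure μ T f₃ σ₃)
    {S₁ S₂ S₃ : Set UnitAddCircle}
    (hS₁ : MeasurableSet S₁) (hS₂ : MeasurableSet S₂) (hS₃ : MeasurableSet S₃)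
    (hs₁ : σ₁.restrict S₁ᶜ ⟂ₘ volume) (hs₂ : σ₂.restrict S₂ᶜ ⟂ₘ volume)
    (hs₃ : σ₃.restrict S₃ᶜ ⟂ₘ volume)
    (hn : ((volume : Measure UnitAddCircle).prod (volume : Measure UnitAddCircle))
      {p | -(2 • p.1) - 3 • p.2 ∈ S₁ ∧ p.1 ∈ S₂ ∧ p.2 ∈ S₃} = 0) :
    Conv μ fun n x => f₁ (T^[n] x) * f₂ (T^[2 * n] x) * f₃ (T^[3 * n] x) := by
  let π : X → Ysp := fun x n => (f₁ (zit T n x), f₂ (zit T n x), f₃ (zit T n x))
  have hπ : Measurable π := measurable_pi_lambda _ fun n =>
    (m₁.comp (mp_zit hT n).measurable).prodMk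
      ((m₂.comp (mp_zit hT n).measurable).prodMk (m₃.comp (mp_zit hT n).measurable))
  have hsc : ∀ x, shift (π x) = π (T x) := fun x => by
    funext n; simp only [shift_apply, π, zit_succ]
  have hsc' : ∀ n x, shift^[n] (π x) = π (T^[n] x) := fun n x =>
    (Function.Semiconj.iterate_right (fun x => (hsc x).symm) n x).symm
  have := Measure.isProbabilityMeasure_map (μ := μ) hπ.aemeasurable
  have hS : MeasurePreserving shift (μ.map π) (μ.map π) := ⟨shift.measurable, by
    rw [Measure.map_map shift.measurable hπ, show shift ∘ π = π ∘ T from funext hsc,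
      ← Measure.map_map hπ hT.measurable, hT.map_eq]⟩
  let Φ₁ : ℤ → Ysp → ℂ := fun a z => clip (z a).1
  let Φ₂ : ℤ → Ysp → ℂ := fun a z => clip (z a).2.1
  let Φ₃ : ℤ → Ysp → ℂ := fun a z => clip (z a).2.2
  have mΦ₁ : ∀ a, Measurable (Φ₁ a) := fun a => measurable_clip.comp (measurable_pi_apply a).fst
  have mΦ₂ : ∀ a, Measurable (Φ₂ a) := fun a =>
    measurable_clip.comp (measurable_pi_apply a).snd.fst
  have mΦ₃ : ∀ a, Measurable (Φ₃ a) := fun a =>
    measurable_clip.comp (measurable_pi_apply a).snd.snd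
  have e₁ : ∀ x, Φ₁ 0 (π x) = f₁ x := fun x => by simp only [Φ₁, π, zit_zero, clip_eq (b₁ _)]
  have e₂ : ∀ x, Φ₂ 0 (π x) = f₂ x := fun x => by simp only [Φ₂, π, zit_zero, clip_eq (b₂ _)]
  have e₃ : ∀ x, Φ₃ 0 (π x) = f₃ x := fun x => by simp only [Φ₃, π, zit_zero, clip_eq (b₃ _)]
  have tr : ∀ {φ : Ysp → ℂ} {f : X → ℂ} {σ : Measure UnitAddCircle}, Measurable φ →
      (∀ x, φ (π x) = f x) → IsSpectralMeasure μ T f σ → IsSpectralMeasure (μ.map π) shift φ σ := by
    intro φ f σ hφ e h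
    refine ⟨h.finite, fun n => ?_⟩
    rw [h.coeff, integral_map hπ.aemeasurable (f := fun z => φ (shift^[n] z) * conj (φ z)) ((hφ.comp (shift.measurable.iterate n)).mul
      (Complex.continuous_conj.measurable.comp hφ)).aestronglyMeasurable]
    simp only [hsc', e]
  obtain ⟨κ, k0, k1, k2⟩ := ergodic_decomposition (μ.map π) hS
  have c₁ := singular_components _ shift.measurable κ k1 k2 (mΦ₁ 0) (fun _ => norm_clip _)
    (tr (mΦ₁ 0) e₁ h₁) hS₁ hs₁
  have c₂ := singular_components _ shift.measurable κ k1 k2 (mΦ₂ 0) (fun _ => norm_clip _)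
    (tr (mΦ₂ 0) e₂ h₂) hS₂ hs₂
  have c₃ := singular_components _ shift.measurable κ k1 k2 (mΦ₃ 0) (fun _ => norm_clip _)
    (tr (mΦ₃ 0) e₃ h₃) hS₃ hs₃
  let G : ℕ → Ysp → ℂ := fun n z =>
    Φ₁ 0 (shift^[1 * n] z) * Φ₂ 0 (shift^[2 * n] z) * Φ₃ 0 (shift^[3 * n] z)
  have mG : ∀ n, Measurable (G n) := fun n =>
    (((mΦ₁ 0).comp (shift.measurable.iterate _)).mul
      ((mΦ₂ 0).comp (shift.measurable.iterate _))).mul ((mΦ₃ 0).comp (shift.measurable.iterate _))
  have hc : ∀ᵐ y ∂(μ.map π), Conv (κ y) G := by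
    filter_upwards [k1, c₁, c₂, c₃] with y hy ⟨τ₁, t₁, s₁⟩ ⟨τ₂, t₂, s₂⟩ ⟨τ₃, t₃, s₃⟩
    have := t₁.finite
    have := t₂.finite
    have := t₃.finite
    have := core hy (hB _ (k0 y) hy)
      (orb_of_spec hy.toMeasurePreserving mΦ₁ (fun _ _ => norm_clip _) (fun _ _ => rfl) t₁ one_pos)
      (orb_of_spec hy.toMeasurePreserving mΦ₂ (fun _ _ => norm_clip _) (fun _ _ => rfl) t₂ two_pos)
      (orb_of_spec hy.toMeasurePreserving mΦ₃ (fun _ _ => norm_clip _) (fun _ _ => rfl) t₃
        three_pos)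
      (measurableSet_image_nsmul one_pos hS₁) (measurableSet_image_nsmul two_pos hS₂)
      (measurableSet_image_nsmul three_pos hS₃) (singular_map one_pos hS₁ s₁)
      (singular_map two_pos hS₂ s₂) (singular_map three_pos hS₃ s₃) (nonres_transfer hS₁ hS₂ hS₃ hn)
    simpa only [mul_zero] using this
  have hE : MeasurableSet {z | ∃ L, Tendsto (fun N => av (fun n => G n z) N) atTop (𝓝 L)} :=
    measurableSet_exists_tendsto (measurable_av mG)
  have h0 := (k2 _ ((integrable_const (1 : ℂ)).indicator hE.compl)).2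
  simp only [integral_indicator hE.compl, setIntegral_const, Complex.real_smul, mul_one] at h0
  have h1 : ∀ᵐ y ∂(μ.map π), (((κ y).real
      {z | ∃ L, Tendsto (fun N => av (fun n => G n z) N) atTop (𝓝 L)}ᶜ : ℝ) : ℂ) = 0 := by
    filter_upwards [hc] with y hy
    rw [Measure.real, show κ y {z | ∃ L, Tendsto (fun N => av (fun n => G n z) N) atTop (𝓝 L)}ᶜ = 0
      from hy]
    simp
  rw [integral_congr_ae h1, integral_zero, eq_comm, Complex.ofReal_eq_zero,
    measureReal_eq_zero_iff (measure_ne_top _ _)] at h0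
  have h2 : ∀ᵐ z ∂(μ.map π), ∃ L, Tendsto (fun N => av (fun n => G n z) N) atTop (𝓝 L) := h0
  filter_upwards [ae_of_ae_map hπ.aemeasurable h2] with x hx
  simpa only [G, hsc', e₁, e₂, e₃, one_mul, av] using hx

end Pool.Agent.Lib.MP_9721b5_an.Sing
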