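import Pool.Agent.Lib.MP_9721b5_an.Sing.Stab

/-!
The lemma of Host on measures carried by the plane `s + t + u = 0` whose three pair
projections are absolutely continuous with respect to product measures.
-/

set_option autoImplicit false

open MeasureTheory Set Filter Topology
open scoped ENNReal

namespace Pool.Agent.Lib.MP_9721b5_an.Sing

/-- coordinates one and three -/
def t13 (p : UnitAddCircle × UnitAddCircle) : UnitAddCircle × UnitAddCircle := (p.1, -p.1 - p.2)

/-- coordinates two and three -/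
def t23 (p : UnitAddCircle × UnitAddCircle) : UnitAddCircle × UnitAddCircle := (p.2, -p.1 - p.2)

lemma continuous_t13 : Continuous t13 := by unfold t13; fun_prop
lemma continuous_t23 : Continuous t23 := by unfold t23; fun_prop
lemma measurable_t13 : Measurable t13 := continuous_t13.measurable
lemma measurable_t23 : Measurable t23 := continuous_t23.measurable

lemma real_withDensity_le (σ : Measure UnitAddCircle) {k : UnitAddCircle → ℝ≥0∞}
    (hk : Measurable k) (hfin : ∫⁻ s, k s ∂σ ≠ ∞) {φ : UnitAddCircle → ℝ} (hφ : Integrable φ σ)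
    {δ : ℝ} (hδ : 0 ≤ δ) (h : ∫⁻ s, ‖(k s).toReal - φ s‖ₑ ∂σ < ENNReal.ofReal δ)
    {A : Set UnitAddCircle} (hA : MeasurableSet A) :
    |(σ.withDensity k).real A - ∫ s in A, φ s ∂σ| ≤ δ := by
  have hi : Integrable (fun s => (k s).toReal) σ :=
    integrable_toReal_of_lintegral_ne_top hk.aemeasurable hfin
  have e : (σ.withDensity k).real A = ∫ s in A, (k s).toReal ∂σ := by
    rw [Measure.real, withDensity_apply _ hA, integral_toReal hk.aemeasurable
      (ae_restrict_of_ae (ae_lt_top hk hfin))]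
  rw [e, ← integral_sub hi.integrableOn hφ.integrableOn, ← Real.norm_eq_abs]
  refine (norm_integral_le_lintegral_norm _).trans ?_
  refine ENNReal.toReal_le_of_le_ofReal hδ ?_
  refine le_trans ?_ h.le
  refine le_trans (lintegral_mono' Measure.restrict_le_self le_rfl) (le_of_eq ?_)
  simp only [ofReal_norm]

/-- countable covers by sets on which a family of densities is almost constant -/
lemma cover (σ : Measure UnitAddCircle) [IsFiniteMeasure σ]
    {k : UnitAddCircle → UnitAddCircle → ℝ≥0∞} (hk : Measurable (Function.uncurry k))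
    {δ : ℝ} (hδ : 0 < δ) :
    ∃ B : ℕ → Set UnitAddCircle, (∀ n, MeasurableSet (B n)) ∧
      (∀ t, ∫⁻ s, k t s ∂σ ≠ ∞ → ∃ n, t ∈ B n) ∧
      ∀ n, ∀ t ∈ B n, ∀ t' ∈ B n, ∫⁻ s, k t s ∂σ ≠ ∞ → ∫⁻ s, k t' s ∂σ ≠ ∞ →
        ∀ A, MeasurableSet A → (σ.withDensity (k t)).real A ≤ (σ.withDensity (k t')).real A + δ := by
  have : Fact ((1 : ℝ≥0∞) ≠ ∞) := ⟨by simp⟩
  have : IsSeparable σ := isSeparable_of_sigmaFinite σ
  have : SecondCountableTopology (Lp ℝ 1 σ) := Lp.SecondCountableTopology
  obtain ⟨φ, hφ⟩ := TopologicalSpace.exists_dense_seq (Lp ℝ 1 σ)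
  have hkt : ∀ t, Measurable (k t) := fun t => hk.comp measurable_prodMk_left
  refine ⟨fun n => {t | ∫⁻ s, ‖(k t s).toReal - φ n s‖ₑ ∂σ < ENNReal.ofReal (δ / 2)},
    fun n => ?_, fun t ht => ?_, fun n t ht t' ht' h h' A hA => ?_⟩
  · refine measurableSet_lt (Measurable.lintegral_prod_right' (f := fun p : _ × _ =>
      ‖(k p.1 p.2).toReal - φ n p.2‖ₑ) ?_) measurable_const
    exact (hk.ennreal_toReal.sub
      ((Lp.stronglyMeasurable (φ n)).measurable.comp measurable_snd)).enorm
  · have hi : Integrable (fun s => (k t s).toReal) σ :=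
      integrable_toReal_of_lintegral_ne_top (hkt t).aemeasurable ht
    obtain ⟨n, hn⟩ := Metric.denseRange_iff.1 hφ (hi.toL1 _) (δ / 2) (half_pos hδ)
    refine ⟨n, ?_⟩
    have e : edist (hi.toL1 _) (φ n) = ∫⁻ s, ‖(k t s).toReal - φ n s‖ₑ ∂σ := by
      rw [L1.edist_def]
      refine lintegral_congr_ae ?_
      filter_upwards [hi.coeFn_toL1] with s hs
      rw [hs, edist_eq_enorm_sub]
    simp only [mem_ofPred_eq]
    rw [← e, edist_lt_ofReal]
    exact hn
  · have h1 := real_withDensity_le σ (hkt t) h (L1.integrable_coeFn (φ n)) (half_pos hδ).le ht hA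
    have h2 := real_withDensity_le σ (hkt t') h' (L1.integrable_coeFn (φ n)) (half_pos hδ).le ht' hA
    rw [abs_le] at h1 h2
    linarith [h1.2, h2.1]

lemma ae_measure_eq {Y : Type*} [MeasurableSpace Y] (σ : Measure Y)
    (a b : Y → Measure UnitAddCircle) (hfin : ∀ᵐ t ∂σ, a t univ ≠ ∞)
    (h : ∀ A, MeasurableSet A → ∀ᵐ t ∂σ, a t A = b t A) : ∀ᵐ t ∂σ, a t = b t := by
  let C := generateSetAlgebra (MeasurableSpace.countableGeneratingSet UnitAddCircle)
  have hC : C.Countable :=
    countable_generateSetAlgebra MeasurableSpace.countable_countableGeneratingSet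
  have hgen : (inferInstance : MeasurableSpace UnitAddCircle) = MeasurableSpace.generateFrom C := by
    rw [generateFrom_generateSetAlgebra_eq, MeasurableSpace.generateFrom_countableGeneratingSet]
  have hall : ∀ᵐ t ∂σ, ∀ A ∈ C, a t A = b t A := by
    rw [ae_ball_iff hC]
    intro A hA
    exact h A (hgen.ge A (MeasurableSpace.measurableSet_generateFrom hA))
  filter_upwards [hall, hfin, h univ MeasurableSet.univ] with t ht hf hu
  have : IsFiniteMeasure (a t) := ⟨hf.lt_top⟩
  exact ext_of_generate_finite C hgen isSetAlgebra_generateSetAlgebra.isSetRing.isSetSemiring.isPiSystem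
    ht hu

/-- The lemma of Host -/
theorem host_zero (σ₁ σ₂ σ₃ : Measure UnitAddCircle) [IsFiniteMeasure σ₁] [IsFiniteMeasure σ₂]
    [IsFiniteMeasure σ₃] [NullSingletonClass σ₁] (hs : σ₁ ⟂ₘ volume)
    (ρ : Measure (UnitAddCircle × UnitAddCircle)) [IsFiniteMeasure ρ]
    (h12 : ρ ≪ σ₁.prod σ₂) (h13 : ρ.map t13 ≪ σ₁.prod σ₃) (h23 : ρ.map t23 ≪ σ₂.prod σ₃) :
    ρ = 0 := by
  set k := ρ.rnDeriv (σ₁.prod σ₂) with hkdef
  set l := (ρ.map t23).rnDeriv (σ₂.prod σ₃) with hldef
  have hk : Measurable k := Measure.measurable_rnDeriv _ _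
  have hl : Measurable l := Measure.measurable_rnDeriv _ _
  have hρ : (σ₁.prod σ₂).withDensity k = ρ := Measure.withDensity_rnDeriv_eq _ _ h12
  have hρ' : (σ₂.prod σ₃).withDensity l = ρ.map t23 := Measure.withDensity_rnDeriv_eq _ _ h23
  let a : UnitAddCircle → Measure UnitAddCircle := fun t => σ₁.withDensity fun s => k (s, t)
  let g : UnitAddCircle → Measure UnitAddCircle := fun t => σ₃.withDensity fun u => l (t, u)
  have hkt : ∀ t, Measurable fun s => k (s, t) := fun t => hk.comp measurable_prodMk_right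
  have hlt : ∀ t, Measurable fun u => l (t, u) := fun t => hl.comp measurable_prodMk_left
  have ha : ∀ A, MeasurableSet A → ∀ C, MeasurableSet C →
      ρ (A ×ˢ C) = ∫⁻ t in C, a t A ∂σ₂ := by
    intro A hA C hC
    rw [← hρ, withDensity_apply _ (hA.prod hC), ← Measure.prod_restrict,
      lintegral_prod_symm _ hk.aemeasurable]
    refine lintegral_congr fun t => ?_
    rw [withDensity_apply _ hA]
  have ham : ∀ A, MeasurableSet A → Measurable fun t => a t A := by
    intro A hA
    simp only [a, withDensity_apply _ hA]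
    exact Measurable.lintegral_prod_left' hk
  have hg : ∀ E, MeasurableSet E → ρ.map t23 E = ∫⁻ t, g t (Prod.mk t ⁻¹' E) ∂σ₂ := by
    intro E hE
    rw [← hρ', withDensity_apply _ hE, ← lintegral_indicator hE,
      lintegral_prod _ (hl.indicator hE).aemeasurable]
    refine lintegral_congr fun t => ?_
    rw [withDensity_apply _ (measurable_prodMk_left hE),
      ← lintegral_indicator (measurable_prodMk_left hE)]
    rfl
  have hgm : ∀ E, MeasurableSet E → Measurable fun t => g t (Prod.mk t ⁻¹' E) := by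
    intro E hE
    have : (fun t => g t (Prod.mk t ⁻¹' E)) = fun t => ∫⁻ u, E.indicator l (t, u) ∂σ₃ := by
      funext t
      rw [withDensity_apply _ (measurable_prodMk_left hE),
        ← lintegral_indicator (measurable_prodMk_left hE)]
      rfl
    rw [this]
    exact Measurable.lintegral_prod_right' (hl.indicator hE)
  have hrefl : ∀ t : UnitAddCircle, Measurable fun u : UnitAddCircle => -t - u := fun t =>
    measurable_const.sub measurable_id
  have hafin : ∀ᵐ t ∂σ₂, a t univ ≠ ∞ := by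
    have := ha univ MeasurableSet.univ univ MeasurableSet.univ
    rw [Measure.restrict_univ] at this
    filter_upwards [ae_lt_top (ham _ MeasurableSet.univ) (this ▸ measure_ne_top _ _)] with t ht
      using ht.ne
  have hid : ∀ᵐ t ∂σ₂, a t = (g t).map fun u => -t - u := by
    refine ae_measure_eq σ₂ _ _ hafin fun A hA => ?_
    have hE : MeasurableSet {p : UnitAddCircle × UnitAddCircle | -p.1 - p.2 ∈ A} :=
      (measurable_fst.neg.sub measurable_snd) hA
    have e : ∀ t, ((g t).map fun u => -t - u) A =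
        g t (Prod.mk t ⁻¹' {p : UnitAddCircle × UnitAddCircle | -p.1 - p.2 ∈ A}) := fun t => by
      rw [Measure.map_apply (hrefl t) hA]; rfl
    simp only [e]
    refine ae_eq_of_forall_setLIntegral_eq_of_sigmaFinite (ham A hA) (hgm _ hE) fun C hC _ => ?_
    have hE' : MeasurableSet {p : UnitAddCircle × UnitAddCircle | p.1 ∈ C ∧ -p.1 - p.2 ∈ A} :=
      (measurable_fst hC).inter hE
    rw [← ha A hA C hC, ← lintegral_indicator hC]
    have := hg _ hE'
    rw [Measure.map_apply measurable_t23 hE'] at this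
    have e2 : t23 ⁻¹' {p : UnitAddCircle × UnitAddCircle | p.1 ∈ C ∧ -p.1 - p.2 ∈ A} = A ×ˢ C := by
      ext p
      simp only [t23, mem_preimage, mem_ofPred_eq, mem_prod]
      have : -p.2 - (-p.1 - p.2) = p.1 := by abel
      rw [this, and_comm]
    rw [e2] at this
    rw [this]
    refine lintegral_congr fun t => ?_
    by_cases ht : t ∈ C
    · rw [indicator_of_mem ht]
      congr 1
      ext u; simp [ht]
    · rw [indicator_of_notMem ht]
      have : Prod.mk t ⁻¹' {p : UnitAddCircle × UnitAddCircle | p.1 ∈ C ∧ -p.1 - p.2 ∈ A} = ∅ := by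
        ext u; simp [ht]
      rw [this, measure_empty]
  by_contra hne
  -- a level of mass
  have hc : ∃ c : ℝ, 0 < c ∧ σ₂ {t | c < (a t).real univ} ≠ 0 := by
    by_contra hno
    push Not at hno
    have h0 : ∀ᵐ t ∂σ₂, ∀ n : ℕ, ¬ (1 / ((n : ℝ) + 1) < (a t).real univ) := by
      rw [ae_all_iff]
      intro n
      exact measure_eq_zero_iff_ae_notMem.1 (hno _ (by positivity))
    have h1 : ∀ᵐ t ∂σ₂, a t univ = 0 := by
      filter_upwards [h0, hafin] with t ht hf
      by_contra h
      obtain ⟨n, hn⟩ := exists_nat_one_div_lt (ENNReal.toReal_pos h hf)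
      exact ht n hn
    have := ha univ MeasurableSet.univ univ MeasurableSet.univ
    rw [Measure.restrict_univ, lintegral_congr_ae h1, lintegral_zero, univ_prod_univ] at this
    exact hne (Measure.measure_univ_eq_zero.1 this)
  obtain ⟨c, hc0, hc⟩ := hc
  have hδ : 0 < c / 24 := by positivity
  obtain ⟨B1, hB1m, hB1c, hB1⟩ := cover σ₁ (k := fun t s => k (s, t))
    (hk.comp measurable_swap) hδ
  obtain ⟨B2, hB2m, hB2c, hB2⟩ := cover σ₃ (k := fun t u => l (t, u)) hl hδ
  have hau : ∀ t, a t univ = ∫⁻ s, k (s, t) ∂σ₁ := fun t => by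
    simp only [a]; rw [withDensity_apply _ MeasurableSet.univ, Measure.restrict_univ]
  have hgu : ∀ t, g t univ = ∫⁻ u, l (t, u) ∂σ₃ := fun t => by
    simp only [g]; rw [withDensity_apply _ MeasurableSet.univ, Measure.restrict_univ]
  obtain ⟨Z0, hZ0, hZ0m, hZ00⟩ := exists_measurable_superset_of_null (ae_iff.1 (hafin.and hid))
  have hgood : ∀ t, t ∉ Z0 → a t univ ≠ ∞ ∧ a t = (g t).map fun u => -t - u := fun t ht => by
    by_contra h; exact ht (hZ0 h)
  have hgfin : ∀ t, t ∉ Z0 → ∫⁻ u, l (t, u) ∂σ₃ ≠ ∞ := fun t ht => by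
    have := (hgood t ht).1
    rwa [(hgood t ht).2, Measure.map_apply (hrefl t) MeasurableSet.univ, preimage_univ, hgu] at this
  have hafin' : ∀ t, t ∉ Z0 → ∫⁻ s, k (s, t) ∂σ₁ ≠ ∞ := fun t ht => hau t ▸ (hgood t ht).1
  have hBex : ∃ n m : ℕ, σ₂ ({t | c < (a t).real univ} ∩ Z0ᶜ ∩ B1 n ∩ B2 m) ≠ 0 := by
    by_contra hno
    push Not at hno
    apply hc
    refine measure_mono_null (t := Z0 ∪ ⋃ n, ⋃ m, {t | c < (a t).real univ} ∩ Z0ᶜ ∩ B1 n ∩ B2 m)
      (fun t ht => ?_) (measure_union_null hZ00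
        (measure_iUnion_null fun n => measure_iUnion_null fun m => hno n m))
    by_cases h : t ∈ Z0
    · exact Or.inl h
    · obtain ⟨n, hn⟩ := hB1c t (hafin' t h)
      obtain ⟨m, hm⟩ := hB2c t (hgfin t h)
      exact Or.inr (mem_iUnion₂.2 ⟨n, m, ⟨⟨ht, h⟩, hn⟩, hm⟩)
  obtain ⟨n, m, hB⟩ := hBex
  set B := {t | c < (a t).real univ} ∩ Z0ᶜ ∩ B1 n ∩ B2 m with hBdef
  have hBm : MeasurableSet B :=
    (((measurableSet_lt measurable_const (ham _ MeasurableSet.univ).ennreal_toReal).inter
      hZ0m.compl).inter (hB1m n)).inter (hB2m m)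
  obtain ⟨t0, ht0⟩ := nonempty_of_measure_ne_zero hB
  have ca : ∀ t ∈ B, ∀ t' ∈ B, ∀ A, MeasurableSet A → (a t).real A ≤ (a t').real A + c / 24 :=
    fun t ht t' ht' => hB1 n t ht.1.2 t' ht'.1.2 (hafin' t ht.1.1.2) (hafin' t' ht'.1.1.2)
  have cg : ∀ t ∈ B, ∀ t' ∈ B, ∀ A, MeasurableSet A → (g t).real A ≤ (g t').real A + c / 24 :=
    fun t ht t' ht' => hB2 m t ht.2 t' ht'.2 (hgfin t ht.1.1.2) (hgfin t' ht'.1.1.2)
  have : IsFiniteMeasure (a t0) := ⟨(hgood t0 ht0.1.1.2).1.lt_top⟩
  have hV : ∀ t ∈ B, ∀ t' ∈ B, t' - t ∈ V (a t0) (c / 8) := by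
    intro t ht t' ht' A hA
    have hA' : MeasurableSet ((fun x => x + (t' - t)) ⁻¹' A) := measurable_add_const _ hA
    have h1 := ca t0 ht0 t' ht' _ hA'
    have h2 : (a t').real ((fun x => x + (t' - t)) ⁻¹' A) =
        (g t').real ((fun u => -t - u) ⁻¹' A) := by
      rw [(hgood t' ht'.1.1.2).2, Measure.real, Measure.map_apply (hrefl t') hA']
      congr 2
      ext u
      simp only [mem_preimage]
      have : -t' - u + (t' - t) = -t - u := by abel
      rw [this]
    have h3 := cg t' ht' t ht _ (hrefl t hA)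
    have h4 : (g t).real ((fun u => -t - u) ⁻¹' A) = (a t).real A := by
      rw [(hgood t ht.1.1.2).2, Measure.real, Measure.real, Measure.map_apply (hrefl t) hA]
    have h5 := ca t ht t0 ht0 A hA
    linarith
  have hac : a t0 ≪ σ₁ := withDensity_absolutelyContinuous _ _
  have : NullSingletonClass (a t0) := ⟨fun x => hac (measure_singleton x)⟩
  refine not_singular (α := a t0) (ε := c / 8) (by positivity) (by have := ht0.1.1.1; simp at this; linarith)
    ?_ (hs.mono_ac hac Measure.AbsolutelyContinuous.rfl)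
  set Z := {s | a t0 ((fun x => x - s) ⁻¹' V (a t0) (c / 8)) = 0} with hZ
  have hVm : MeasurableSet (V (a t0) (c / 8)) := (isClosed_V _).measurableSet
  have hZm : MeasurableSet Z := measurable_shift hVm (measurableSet_singleton 0)
  set S := {s | k (s, t0) ≠ 0} with hS
  have hSm : MeasurableSet S := (hkt t0 (measurableSet_singleton 0)).compl
  have hF : MeasurableSet {p : UnitAddCircle × UnitAddCircle | p.1 ∈ Z ∩ S ∧ -p.1 - p.2 ∈ B} :=
    (measurable_fst (hZm.inter hSm)).inter ((measurable_fst.neg.sub measurable_snd) hBm)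
  have hF0 : (σ₁.prod σ₃) {p : UnitAddCircle × UnitAddCircle | p.1 ∈ Z ∩ S ∧ -p.1 - p.2 ∈ B} = 0 := by
    rw [Measure.prod_apply_symm hF]
    refine (lintegral_congr fun u => ?_).trans lintegral_zero
    rcases eq_empty_or_nonempty ((fun x => (x, u)) ⁻¹'
      {p : UnitAddCircle × UnitAddCircle | p.1 ∈ Z ∩ S ∧ -p.1 - p.2 ∈ B}) with h | ⟨s0, hs0⟩
    · rw [h, measure_empty]
    · have h1 : a t0 ((fun x => x - s0) ⁻¹' V (a t0) (c / 8)) = 0 := hs0.1.1
      rw [withDensity_apply_eq_zero (hkt t0)] at h1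
      refine measure_mono_null (fun s hs => ?_) h1
      refine ⟨hs.1.2, ?_⟩
      have := hV _ hs.2 _ hs0.2
      simp only [mem_preimage]
      convert this using 1
      simp only []
      abel
  have hρ0 : ρ ((Z ∩ S) ×ˢ B) = 0 := by
    have := h13 hF0
    rw [Measure.map_apply measurable_t13 hF] at this
    convert this using 2
    ext p
    simp only [t13, mem_preimage, mem_ofPred_eq, mem_prod]
    have : -p.1 - (-p.1 - p.2) = p.2 := by abel
    rw [this]
  rw [ha _ (hZm.inter hSm) _ hBm, lintegral_eq_zero_iff (ham _ (hZm.inter hSm))] at hρ0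
  obtain ⟨t, ht, ht'⟩ := Measure.exists_mem_of_measure_ne_zero_of_ae hB hρ0
  have h1 := ca t0 ht0 t ht _ (hZm.inter hSm)
  have h2 : (a t).real (Z ∩ S) = 0 := by
    have : a t (Z ∩ S) = 0 := ht'
    rw [Measure.real, this]; rfl
  have h3 : (a t0).real (Z \ S) = 0 := by
    have : a t0 (Z \ S) = 0 := by
      rw [withDensity_apply_eq_zero (hkt t0)]
      have : {x | k (x, t0) ≠ 0} ∩ (Z \ S) = ∅ := by
        ext x; simp only [mem_inter_iff, Set.mem_sdiff, mem_empty_iff_false, iff_false, not_and]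
        intro h _ h'; exact h' h
      rw [this, measure_empty]
    rw [Measure.real, this]; rfl
  have h4 := measureReal_inter_add_sdiff (μ := a t0) (s := Z) hSm
  linarith

end Pool.Agent.Lib.MP_9721b5_an.Sing
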