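import Pool.Agent.Lib.MP_9721b5_an.Sing.Host

/-!
Consequence of the lemma of Host: under a non resonance condition on the absolutely continuous
parts, the measure on the plane lives over the atoms of the first measure.
-/

set_option autoImplicit false

open MeasureTheory Set Filter Topology
open scoped ENNReal

namespace Pool.Agent.Lib.MP_9721b5_an.Sing

/-- the three pair projections are absolutely continuous -/
structure Tri (σ₁ σ₂ σ₃ : Measure UnitAddCircle) (ρ : Measure (UnitAddCircle × UnitAddCircle)) :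
    Prop where
  h12 : ρ ≪ σ₁.prod σ₂
  h13 : ρ.map t13 ≪ σ₁.prod σ₃
  h23 : ρ.map t23 ≪ σ₂.prod σ₃

variable {σ₁ σ₂ σ₃ : Measure UnitAddCircle} [IsFiniteMeasure σ₁] [IsFiniteMeasure σ₂]
  [IsFiniteMeasure σ₃] {ρ : Measure (UnitAddCircle × UnitAddCircle)}

lemma ac_swap {a b : Measure UnitAddCircle} [IsFiniteMeasure a] [IsFiniteMeasure b]
    {ν : Measure (UnitAddCircle × UnitAddCircle)} (h : ν ≪ a.prod b) :
    ν.map Prod.swap ≪ b.prod a := by
  rw [← Measure.prod_swap]
  exact h.map measurable_swap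

omit [IsFiniteMeasure σ₃] in
lemma Tri.swap (h : Tri σ₁ σ₂ σ₃ ρ) : Tri σ₂ σ₁ σ₃ (ρ.map Prod.swap) := by
  refine ⟨ac_swap h.h12, ?_, ?_⟩
  · rw [Measure.map_map measurable_t13 measurable_swap]
    convert h.h23 using 2
    funext p; simp only [t13, t23, Function.comp, Prod.fst_swap, Prod.snd_swap]
    congr 1; abel
  · rw [Measure.map_map measurable_t23 measurable_swap]
    convert h.h13 using 2
    funext p; simp only [t13, t23, Function.comp, Prod.fst_swap, Prod.snd_swap]
    congr 1; abel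

omit [IsFiniteMeasure σ₁] in
lemma Tri.rot (h : Tri σ₁ σ₂ σ₃ ρ) : Tri σ₁ σ₃ σ₂ (ρ.map t13) := by
  refine ⟨h.h13, ?_, ?_⟩
  · rw [Measure.map_map measurable_t13 measurable_t13]
    have : t13 ∘ t13 = id := by
      funext p; simp only [t13, Function.comp, id]
      ext
      · rfl
      · simp
    rw [this, Measure.map_id]
    exact h.h12
  · rw [Measure.map_map measurable_t23 measurable_t13]
    have := ac_swap h.h23
    rw [Measure.map_map measurable_swap measurable_t23] at this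
    convert this using 2
    funext p; simp only [t13, t23, Function.comp, Prod.swap]
    congr 1; abel

lemma ac_restrict {a b : Measure UnitAddCircle} [IsFiniteMeasure a] [IsFiniteMeasure b]
    {ν : Measure (UnitAddCircle × UnitAddCircle)} (h : ν ≪ a.prod b) {A : Set UnitAddCircle} :
    ν.restrict (A ×ˢ univ) ≪ (a.restrict A).prod b := by
  rw [Measure.restrict_prod_eq_prod_univ]
  exact h.restrict _

lemma Tri.restrict (h : Tri σ₁ σ₂ σ₃ ρ) {A : Set UnitAddCircle} (hA : MeasurableSet A) :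
    Tri (σ₁.restrict A) σ₂ σ₃ (ρ.restrict (A ×ˢ univ)) := by
  refine ⟨ac_restrict h.h12, ?_, ?_⟩
  · have := ac_restrict h.h13 (A := A)
    rw [Measure.restrict_map measurable_t13 (hA.prod MeasurableSet.univ)] at this
    convert this using 3
    ext p; simp [t13]
  · exact ((Measure.absolutelyContinuous_of_le Measure.restrict_le_self).map measurable_t23).trans
      h.h23

lemma countable_atoms (σ : Measure UnitAddCircle) [IsFiniteMeasure σ] :
    {s | σ {s} ≠ 0}.Countable := by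
  have := Measure.countable_meas_level_set_pos (μ := σ) (g := id) measurable_id
  refine this.mono fun s hs => ?_
  exact pos_iff_ne_zero.2 hs

lemma measurableSet_nonatom (σ : Measure UnitAddCircle) [IsFiniteMeasure σ] :
    MeasurableSet {s | σ {s} = 0} := by
  have := (countable_atoms σ).measurableSet.compl
  convert this using 1
  ext s; simp

lemma nullSingleton_restrict (σ : Measure UnitAddCircle) {A : Set UnitAddCircle}
    (h : ∀ s ∈ A, σ {s} = 0) : NullSingletonClass (σ.restrict A) := ⟨fun s => by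
  rw [Measure.restrict_apply (measurableSet_singleton s)]
  by_cases hs : s ∈ A
  · exact measure_mono_null inter_subset_left (h s hs)
  · rw [singleton_inter_eq_empty.2 hs, measure_empty]⟩

lemma Tri.one [IsFiniteMeasure ρ] (h : Tri σ₁ σ₂ σ₃ ρ) {S : Set UnitAddCircle}
    (_hS : MeasurableSet S) (hs : σ₁.restrict Sᶜ ⟂ₘ volume) :
    ∃ N, MeasurableSet N ∧ σ₁.restrict Nᶜ ≪ volume ∧
      ∀ᵐ p ∂ρ, σ₁ {p.1} = 0 → p.1 ∈ S ∧ p.1 ∉ N := by
  obtain ⟨M, hM, hM1, hM2⟩ := hs.symm
  obtain ⟨N, hN, hN1, hN2⟩ := (Measure.mutuallySingular_singularPart σ₁ volume).symm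
  have hA : MeasurableSet ((N ∪ M) ∩ {s | σ₁ {s} = 0}) :=
    (hN.union hM).inter (measurableSet_nonatom σ₁)
  have := nullSingleton_restrict σ₁ (A := (N ∪ M) ∩ {s | σ₁ {s} = 0}) fun s hs => hs.2
  have hr := h.restrict hA
  have h0 := host_zero _ _ _ ⟨(N ∪ M)ᶜ, (hN.union hM).compl, by
      rw [Measure.restrict_apply (hN.union hM).compl, ← inter_assoc, compl_inter_self, empty_inter,
        measure_empty], by
      rw [compl_compl]; exact measure_union_null hN1 hM1⟩ _ hr.h12 hr.h13 hr.h23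
  rw [Measure.restrict_eq_zero] at h0
  have h1 : ρ ((Mᶜ ∩ Sᶜ) ×ˢ univ) = 0 := by
    apply h.h12
    rw [Measure.restrict_apply hM.compl] at hM2
    rw [Measure.prod_prod, hM2, zero_mul]
  refine ⟨N, hN, ?_, ?_⟩
  · refine Measure.AbsolutelyContinuous.mk fun B hB hB0 => ?_
    rw [Measure.restrict_apply hB, Measure.haveLebesgueDecomposition_add σ₁ volume,
      Measure.add_apply, measure_mono_null inter_subset_right hN2, zero_add]
    exact withDensity_absolutelyContinuous _ _ (measure_mono_null inter_subset_left hB0)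
  · filter_upwards [measure_eq_zero_iff_ae_notMem.1 h0, measure_eq_zero_iff_ae_notMem.1 h1]
      with p hp hp' hat
    simp only [mem_prod, mem_inter_iff, mem_union, mem_ofPred_eq, mem_univ, and_true,
      mem_compl_iff, hat, not_or, not_and, not_not] at hp hp'
    exact ⟨hp' hp.2, hp.1⟩

lemma line_null {a b : Measure UnitAddCircle} [IsFiniteMeasure a] [IsFiniteMeasure b]
    [NullSingletonClass a] {ν : Measure (UnitAddCircle × UnitAddCircle)} (h : ν ≪ a.prod b)
    (c : Measure UnitAddCircle) [IsFiniteMeasure c] : ∀ᵐ p ∂ν, c {-p.1 - p.2} = 0 := by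
  have : ∀ᵐ p ∂ν, ∀ x ∈ {s | c {s} ≠ 0}, -p.1 - p.2 ≠ x := by
    rw [ae_ball_iff (countable_atoms c)]
    intro x _
    have hE : MeasurableSet {p : UnitAddCircle × UnitAddCircle | -p.1 - p.2 = x} :=
      (measurable_fst.neg.sub measurable_snd) (measurableSet_singleton x)
    refine measure_eq_zero_iff_ae_notMem.1 (h (s := {p | -p.1 - p.2 = x}) ?_)
    rw [Measure.prod_apply_symm hE]
    refine (lintegral_congr fun t => ?_).trans lintegral_zero
    refine measure_mono_null (t := {-x - t}) (fun s hs => ?_) (measure_singleton _)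
    have hs' : -s - t = x := hs
    rw [mem_singleton_iff, ← hs']; abel
  filter_upwards [this] with p hp
  by_contra hne
  exact hp _ hne rfl

theorem Tri.nonres [IsFiniteMeasure ρ] (h : Tri σ₁ σ₂ σ₃ ρ) {S₁ S₂ S₃ : Set UnitAddCircle}
    (hS₁ : MeasurableSet S₁) (hS₂ : MeasurableSet S₂) (hS₃ : MeasurableSet S₃)
    (hs₁ : σ₁.restrict S₁ᶜ ⟂ₘ volume) (hs₂ : σ₂.restrict S₂ᶜ ⟂ₘ volume)
    (hs₃ : σ₃.restrict S₃ᶜ ⟂ₘ volume)
    (hn : ((volume : Measure UnitAddCircle).prod (volume : Measure UnitAddCircle))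
      {p | p.1 ∈ S₁ ∧ p.2 ∈ S₂ ∧ -p.1 - p.2 ∈ S₃} = 0) :
    ∀ᵐ p ∂ρ, σ₁ {p.1} ≠ 0 := by
  obtain ⟨N₁, hN₁, hac₁, e₁⟩ := h.one hS₁ hs₁
  obtain ⟨N₂, hN₂, hac₂, e₂⟩ := h.swap.one hS₂ hs₂
  obtain ⟨N₃, -, -, e₃⟩ := h.rot.swap.one hS₃ hs₃
  have e₂' := ae_of_ae_map measurable_swap.aemeasurable e₂
  have e₃' := ae_of_ae_map measurable_t13.aemeasurable
    (ae_of_ae_map measurable_swap.aemeasurable e₃)
  have hA := measurableSet_nonatom σ₁
  have := nullSingleton_restrict σ₁ (A := {s | σ₁ {s} = 0}) fun s hs => hs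
  have hr := h.restrict hA
  have l₃ := (ae_restrict_iff' (hA.prod MeasurableSet.univ)).1 (line_null hr.h12 σ₃)
  have l₂ := (ae_restrict_iff' (hA.prod MeasurableSet.univ)).1
    (ae_of_ae_map measurable_t13.aemeasurable (line_null hr.h13 σ₂))
  have hE : MeasurableSet
      {p : UnitAddCircle × UnitAddCircle | p.1 ∈ S₁ ∧ p.2 ∈ S₂ ∧ -p.1 - p.2 ∈ S₃} :=
    (measurable_fst hS₁).inter ((measurable_snd hS₂).inter
      ((measurable_fst.neg.sub measurable_snd) hS₃))
  have hE0 : ρ ({p | p.1 ∈ S₁ ∧ p.2 ∈ S₂ ∧ -p.1 - p.2 ∈ S₃} ∩ N₁ᶜ ×ˢ N₂ᶜ) = 0 := by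
    apply h.h12
    rw [← Measure.restrict_apply hE, ← Measure.prod_restrict]
    exact (hac₁.prod hac₂) hn
  filter_upwards [e₁, e₂', e₃', l₂, l₃, measure_eq_zero_iff_ae_notMem.1 hE0]
    with p p₁ p₂ p₃ q₂ q₃ hp hat
  have q₂' := q₂ ⟨hat, mem_univ _⟩
  have q₃' := q₃ ⟨hat, mem_univ _⟩
  simp only [t13] at q₂'
  have e : -p.1 - (-p.1 - p.2) = p.2 := by abel
  rw [e] at q₂'
  exact hp ⟨⟨(p₁ hat).1, (p₂ q₂').1, (p₃ q₃').1⟩, (p₁ hat).2, (p₂ q₂').2⟩

end Pool.Agent.Lib.MP_9721b5_an.Sing
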