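import Pool.Agent.Lib.MP_9721b5_an.Sing.General

/-!
Closure lemmas, almost orthogonal sequences, bounded conditional expectations and the reverse
martingale theorem in mean.
-/

set_option autoImplicit false

open MeasureTheory Filter Topology Finset ComplexConjugate
open scoped ENNReal
open Pool.Agent.Shared.Ergodic

namespace Pool.Agent.Lib.MP_9721b5_an.Sing

section

variable {X : Type*} [mX : MeasurableSpace X] {μ : Measure X} [IsProbabilityMeasure μ]

lemma conv_of_upper (F : ℕ → X → ℂ)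
    (h : ∀ ε > 0, ∃ (G : ℕ → X → ℂ) (E : X → ℝ), Conv μ G ∧ Integrable E μ ∧ (∀ x, 0 ≤ E x) ∧
      ∫ x, E x ∂μ ≤ ε ∧ ∀ x, ∀ δ > 0, ∀ᶠ N in atTop,
        ‖av (fun n => F n x) N - av (fun n => G n x) N‖ ≤ E x + δ) : Conv μ F := by
  choose G E hG hE h0 hint hle using fun m : ℕ => h (1 / ((m : ℝ) + 1)) (by positivity)
  have hsmall : ∀ r : ℕ, ∀ᵐ x ∂μ, ∃ m, E m x < 1 / ((r : ℝ) + 1) := by
    intro r
    have hr : (0 : ℝ) < 1 / ((r : ℝ) + 1) := by positivity
    rw [ae_iff]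
    have hle' : ∀ m : ℕ, 1 / ((r : ℝ) + 1) *
        μ.real {x | ¬∃ m, E m x < 1 / ((r : ℝ) + 1)} ≤ 1 / ((m : ℝ) + 1) := by
      intro m
      have h1 := mul_meas_ge_le_integral_of_nonneg (μ := μ) (f := E m)
        (Eventually.of_forall (h0 m)) (hE m) (1 / ((r : ℝ) + 1))
      refine le_trans (mul_le_mul_of_nonneg_left (measureReal_mono ?_) hr.le) (h1.trans (hint m))
      intro x hx
      simp only [not_exists, not_lt, Set.mem_ofPred_eq] at hx
      exact hx m
    have h3 : 1 / ((r : ℝ) + 1) * μ.real {x | ¬∃ m, E m x < 1 / ((r : ℝ) + 1)} ≤ 0 :=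
      ge_of_tendsto' tendsto_one_div_add_atTop_nhds_zero_nat hle'
    have h4 : μ.real {x | ¬∃ m, E m x < 1 / ((r : ℝ) + 1)} = 0 :=
      le_antisymm (le_of_not_gt fun h5 => absurd (mul_pos hr h5) (not_lt.2 h3)) measureReal_nonneg
    exact (measureReal_eq_zero_iff (measure_ne_top _ _)).1 h4
  filter_upwards [ae_all_iff.2 hsmall, ae_all_iff.2 hG] with x hx1 hx2
  apply cauchySeq_tendsto_of_complete
  rw [Metric.cauchySeq_iff']
  intro ε hε
  obtain ⟨r, hr⟩ := exists_nat_one_div_lt (show 0 < ε / 8 by positivity)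
  obtain ⟨m, hm⟩ := hx1 r
  obtain ⟨L, hL⟩ := hx2 m
  have e2 := (Metric.tendsto_nhds.1 hL) (ε / 4) (by positivity)
  obtain ⟨N₀, hN₀⟩ := eventually_atTop.1 ((hle m x (ε / 8) (by positivity)).and e2)
  have key : ∀ N ≥ N₀, dist (av (fun n => F n x) N) L < ε / 2 := by
    intro N hN
    obtain ⟨a, b⟩ := hN₀ N hN
    rw [← dist_eq_norm] at a
    have b' : dist (av (fun n => G m n x) N) L < ε / 4 := b
    linarith [dist_triangle (av (fun n => F n x) N) (av (fun n => G m n x) N) L]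
  refine ⟨N₀, fun N hN => ?_⟩
  have a := key N hN
  have b := key N₀ le_rfl
  have := dist_triangle_right (av (fun n => F n x) N) (av (fun n => F n x) N₀) L
  exact lt_of_le_of_lt this (by linarith)

lemma conv3_approx {T : X → X} (hT : MeasurePreserving T μ μ) {f₁ f₂ f₃ : X → ℂ}
    (m₁ : Measurable f₁) (m₂ : Measurable f₂) (m₃ : Measurable f₃)
    (b₁ : ∀ x, ‖f₁ x‖ ≤ 1) (b₂ : ∀ x, ‖f₂ x‖ ≤ 1) (b₃ : ∀ x, ‖f₃ x‖ ≤ 1)
    (h : ∀ ε > 0, ∃ g₁ g₂ g₃ : X → ℂ, Measurable g₁ ∧ Measurable g₂ ∧ Measurable g₃ ∧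
      (∀ x, ‖g₁ x‖ ≤ 1) ∧ (∀ x, ‖g₂ x‖ ≤ 1) ∧ (∀ x, ‖g₃ x‖ ≤ 1) ∧ ∫ x, ‖f₁ x - g₁ x‖ ∂μ ≤ ε ∧
      ∫ x, ‖f₂ x - g₂ x‖ ∂μ ≤ ε ∧ ∫ x, ‖f₃ x - g₃ x‖ ∂μ ≤ ε ∧
      Conv μ fun n x => g₁ (T^[n] x) * g₂ (T^[2 * n] x) * g₃ (T^[3 * n] x)) :
    Conv μ fun n x => f₁ (T^[n] x) * f₂ (T^[2 * n] x) * f₃ (T^[3 * n] x) := by
  refine conv_of_upper _ fun ε hε => ?_
  obtain ⟨g₁, g₂, g₃, n₁, n₂, n₃, c₁, c₂, c₃, i₁, i₂, i₃, hc⟩ := h (ε / 3) (by positivity)
  have aux : ∀ {S : X → X} {f g : X → ℂ}, MeasurePreserving S μ μ → Measurable f → Measurable g →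
      (∀ x, ‖f x‖ ≤ 1) → (∀ x, ‖g x‖ ≤ 1) → ∫ x, ‖f x - g x‖ ∂μ ≤ ε / 3 →
      Integrable (upper S fun x => ‖f x - g x‖) μ ∧ (∀ x, 0 ≤ upper S (fun x => ‖f x - g x‖) x) ∧
      ∫ x, upper S (fun x => ‖f x - g x‖) x ∂μ ≤ ε / 3 ∧ ∀ x, ∀ δ > 0, ∀ᶠ N in atTop,
        avg S (fun x => ‖f x - g x‖) x N ≤ upper S (fun x => ‖f x - g x‖) x + δ := by
    intro S f g hS hf hg bf bg hi
    have hb : ∀ x, |‖f x - g x‖| ≤ 2 := fun x => by
      rw [abs_norm]; exact (norm_sub_le _ _).trans (by linarith [bf x, bg x])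
    refine ⟨integrable_of_bdd (measurable_upper hS.measurable (hf.sub hg).norm) 2
      (abs_upper_le S 2 hb), fun x => le_limsup_of_frequently_le (Frequently.of_forall fun N =>
        mul_nonneg (by positivity) (sum_nonneg fun n _ => norm_nonneg _)) (bddAbove_avg S 2 hb x),
      (integral_upper_le hS (hf.sub hg).norm 2 hb).trans hi, fun x δ hδ => ?_⟩
    exact (eventually_lt_of_limsup_lt (lt_add_of_pos_right _ hδ) (bddAbove_avg S 2 hb x)).mono
      fun N h => h.le
  obtain ⟨p₁, q₁, r₁, s₁⟩ := aux hT m₁ n₁ b₁ c₁ i₁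
  obtain ⟨p₂, q₂, r₂, s₂⟩ := aux (hT.iterate 2) m₂ n₂ b₂ c₂ i₂
  obtain ⟨p₃, q₃, r₃, s₃⟩ := aux (hT.iterate 3) m₃ n₃ b₃ c₃ i₃
  refine ⟨_, fun x => upper T (fun x => ‖f₁ x - g₁ x‖) x + upper T^[2] (fun x => ‖f₂ x - g₂ x‖) x +
    upper T^[3] (fun x => ‖f₃ x - g₃ x‖) x, hc, (p₁.add p₂).add p₃,
    fun x => add_nonneg (add_nonneg (q₁ x) (q₂ x)) (q₃ x), ?_, fun x δ hδ => ?_⟩
  · have e1 := integral_add (p₁.add p₂) p₃
    have e2 := integral_add p₁ p₂
    simp only [Pi.add_apply] at e1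
    simp only
    rw [e1, e2]; linarith
  · filter_upwards [s₁ x (δ / 3) (by positivity), s₂ x (δ / 3) (by positivity),
      s₃ x (δ / 3) (by positivity)] with N t₁ t₂ t₃
    refine le_trans ?_ (show avg T (fun x => ‖f₁ x - g₁ x‖) x N +
      avg T^[2] (fun x => ‖f₂ x - g₂ x‖) x N + avg T^[3] (fun x => ‖f₃ x - g₃ x‖) x N ≤ _ by
        linarith)
    simp only [av, avg, ← mul_add, ← mul_sub, ← sum_add_distrib, ← sum_sub_distrib,
      ← Function.iterate_mul]
    rw [norm_mul, norm_inv, Complex.norm_natCast]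
    refine mul_le_mul_of_nonneg_left ((norm_sum_le _ _).trans (sum_le_sum fun n _ => ?_))
      (by positivity)
    have key : ∀ a b c a' b' c' : ℂ, ‖b‖ ≤ 1 → ‖c‖ ≤ 1 → ‖a'‖ ≤ 1 → ‖b'‖ ≤ 1 →
        ‖a * b * c - a' * b' * c'‖ ≤ ‖a - a'‖ + ‖b - b'‖ + ‖c - c'‖ := by
      intro a b c a' b' c' hb hc ha' hb'
      have e : a * b * c - a' * b' * c' =
          (a - a') * (b * c) + (b - b') * (a' * c) + (c - c') * (a' * b') := by ring
      have k : ∀ {u v w : ℂ}, ‖v‖ ≤ 1 → ‖w‖ ≤ 1 → ‖u * (v * w)‖ ≤ ‖u‖ := fun hv hw => by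
        rw [norm_mul, norm_mul]
        exact mul_le_of_le_one_right (norm_nonneg _) (mul_le_one₀ hv (norm_nonneg _) hw)
      rw [e]
      exact norm_add₃_le.trans (add_le_add (add_le_add (k hb hc) (k ha' hc)) (k ha' hb'))
    exact key _ _ _ _ _ _ (b₂ _) (b₃ _) (c₁ _) (c₂ _)

lemma tendsto_av_of_sq {a : ℕ → ℂ} {C : ℝ} (hb : ∀ n, ‖a n‖ ≤ C)
    (h : Tendsto (fun j => av a (j ^ 2)) atTop (𝓝 0)) : Tendsto (av a) atTop (𝓝 0) := by
  have hC : 0 ≤ C := (norm_nonneg _).trans (hb 0)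
  have hs : Tendsto Nat.sqrt atTop atTop :=
    tendsto_atTop_atTop.2 fun b => ⟨b * b, fun a ha => Nat.le_sqrt.2 ha⟩
  have h1 := ((h.norm.add (tendsto_inv_atTop_nhds_zero_nat.const_mul (2 * C))).comp hs)
  rw [norm_zero, mul_zero, add_zero] at h1
  refine squeeze_zero_norm' ?_ h1
  filter_upwards [eventually_gt_atTop 0] with N hN
  set j := Nat.sqrt N with hj
  have hj0 : 0 < j := Nat.sqrt_pos.2 hN
  have h2 : j ^ 2 ≤ N := Nat.sqrt_le' N
  have h3 : N < (j + 1) ^ 2 := Nat.lt_succ_sqrt' N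
  have hj' : (0 : ℝ) < j := by exact_mod_cast hj0
  have h2' : (j : ℝ) ^ 2 ≤ N := by exact_mod_cast h2
  have h4 : ‖∑ n ∈ range N, a n‖ ≤ ‖∑ n ∈ range (j ^ 2), a n‖ + 2 * j * C := by
    rw [← sum_range_add_sum_Ico _ h2]
    refine (norm_add_le _ _).trans (add_le_add_right ?_ _)
    refine (norm_sum_le _ _).trans ((sum_le_sum fun n _ => hb n).trans ?_)
    rw [sum_const, Nat.card_Ico, nsmul_eq_mul]
    refine mul_le_mul_of_nonneg_right ?_ hC
    have : N - j ^ 2 ≤ 2 * j := by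
      have : (j + 1) ^ 2 = j ^ 2 + 2 * j + 1 := by ring
      omega
    exact_mod_cast this
  simp only [Function.comp_apply, ← hj, av, norm_mul, norm_inv, Complex.norm_natCast]
  push_cast
  calc (N : ℝ)⁻¹ * ‖∑ n ∈ range N, a n‖
      ≤ ((j : ℝ) ^ 2)⁻¹ * (‖∑ n ∈ range (j ^ 2), a n‖ + 2 * j * C) := by gcongr
    _ = _ := by field_simp

lemma conv_of_orth {u : ℕ → X → ℂ} {C : ℝ} (hu : Bd u C) (L : ℕ)
    (h : ∀ n m, L ≤ n → n + L ≤ m → ∫ x, u n x * conj (u m x) ∂μ = 0) : Conv μ u := by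
  have mc : ∀ n m, Measurable fun x => u n x * conj (u m x) := fun n m =>
    (hu.meas n).mul (Complex.continuous_conj.measurable.comp (hu.meas m))
  have bc : ∀ n m x, ‖u n x * conj (u m x)‖ ≤ C ^ 2 := fun n m x => by
    rw [norm_mul, Complex.norm_conj, sq]
    exact mul_le_mul (hu.le _ _) (hu.le _ _) (norm_nonneg _) ((norm_nonneg _).trans (hu.le 0 x))
  have bi : ∀ n m, ‖∫ x, u n x * conj (u m x) ∂μ‖ ≤ C ^ 2 := fun n m => by
    simpa using norm_integral_le_of_norm_le_const (μ := μ) (Eventually.of_forall (bc n m))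
  have row : ∀ N n, ∑ m ∈ range N, ‖∫ x, u n x * conj (u m x) ∂μ‖ ≤
      C ^ 2 * (3 * L + if n < L then (N : ℝ) else 0) := by
    intro N n
    split_ifs with hn
    · refine (sum_le_sum fun m _ => bi n m).trans ?_
      rw [sum_const, card_range, nsmul_eq_mul, mul_comm]
      gcongr; linarith [Nat.cast_nonneg (α := ℝ) L]
    · rw [← sum_filter_ne_zero]
      have hsub : filter (fun m => ‖∫ x, u n x * conj (u m x) ∂μ‖ ≠ 0) (range N) ⊆
          range L ∪ Ioo (n - L) (n + L) := by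
        intro m hm
        have hm' := norm_ne_zero_iff.1 (mem_filter.1 hm).2
        rw [mem_union, mem_range, mem_Ioo]
        by_contra hne
        apply hm'
        by_cases h1 : n + L ≤ m
        · exact h n m (by omega) h1
        · have := congrArg conj (h m n (by omega) (by omega))
          rw [← integral_conj, map_zero] at this
          simpa only [map_mul, Complex.conj_conj, mul_comm] using this
      refine (sum_le_sum fun m _ => bi n m).trans ?_
      rw [sum_const, nsmul_eq_mul, mul_comm, add_zero]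
      gcongr
      have := (card_le_card hsub).trans (card_union_le _ _)
      rw [card_range, Nat.card_Ioo] at this
      have h2 : (filter (fun m => ‖∫ x, u n x * conj (u m x) ∂μ‖ ≠ 0) (range N)).card ≤ 3 * L := by
        omega
      exact_mod_cast h2
  have tot : ∀ N : ℕ, ∫ x, ‖av (fun n => u n x) N‖ ^ 2 ∂μ ≤ 4 * L * C ^ 2 * (N : ℝ)⁻¹ := by
    intro N
    rcases Nat.eq_zero_or_pos N with rfl | hN
    · simp [av]
    have hN' : (0 : ℝ) < N := by exact_mod_cast hN
    simp only [av, norm_mul, norm_inv, Complex.norm_natCast, mul_pow]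
    rw [integral_const_mul]
    have e : ((∫ x, ‖∑ n ∈ range N, u n x‖ ^ 2 ∂μ : ℝ) : ℂ) =
        ∑ n ∈ range N, ∑ m ∈ range N, ∫ x, u n x * conj (u m x) ∂μ := by
      rw [← integral_complex_ofReal]
      simp only [ofReal_norm_sq_sum]
      rw [integral_finsetSum _ fun j _ => integrable_bdd (mc _ _) (bc _ _), sum_product]
    have h1 : ∫ x, ‖∑ n ∈ range N, u n x‖ ^ 2 ∂μ ≤ C ^ 2 * (4 * L * N) := by
      refine (le_abs_self _).trans ?_
      rw [← Real.norm_eq_abs, ← Complex.norm_real, e]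
      refine (norm_sum_le _ _).trans ((sum_le_sum fun n _ =>
        (norm_sum_le _ _).trans (row N n)).trans ?_)
      rw [← mul_sum, sum_add_distrib, sum_const, card_range, nsmul_eq_mul, ← sum_filter, sum_const,
        nsmul_eq_mul]
      gcongr
      have : (filter (fun n => n < L) (range N)).card ≤ L :=
        (card_le_card fun n hn => mem_range.2 (mem_filter.1 hn).2).trans_eq (card_range L)
      have : ((filter (fun n => n < L) (range N)).card : ℝ) ≤ L := by exact_mod_cast this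
      nlinarith
    calc (N : ℝ)⁻¹ ^ 2 * ∫ x, ‖∑ n ∈ range N, u n x‖ ^ 2 ∂μ
        ≤ (N : ℝ)⁻¹ ^ 2 * (C ^ 2 * (4 * L * N)) := by gcongr
      _ = _ := by field_simp
  have mav : ∀ j : ℕ, Measurable fun x => ‖av (fun n => u n x) (j ^ 2)‖ ^ 2 := fun j =>
    (measurable_av hu.meas _).norm.pow_const 2
  have iav : ∀ j : ℕ, Integrable (fun x => ‖av (fun n => u n x) (j ^ 2)‖ ^ 2) μ := fun j =>
    Integrable.of_bound (mav j).aestronglyMeasurable (C ^ 2) (Eventually.of_forall fun x => by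
      rw [Real.norm_eq_abs, abs_of_nonneg (by positivity)]
      exact pow_le_pow_left₀ (norm_nonneg _) (norm_av_le (fun n => hu.le n x) _) 2)
  have hsum : ∫⁻ x, ∑' j : ℕ, ENNReal.ofReal (‖av (fun n => u n x) (j ^ 2)‖ ^ 2) ∂μ ≠ ∞ := by
    rw [lintegral_tsum fun j => (mav j).ennreal_ofReal.aemeasurable]
    have hs : Summable fun j : ℕ => 4 * L * C ^ 2 * (((j ^ 2 : ℕ) : ℝ))⁻¹ := by
      simpa using (Real.summable_nat_pow_inv.2 one_lt_two).mul_left (4 * L * C ^ 2)
    refine ne_top_of_le_ne_top (hs.tsum_ofReal_ne_top) (ENNReal.tsum_le_tsum fun j => ?_)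
    rw [← ofReal_integral_eq_lintegral_ofReal (iav j)
      (Eventually.of_forall fun x => by positivity)]
    exact ENNReal.ofReal_le_ofReal (tot _)
  filter_upwards [ae_lt_top (Measurable.ennreal_tsum fun j => (mav j).ennreal_ofReal) hsum]
    with x hx
  refine ⟨0, tendsto_av_of_sq (fun n => hu.le n x) ?_⟩
  have h1 := (ENNReal.tendsto_toReal ENNReal.zero_ne_top).comp
    (ENNReal.tendsto_atTop_zero_of_tsum_ne_top hx.ne)
  simp only [Function.comp_def, ENNReal.toReal_ofReal (sq_nonneg _), ENNReal.toReal_zero] at h1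
  have h2 := h1.sqrt
  simp only [Real.sqrt_sq (norm_nonneg _), Real.sqrt_zero] at h2
  exact tendsto_zero_iff_norm_tendsto_zero.2 h2

end

/-- bounded version of the conditional expectation -/
noncomputable def ce {X : Type*} {mX : MeasurableSpace X} (μ : Measure X) (m : MeasurableSpace X)
    (f : X → ℂ) : X → ℂ :=
  fun x => clip ((μ[f | m]) x)

/-- orthogonality to a sigma algebra -/
def Orth {X : Type*} {mX : MeasurableSpace X} (μ : Measure X) (h : X → ℂ)
    (m : MeasurableSpace X) : Prop :=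
  ∀ (ψ : X → ℂ) (C : ℝ), Measurable[m] ψ → (∀ x, ‖ψ x‖ ≤ C) → ∫ x, h x * ψ x ∂μ = 0

variable {X : Type*} {m : MeasurableSpace X} [mX : MeasurableSpace X] {μ : Measure X}
  [IsProbabilityMeasure μ]

omit [IsProbabilityMeasure μ] in
lemma measurable_ce (f : X → ℂ) : Measurable[m] (ce μ m f) :=
  measurable_clip.comp stronglyMeasurable_condExp.measurable

omit [IsProbabilityMeasure μ] in
lemma norm_ce (f : X → ℂ) (x : X) : ‖ce μ m f x‖ ≤ 1 := norm_clip _

omit [IsProbabilityMeasure μ] in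
lemma ce_ae {f : X → ℂ} (bf : ∀ x, ‖f x‖ ≤ 1) :
    ce μ m f =ᵐ[μ] μ[f | m] := by
  filter_upwards [ae_bdd_norm_condExp_of_ae_bdd_norm (m := m) (Eventually.of_forall bf)] with x hx
  exact clip_eq hx

lemma orth_of_ae (hm : m ≤ mX) {f e : X → ℂ} (hf : Integrable f μ)
    (he : e =ᵐ[μ] μ[f | m]) : Orth μ (fun x => f x - e x) m := by
  intro ψ C hψ bψ
  have hψ' : AEStronglyMeasurable ψ μ := (hψ.mono hm le_rfl).aestronglyMeasurable
  have i1 := hf.mul_bdd hψ' (Eventually.of_forall bψ)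
  have i2 := (integrable_condExp (m := m) (f := f) (μ := μ)).mul_bdd hψ' (Eventually.of_forall bψ)
  have h1 := condExp_bilin_of_stronglyMeasurable_right (ContinuousLinearMap.mul ℝ ℂ)
    hψ.stronglyMeasurable (μ := μ) i1 hf
  have h2 : ∫ x, (f x - e x) * ψ x ∂μ = ∫ x, (f x * ψ x - (μ[f | m]) x * ψ x) ∂μ := by
    refine integral_congr_ae ?_
    filter_upwards [he] with x hx
    rw [hx, sub_mul]
  rw [h2, integral_sub i1 i2, sub_eq_zero, ← integral_condExp hm]
  exact integral_congr_ae h1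

lemma integral_sub_ce_le (hm : m ≤ mX) {f s : X → ℂ} (hf : Measurable f)
    (bf : ∀ x, ‖f x‖ ≤ 1) (hs : Measurable[m] s) (is : Integrable s μ) :
    ∫ x, ‖f x - ce μ m f x‖ ∂μ ≤ 2 * ∫ x, ‖f x - s x‖ ∂μ := by
  have i := integrable_bdd (μ := μ) hf bf
  have h1 := integral_norm_condExp_le (μ := μ) (m := m) (f - s)
  have h2 := condExp_sub i is m
  rw [condExp_of_stronglyMeasurable hm hs.stronglyMeasurable is] at h2
  calc _ ≤ ∫ x, (‖f x - s x‖ + ‖(μ[f - s | m]) x‖) ∂μ := by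
        refine integral_mono_of_nonneg (Eventually.of_forall fun x => norm_nonneg _)
          ((i.sub is).norm.add integrable_condExp.norm) ?_
        filter_upwards [ce_ae (m := m) bf, h2] with x h3 h4
        rw [h3, h4, Pi.sub_apply]
        have := norm_sub_le (f x - s x) ((μ[f | m]) x - s x)
        rwa [sub_sub_sub_cancel_right] at this
    _ ≤ _ := by
        rw [integral_add (f := fun x => ‖f x - s x‖) (i.sub is).norm integrable_condExp.norm]
        have : ∫ x, ‖(f - s) x‖ ∂μ = ∫ x, ‖f x - s x‖ ∂μ := rfl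
        linarith

lemma proj_antitone {E : Type*} [NormedAddCommGroup E] [InnerProductSpace ℂ E] [CompleteSpace E]
    (K : ℕ → Submodule ℂ E) [∀ n, CompleteSpace (K n)] (hK : Antitone K) (L : Submodule ℂ E)
    [CompleteSpace L] (h1 : ∀ n, L ≤ K n) (h2 : ∀ y, (∀ n, y ∈ K n) → y ∈ L) (x : E) :
    Tendsto (fun n => (K n).starProjection x) atTop (𝓝 (L.starProjection x)) := by
  have : CompleteSpace (⨆ n, (K n)ᗮ).topologicalClosure :=
    (Submodule.isClosed_topologicalClosure _).completeSpace_coe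
  have h := (Submodule.starProjection_tendsto_closure_iSup (fun n => (K n)ᗮ)
    (fun a b hab => Submodule.orthogonal_le (hK hab)) x).const_sub x
  simp only [Submodule.starProjection_orthogonal_val, sub_sub_cancel] at h
  set y := x - (⨆ n, (K n)ᗮ).topologicalClosure.starProjection x
  have hy : ∀ n, y ∈ K n := fun n =>
    (completeSpace_coe_iff_isComplete.1 (inferInstance : CompleteSpace (K n))).isClosed.mem_of_tendsto
      h ((eventually_ge_atTop n).mono fun m hm => hK hm ((K m).starProjection_apply_mem x))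
  rw [Submodule.eq_starProjection_of_mem_of_inner_eq_zero (h2 y hy) fun w hw => ?_]
  · exact h
  · have := (h.const_sub x).inner (𝕜 := ℂ) (tendsto_const_nhds (x := w))
    simp only [fun n => (K n).starProjection_inner_eq_zero x w (h1 n hw)] at this
    exact tendsto_nhds_unique this tendsto_const_nhds

/-- reverse martingale convergence in mean -/
lemma reverse_mart {F : ℕ → MeasurableSpace X} (hF : Antitone F) (hle : ∀ n, F n ≤ mX)
    {f : X → ℂ} (hf : Measurable f) (bf : ∀ x, ‖f x‖ ≤ 1) :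
    Tendsto (fun n => ∫ x, ‖ce μ (F n) f x - ce μ (⨅ n, F n) f x‖ ∂μ) atTop (𝓝 0) := by
  have hT : (⨅ n, F n) ≤ mX := (iInf_le _ 0).trans (hle 0)
  have hf2 : MemLp f 2 μ := MemLp.of_bound hf.aestronglyMeasurable 1 (Eventually.of_forall bf)
  have : ∀ n, Fact (F n ≤ mX) := fun n => ⟨hle n⟩
  have : Fact ((⨅ n, F n) ≤ mX) := ⟨hT⟩
  have h := proj_antitone (fun n => lpMeas ℂ ℂ (F n) 2 μ)
    (fun a b hab g hg => mem_lpMeas_iff_aestronglyMeasurable.2
      ((mem_lpMeas_iff_aestronglyMeasurable.1 hg).mono (hF hab)))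
    (lpMeas ℂ ℂ (⨅ n, F n) 2 μ) (fun n g hg => mem_lpMeas_iff_aestronglyMeasurable.2
      ((mem_lpMeas_iff_aestronglyMeasurable.1 hg).mono (iInf_le _ n))) (fun g hg => by
      choose g' h1 h2 using fun n => mem_lpMeas_iff_aestronglyMeasurable.1 (hg n)
      refine mem_lpMeas_iff_aestronglyMeasurable.2
        ⟨fun x => limUnder atTop (fun n => g' n x), Measurable.stronglyMeasurable ?_, ?_⟩
      · intro s hs
        rw [MeasurableSpace.measurableSet_iInf]
        intro m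
        have e : (fun x => limUnder atTop (fun n => g' n x)) =
            fun x => limUnder atTop (fun n => g' (n + m) x) := by
          funext x
          simp only [limUnder]
          rw [show (fun n => g' (n + m) x) = (fun n => g' n x) ∘ fun n => n + m from rfl,
            ← Filter.map_map, map_add_atTop_eq_nat]
        rw [e]
        have hm : StronglyMeasurable[F m] fun x => limUnder atTop (fun n => g' (n + m) x) := by
          let _ : MeasurableSpace X := F m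
          exact StronglyMeasurable.limUnder
            (fun n => (h1 (n + m)).mono (hF (Nat.le_add_left m n)))
        exact hm.measurable hs
      · filter_upwards [ae_all_iff.2 h2] with x hx
        simp only [← hx]
        exact tendsto_const_nhds.limUnder_eq.symm) hf2.toLp
  have h' := (tendsto_iff_norm_sub_tendsto_zero.1 h)
  refine squeeze_zero (fun n => integral_nonneg fun x => norm_nonneg _) (fun n => ?_) h'
  refine (abs_le_of_sq_le_sq' ?_ (norm_nonneg _)).2
  refine (sq_integral_le (((measurable_ce f).mono (hle n) le_rfl).sub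
    ((measurable_ce f).mono hT le_rfl)).norm (C := 2) fun x => by
      rw [norm_norm]
      have a1 : ‖ce μ (F n) f x‖ ≤ 1 := norm_ce f x
      have a2 : ‖ce μ (⨅ n, F n) f x‖ ≤ 1 := norm_ce f x
      exact (norm_sub_le _ _).trans (by linarith)).trans
    (le_of_eq ?_)
  rw [← inner_self_eq_norm_sq (𝕜 := ℂ), L2.inner_def, ← integral_re (L2.integrable_inner _ _)]
  refine integral_congr_ae ?_
  filter_upwards [ce_ae (m := F n) bf, ce_ae (m := ⨅ n, F n) bf,
    hf2.condExpL2_ae_eq_condExp (𝕜 := ℂ) (hle n), hf2.condExpL2_ae_eq_condExp (𝕜 := ℂ) hT,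
    Lp.coeFn_sub ((lpMeas ℂ ℂ (F n) 2 μ).starProjection hf2.toLp)
      ((lpMeas ℂ ℂ (⨅ n, F n) 2 μ).starProjection hf2.toLp)] with x a1 a2 a3 a4 a5
  rw [inner_self_eq_norm_sq, a5, Pi.sub_apply, Pi.sub_apply, a1, a2, ← a3, ← a4]
  rfl

end Pool.Agent.Lib.MP_9721b5_an.Sing
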