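import Pool.Agent.Lib.MP_9721b5_an.Sing.Orth

/-!
Reduction to the tail sigma algebras of finite partitions.
-/

set_option autoImplicit false

open MeasureTheory Filter Topology Finset ComplexConjugate
open scoped ENNReal
open Pool.Agent.Shared.Ergodic

namespace Pool.Agent.Lib.MP_9721b5_an.Sing

/-- the future of the process from time `n` -/
@[reducible] def Fz {X : Type*} [MeasurableSpace X] (T : X ≃ᵐ X) {k : ℕ} (ξ : X → Fin k) (n : ℤ) :
    MeasurableSpace X :=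
  ⨆ m : ℤ, ⨆ _ : n ≤ m, MeasurableSpace.comap (fun x => ξ (zit T m x)) ⊤

variable {X : Type*} {m P : MeasurableSpace X} [mX : MeasurableSpace X] {μ : Measure X}
  {T : X ≃ᵐ X} {k : ℕ} {ξ : X → Fin k}

lemma Fz_anti {a b : ℤ} (h : a ≤ b) : Fz T ξ b ≤ Fz T ξ a :=
  iSup₂_le fun n hn => le_iSup₂_of_le n (h.trans hn) le_rfl

lemma Fz_le (hT : MeasurePreserving T μ μ) (hξ : Measurable ξ) (a : ℤ) : Fz T ξ a ≤ mX :=
  iSup₂_le fun n _ => ((measurable_from_top (f := id)).comp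
    (hξ.comp (mp_zit hT n).measurable) : Measurable fun x => ξ (zit T n x)).comap_le

lemma meas_zit (a n : ℤ) : @Measurable X X (Fz T ξ (a + n)) (Fz T ξ a) (zit T n) := by
  refine Measurable.of_comap_le ?_
  simp only [MeasurableSpace.comap_iSup, MeasurableSpace.comap_comp]
  refine iSup₂_le fun j hj => le_iSup₂_of_le (j + n) (by omega) (le_of_eq ?_)
  congr 1
  funext x
  simp only [Function.comp_apply, zit_add]

lemma tail_eq : tailSigma T ξ = ⨅ n : ℕ, Fz T ξ n := by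
  refine iInf_congr fun n => le_antisymm (iSup₂_le fun j hj => ?_) (iSup₂_le fun j hj => ?_)
  · refine le_iSup₂_of_le (j : ℤ) (by exact_mod_cast hj) (le_of_eq ?_)
    simp only [zit_nat]
  · obtain ⟨j, rfl⟩ := Int.eq_ofNat_of_zero_le ((Int.natCast_nonneg n).trans hj)
    refine le_iSup₂_of_le j (by exact_mod_cast hj) (le_of_eq ?_)
    simp only [zit_nat]

lemma tail_le (a : ℤ) : (⨅ n : ℕ, Fz T ξ n) ≤ Fz T ξ a :=
  (iInf_le _ a.toNat).trans (Fz_anti (Int.self_le_toNat a))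

lemma meas_zit_tail (n : ℤ) :
    @Measurable X X (⨅ n : ℕ, Fz T ξ n) (⨅ n : ℕ, Fz T ξ n) (zit T n) := by
  intro s hs
  rw [MeasurableSpace.measurableSet_iInf]
  intro j
  have := meas_zit (T := T) (ξ := ξ) (j - n) n (tail_le (j - n) s hs)
  rwa [sub_add_cancel] at this

lemma Orth.shift {m' : MeasurableSpace X} (hT : @MeasurePreserving X X mX mX T μ μ) {h : X → ℂ}
    (hh : Measurable[mX] h) (hm : m ≤ mX) (o : Orth μ h m) (n : ℤ)
    (hz : @Measurable X X m m' (@zit X mX T (-n))) : Orth μ (fun x => h (@zit X mX T n x)) m' := by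
  intro ψ C hψ bψ
  have := o (fun x => ψ (@zit X mX T (-n) x)) C (hψ.comp hz) fun x => bψ _
  rw [← @integral_comp_mp X mX μ _ (@mp_zit X mX μ T hT n) (fun x => h x * ψ (@zit X mX T (-n) x))
    (hh.mul ((hψ.comp hz).mono hm le_rfl))] at this
  simpa only [Pi.mul_apply, Function.comp_apply, ← @zit_add X mX, neg_add_cancel,
    @zit_zero X mX] using this

variable [IsProbabilityMeasure μ]

lemma conv_mart (hT : MeasurePreserving T μ μ) (hξ : Measurable ξ) {g : X → ℂ}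
    (hg : Measurable[Fz T ξ 0] g) (bg : ∀ x, ‖g x‖ ≤ 1) {p : ℕ} (hp : 0 < p) {H : ℕ → X → ℂ}
    (hH : ∀ n : ℕ, Measurable[Fz T ξ ((p + 1) * n : ℕ)] (H n)) (bH : ∀ n x, ‖H n x‖ ≤ 1) :
    Conv μ fun n x => (g (T^[p * n] x) - ce μ (⨅ n : ℕ, Fz T ξ n) g (T^[p * n] x)) * H n x := by
  have hle := Fz_le hT hξ
  have hg' : Measurable g := hg.mono (hle 0) le_rfl
  have hT' : (⨅ n : ℕ, Fz T ξ n) ≤ mX := (tail_le 0).trans (hle 0)
  refine conv_of_approx (hT.iterate p) _ fun ε hε => ?_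
  obtain ⟨M, hM⟩ := ((reverse_mart (μ := μ) (F := fun n : ℕ => Fz T ξ n)
    (fun a b hab => Fz_anti (by exact_mod_cast hab)) (fun n => hle n) hg' bg).eventually
      (ge_mem_nhds hε)).exists
  let h : X → ℂ := fun x => g x - ce μ (Fz T ξ M) g x
  have mh : Measurable[Fz T ξ 0] h :=
    hg.sub ((measurable_ce g).mono (Fz_anti (Int.natCast_nonneg M)) le_rfl)
  have bh : ∀ x, ‖h x‖ ≤ 2 := fun x => by
    have : ‖ce μ (Fz T ξ M) g x‖ ≤ 1 := norm_ce g x
    exact (norm_sub_le _ _).trans (by linarith [bg x])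
  have oh : Orth μ h (Fz T ξ M) := orth_of_ae (hle M) (integrable_bdd hg' bg) (ce_ae bg)
  have mu : ∀ n : ℕ, Measurable[Fz T ξ (p * n : ℕ)] fun x => h (T^[p * n] x) * H n x := by
    intro n
    have h1 := mh.comp (meas_zit (T := T) (ξ := ξ) 0 (p * n : ℕ))
    rw [zero_add] at h1
    simp only [← zit_nat]
    exact h1.mul ((hH n).mono (Fz_anti (by push_cast; nlinarith [Int.natCast_nonneg n])) le_rfl)
  have bu : ∀ n x, ‖h (T^[p * n] x) * H n x‖ ≤ 2 := fun n x => by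
    rw [norm_mul]; exact (mul_le_of_le_one_right (norm_nonneg _) (bH n x)).trans (bh _)
  refine ⟨fun n x => h (T^[p * n] x) * H n x,
    fun x => ‖ce μ (Fz T ξ M) g x - ce μ (⨅ n : ℕ, Fz T ξ n) g x‖, 2,
    conv_of_orth ⟨fun n => (mu n).mono (hle _) le_rfl, bu⟩ M fun n j hn hj => ?_,
    (((measurable_ce g).mono (hle M) le_rfl).sub ((measurable_ce g).mono hT' le_rfl)).norm,
    fun x => ?_, fun x => norm_nonneg _, hM, fun n x => ?_⟩
  · have o := oh.shift (m' := Fz T ξ (M + (p * n : ℕ))) hT (mh.mono (hle 0) le_rfl) (hle M)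
      (p * n : ℕ) (by
        have := meas_zit (T := T) (ξ := ξ) (M + (p * n : ℕ)) (-(p * n : ℕ))
        rwa [add_neg_cancel_right] at this)
    have := o (fun x => H n x * conj (h (T^[p * j] x) * H j x)) 2
      (((hH n).mono (Fz_anti (by push_cast; nlinarith [show (M : ℤ) ≤ n by exact_mod_cast hn]))
        le_rfl).mul (Complex.continuous_conj.measurable.comp ((mu j).mono (Fz_anti (by
          have h1 : (n : ℤ) + M ≤ j := by exact_mod_cast hj
          have h2 : (1 : ℤ) ≤ p := by exact_mod_cast hp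
          push_cast
          nlinarith [Int.natCast_nonneg M])) le_rfl))) fun x => by
      rw [norm_mul, Complex.norm_conj]
      exact (mul_le_of_le_one_left (norm_nonneg _) (bH n x)).trans (bu j x)
    simpa only [zit_nat, mul_assoc] using this
  · have a1 : ‖ce μ (Fz T ξ M) g x‖ ≤ 1 := norm_ce g x
    have a2 : ‖ce μ (⨅ n : ℕ, Fz T ξ n) g x‖ ≤ 1 := norm_ce g x
    rw [abs_norm]
    exact (norm_sub_le _ _).trans (by linarith)
  · rw [← sub_mul, norm_mul, ← Function.iterate_mul]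
    refine (mul_le_of_le_one_right (norm_nonneg _) (bH n x)).trans (le_of_eq ?_)
    simp only [h]
    congr 1; ring

lemma conv_of_tail (hT : MeasurePreserving T μ μ) (hξ : Measurable ξ) {g₁ g₂ g₃ : X → ℂ}
    (m₁ : Measurable[Fz T ξ 0] g₁) (m₂ : Measurable[Fz T ξ 0] g₂) (m₃ : Measurable[Fz T ξ 0] g₃)
    (b₁ : ∀ x, ‖g₁ x‖ ≤ 1) (b₂ : ∀ x, ‖g₂ x‖ ≤ 1) (b₃ : ∀ x, ‖g₃ x‖ ≤ 1)
    (h : Conv μ fun n x => ce μ (⨅ n : ℕ, Fz T ξ n) g₁ (T^[n] x) *
      ce μ (⨅ n : ℕ, Fz T ξ n) g₂ (T^[2 * n] x) * ce μ (⨅ n : ℕ, Fz T ξ n) g₃ (T^[3 * n] x)) :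
    Conv μ fun n x => g₁ (T^[n] x) * g₂ (T^[2 * n] x) * g₃ (T^[3 * n] x) := by
  have k1 : ∀ {a b : ℂ}, ‖a‖ ≤ 1 → ‖b‖ ≤ 1 → ‖a * b‖ ≤ 1 := fun ha hb => by
    rw [norm_mul]; exact mul_le_one₀ ha (norm_nonneg _) hb
  have sh : ∀ {g : X → ℂ}, Measurable[Fz T ξ 0] g → ∀ a b : ℕ, b ≤ a →
      Measurable[Fz T ξ b] fun x => g (T^[a] x) := by
    intro g hg a b hab
    have h1 := hg.comp (meas_zit (T := T) (ξ := ξ) 0 a)
    simp only [← zit_nat]
    exact h1.mono (Fz_anti (by simpa using hab)) le_rfl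
  have st : ∀ (g : X → ℂ) (a : ℕ) (b : ℤ),
      Measurable[Fz T ξ b] fun x => ce μ (⨅ n : ℕ, Fz T ξ n) g (T^[a] x) := by
    intro g a b
    have h1 := (measurable_ce (μ := μ) g).comp (meas_zit_tail (T := T) (ξ := ξ) a)
    simp only [← zit_nat]
    exact h1.mono (tail_le b) le_rfl
  have c₁ := conv_mart hT hξ m₁ b₁ one_pos (H := fun n x => g₂ (T^[2 * n] x) * g₃ (T^[3 * n] x))
    (fun n => (sh m₂ _ _ (by omega)).mul (sh m₃ _ _ (by omega))) fun n x => k1 (b₂ _) (b₃ _)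
  have c₂ := conv_mart hT hξ m₂ b₂ two_pos
    (H := fun n x => ce μ (⨅ n : ℕ, Fz T ξ n) g₁ (T^[n] x) * g₃ (T^[3 * n] x))
    (fun n => (st _ _ _).mul (sh m₃ _ _ (by omega))) fun n x => k1 (norm_ce _ _) (b₃ _)
  have c₃ := conv_mart hT hξ m₃ b₃ three_pos
    (H := fun n x => ce μ (⨅ n : ℕ, Fz T ξ n) g₁ (T^[n] x) *
      ce μ (⨅ n : ℕ, Fz T ξ n) g₂ (T^[2 * n] x))
    (fun n => (st _ _ _).mul (st _ _ _)) fun n x => k1 (norm_ce _ _) (norm_ce _ _)
  have := ((c₁.add c₂).add c₃).add h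
  refine (congrArg (Conv μ) ?_).mp this
  funext n x
  simp only [one_mul]
  ring

omit [IsProbabilityMeasure μ] in
lemma IsSpectralMeasure.congr {S : X → X} (hS : MeasurePreserving S μ μ) {f g : X → ℂ}
    {σ : Measure UnitAddCircle} (h : IsSpectralMeasure μ S f σ) (e : f =ᵐ[μ] g) :
    IsSpectralMeasure μ S g σ := by
  refine ⟨h.finite, fun n => ?_⟩
  rw [h.coeff]
  refine integral_congr_ae ?_
  filter_upwards [e, (hS.iterate n).quasiMeasurePreserving.ae e] with x h1 h2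
  rw [h1, h2]

lemma spec_le (hT : MeasurePreserving T μ μ) (hm : m ≤ mX)
    (hz : ∀ n : ℤ, @Measurable X X m m (zit T n)) {f e : X → ℂ} (hf : Measurable f)
    (bf : ∀ x, ‖f x‖ ≤ 1) (he : Measurable[m] e) (be : ∀ x, ‖e x‖ ≤ 1) (ee : e =ᵐ[μ] μ[f | m])
    {σ : Measure UnitAddCircle} (hσ : IsSpectralMeasure μ T f σ) :
    ∃ τ, IsSpectralMeasure μ T e τ ∧ τ ≤ σ := by
  have he' : Measurable e := he.mono hm le_rfl
  have o : Orth μ (fun x => f x - e x) m := orth_of_ae hm (integrable_bdd hf bf) ee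
  obtain ⟨τ, hτ⟩ := herglotz hT he' be
  have mq : Measurable fun x => (f x - e x) / 2 := (hf.sub he').div_const 2
  have bq : ∀ x, ‖(f x - e x) / 2‖ ≤ 1 := fun x => by
    rw [norm_div, Complex.norm_two, div_le_one two_pos]
    exact (norm_sub_le _ _).trans (by linarith [bf x, be x])
  obtain ⟨τ', hτ'⟩ := herglotz hT mq bq
  have := hσ.finite
  have := hτ.finite
  have := hτ'.finite
  have hsum : σ = τ + (4 : NNReal) • τ' := by
    refine measure_eq_of_fourier fun n => ?_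
    rw [integral_add_measure (integrable_fourier _ _) (integrable_fourier _ _),
      integral_smul_nnreal_measure, hσ.coeff, hτ.coeff, hτ'.coeff]
    have mT := hT.measurable.iterate n
    have cj := Complex.continuous_conj.measurable
    have z1 := (o.shift hT (hf.sub he') hm n (hz _)) (fun x => conj (e x)) 1 (cj.comp he)
      fun x => by rw [Complex.norm_conj]; exact be x
    have z2 := o (fun x => conj (e (zit T n x))) 1 (cj.comp (he.comp (hz n)))
      fun x => by rw [Complex.norm_conj]; exact be _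
    have z3 := congrArg conj z2
    rw [← integral_conj, map_zero] at z3
    simp only [zit_nat, map_mul, Complex.conj_conj, Pi.sub_apply] at z1 z3
    have k : ∀ {a b : X → ℂ} {C D : ℝ}, Measurable a → Measurable b → (∀ x, ‖a x‖ ≤ C) →
        (∀ x, ‖b x‖ ≤ D) → Integrable (fun x => a x * b x) μ := fun ha hb h1 h2 =>
      (integrable_bdd ha h1).mul_bdd hb.aestronglyMeasurable (Eventually.of_forall h2)
    have bd : ∀ x, ‖f x - e x‖ ≤ 2 := fun x => (norm_sub_le _ _).trans (by linarith [bf x, be x])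
    have i1 := k (he'.comp mT) (cj.comp he') (fun x => be _)
      (fun x => by rw [Function.comp_apply, Complex.norm_conj]; exact be x)
    have i2 := k (mq.comp mT) (cj.comp mq) (fun x => bq _)
      (fun x => by rw [Function.comp_apply, Complex.norm_conj]; exact bq x)
    have i3 := k ((hf.sub he').comp mT) (cj.comp he') (fun x => bd _)
      (fun x => by rw [Function.comp_apply, Complex.norm_conj]; exact be x)
    have i4 := k (cj.comp (hf.sub he')) (he'.comp mT)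
      (fun x => by rw [Function.comp_apply, Complex.norm_conj]; exact bd x) (fun x => be _)
    simp only [Function.comp_apply, Pi.sub_apply] at i1 i2 i3 i4
    have e1 : ∀ x, f (T^[n] x) * conj (f x) = e (T^[n] x) * conj (e x) +
        4 * ((f (T^[n] x) - e (T^[n] x)) / 2 * conj ((f x - e x) / 2)) +
        ((f (T^[n] x) - e (T^[n] x)) * conj (e x) + conj (f x - e x) * e (T^[n] x)) := by
      intro x
      simp only [map_div₀, map_sub, map_ofNat]
      ring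
    simp only [e1]
    have e2 := integral_add (i1.add (i2.const_mul 4)) (i3.add i4)
    simp only [Pi.add_apply] at e2
    rw [e2, integral_add i1 (i2.const_mul 4), integral_add i3 i4, z1, z3, integral_const_mul]
    simp [NNReal.smul_def]
  exact ⟨τ, hτ, by rw [hsum]; exact Measure.le_add_right le_rfl⟩

lemma exists_partition {f₁ f₂ f₃ : X → ℂ} (i₁ : Integrable f₁ μ) (i₂ : Integrable f₂ μ)
    (i₃ : Integrable f₃ μ) {ε : ℝ} (hε : 0 < ε) :
    ∃ (k : ℕ) (ξ : X → Fin k) (c₁ c₂ c₃ : Fin k → ℂ), Measurable ξ ∧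
      ∫ x, ‖f₁ x - c₁ (ξ x)‖ ∂μ ≤ ε ∧ ∫ x, ‖f₂ x - c₂ (ξ x)‖ ∂μ ≤ ε ∧
      ∫ x, ‖f₃ x - c₃ (ξ x)‖ ∂μ ≤ ε := by
  have aux : ∀ {f : X → ℂ}, Integrable f μ → ∃ s : SimpleFunc X ℂ, ∫ x, ‖f x - s x‖ ∂μ ≤ ε := by
    intro f hf
    obtain ⟨s, hs, hs'⟩ := (memLp_one_iff_integrable.2 hf).exists_simpleFunc_eLpNorm_sub_lt
      ENNReal.one_ne_top (ε := ENNReal.ofReal ε) (by simpa using hε)
    refine ⟨s, ?_⟩
    rw [integral_norm_eq_lintegral_enorm (f := fun x => f x - s x) (hf.1.sub s.aestronglyMeasurable)]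
    rw [eLpNorm_one_eq_lintegral_enorm] at hs
    exact ENNReal.toReal_le_of_le_ofReal hε.le hs.le
  obtain ⟨s₁, h₁⟩ := aux i₁
  obtain ⟨s₂, h₂⟩ := aux i₂
  obtain ⟨s₃, h₃⟩ := aux i₃
  let s := s₁.pair (s₂.pair s₃)
  let e := s.range.equivFin
  refine ⟨_, fun x => e ⟨s x, s.mem_range_self x⟩, fun i => (e.symm i).1.1,
    fun i => (e.symm i).1.2.1, fun i => (e.symm i).1.2.2, measurable_to_countable' fun i => ?_,
    by simpa [s] using h₁, by simpa [s] using h₂, by simpa [s] using h₃⟩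
  convert s.measurableSet_fiber (e.symm i).1 using 1
  ext x
  simp only [Set.mem_preimage, Set.mem_singleton_iff]
  rw [← Equiv.eq_symm_apply, Subtype.ext_iff]

theorem pinsker_general (hB : BDRshift) (hT : MeasurePreserving T μ μ) (hP : P ≤ mX)
    (hP' : pinsker T ≤ P) {f₁ f₂ f₃ : X → ℂ} (m₁ : Measurable f₁) (m₂ : Measurable f₂)
    (m₃ : Measurable f₃) (b₁ : ∀ x, ‖f₁ x‖ ≤ 1) (b₂ : ∀ x, ‖f₂ x‖ ≤ 1) (b₃ : ∀ x, ‖f₃ x‖ ≤ 1)
    {σ₁ σ₂ σ₃ : Measure UnitAddCircle} (h₁ : IsSpectralMeasure μ T (μ[f₁ | P]) σ₁)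
    (h₂ : IsSpectralMeasure μ T (μ[f₂ | P]) σ₂) (h₃ : IsSpectralMeasure μ T (μ[f₃ | P]) σ₃)
    {S₁ S₂ S₃ : Set UnitAddCircle}
    (hS₁ : MeasurableSet S₁) (hS₂ : MeasurableSet S₂) (hS₃ : MeasurableSet S₃)
    (hs₁ : σ₁.restrict S₁ᶜ ⟂ₘ volume) (hs₂ : σ₂.restrict S₂ᶜ ⟂ₘ volume)
    (hs₃ : σ₃.restrict S₃ᶜ ⟂ₘ volume)
    (hn : ((volume : Measure UnitAddCircle).prod (volume : Measure UnitAddCircle))
      {p | -(2 • p.1) - 3 • p.2 ∈ S₁ ∧ p.1 ∈ S₂ ∧ p.2 ∈ S₃} = 0) :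
    Conv μ fun n x => f₁ (T^[n] x) * f₂ (T^[2 * n] x) * f₃ (T^[3 * n] x) := by
  refine conv3_approx hT m₁ m₂ m₃ b₁ b₂ b₃ fun ε hε => ?_
  obtain ⟨k, ξ, c₁, c₂, c₃, hξ, e₁, e₂, e₃⟩ := exists_partition (integrable_bdd (μ := μ) m₁ b₁)
    (integrable_bdd m₂ b₂) (integrable_bdd m₃ b₃) (half_pos hε)
  have hle := Fz_le hT hξ
  have hT' : (⨅ n : ℕ, Fz T ξ n) ≤ mX := (tail_le 0).trans (hle 0)
  have hTP : (⨅ n : ℕ, Fz T ξ n) ≤ P := by
    rw [← tail_eq]
    refine le_trans ?_ hP'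
    exact le_iSup_of_le k (le_iSup₂_of_le (f := fun (ξ : X → Fin k) (_ : Measurable ξ) =>
      tailSigma T ξ) ξ hξ le_rfl)
  have close : ∀ {f : X → ℂ} {c : Fin k → ℂ}, Measurable f → (∀ x, ‖f x‖ ≤ 1) →
      ∫ x, ‖f x - c (ξ x)‖ ∂μ ≤ ε / 2 → ∫ x, ‖f x - ce μ (Fz T ξ 0) f x‖ ∂μ ≤ ε := by
    intro f c hf bf h
    have h1 : Measurable[Fz T ξ 0] fun x => c (ξ x) := by
      have h2 : MeasurableSpace.comap ξ ⊤ ≤ Fz T ξ 0 :=
        le_iSup₂_of_le (0 : ℤ) le_rfl (le_of_eq (by simp only [zit_zero]))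
      exact (measurable_from_top (f := c)).comp (Measurable.of_comap_le h2)
    have := integral_sub_ce_le (μ := μ) (hle 0) hf bf h1
      (integrable_bdd (h1.mono (hle 0) le_rfl) (C := ∑ i, ‖c i‖) fun x =>
        single_le_sum (f := fun i => ‖c i‖) (fun i _ => norm_nonneg _) (mem_univ _))
    linarith
  have spec : ∀ {f : X → ℂ} {σ : Measure UnitAddCircle} {S : Set UnitAddCircle}, Measurable f →
      (∀ x, ‖f x‖ ≤ 1) → IsSpectralMeasure μ T (μ[f | P]) σ → σ.restrict Sᶜ ⟂ₘ volume →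
      ∃ τ, IsSpectralMeasure μ T (ce μ (⨅ n : ℕ, Fz T ξ n) (ce μ (Fz T ξ 0) f)) τ ∧
        τ.restrict Sᶜ ⟂ₘ volume := by
    intro f σ S hf bf hσ hs
    obtain ⟨τ, t1, t2⟩ := spec_le hT hT' meas_zit_tail ((measurable_ce f).mono hP le_rfl)
      (norm_ce f) (measurable_ce (ce μ (Fz T ξ 0) f)) (norm_ce _) (by
        refine (ce_ae (norm_ce f)).trans ((condExp_congr_ae (ce_ae bf)).trans ?_)
        refine (condExp_condExp_of_le (tail_le 0) (hle 0)).trans ?_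
        exact ((condExp_congr_ae (ce_ae bf)).trans (condExp_condExp_of_le hTP hP)).symm)
      (hσ.congr hT (ce_ae bf).symm)
    exact ⟨τ, t1, hs.mono (Measure.restrict_mono le_rfl t2) le_rfl⟩
  obtain ⟨τ₁, t₁, s₁⟩ := spec m₁ b₁ h₁ hs₁
  obtain ⟨τ₂, t₂, s₂⟩ := spec m₂ b₂ h₂ hs₂
  obtain ⟨τ₃, t₃, s₃⟩ := spec m₃ b₃ h₃ hs₃
  refine ⟨ce μ (Fz T ξ 0) f₁, ce μ (Fz T ξ 0) f₂, ce μ (Fz T ξ 0) f₃,
    (measurable_ce _).mono (hle 0) le_rfl, (measurable_ce _).mono (hle 0) le_rfl,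
    (measurable_ce _).mono (hle 0) le_rfl, norm_ce _, norm_ce _, norm_ce _, close m₁ b₁ e₁,
    close m₂ b₂ e₂, close m₃ b₃ e₃, conv_of_tail hT hξ (measurable_ce _) (measurable_ce _)
      (measurable_ce _) (norm_ce _) (norm_ce _) (norm_ce _) ?_⟩
  exact general hB hT ((measurable_ce _).mono hT' le_rfl) ((measurable_ce _).mono hT' le_rfl)
    ((measurable_ce _).mono hT' le_rfl) (norm_ce _) (norm_ce _) (norm_ce _) t₁ t₂ t₃ hS₁ hS₂ hS₃
    s₁ s₂ s₃ hn

end Pool.Agent.Lib.MP_9721b5_an.Sing
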