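import Pool.Agent.Lib.MP_9721b5_an.Sing.Final
import Pool.Agent.Shared.DoubleRec.Bourgain

set_option autoImplicit false

open MeasureTheory Filter Topology Finset
open Pool.Agent.Lib.MP_9721b5_an.Sing

namespace Pool.Agent.Results.MP_9721b5_an.SingularSpectrum

/-- Almost everywhere convergence of the triple averages when the absolutely continuous parts of
the spectral measures of the three Pinsker projections are non-resonant. -/
theorem result {X : Type} [MeasurableSpace X] (μ : Measure X) [IsProbabilityMeasure μ]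
    (T : X ≃ᵐ X) (hT : MeasurePreserving T μ μ) (f g h : X → ℂ)
    (hf : MemLp f ⊤ μ) (hg : MemLp g ⊤ μ) (hh : MemLp h ⊤ μ) (A B C : Set UnitAddCircle)
    (hA : MeasurableSet A) (hB : MeasurableSet B) (hC : MeasurableSet C)
    (sf : CarriesAC μ T (μ[f | pinsker T]) A) (sg : CarriesAC μ T (μ[g | pinsker T]) B)
    (sh : CarriesAC μ T (μ[h | pinsker T]) C)
    (hn : ((volume : Measure UnitAddCircle).prod (volume : Measure UnitAddCircle))
      {p | -(2 • p.1) - 3 • p.2 ∈ A ∧ p.1 ∈ B ∧ p.2 ∈ C} = 0) :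
    ∀ᵐ x ∂μ, ∃ L : ℂ, Tendsto (fun N : ℕ => (N : ℂ)⁻¹ *
      ∑ n ∈ Icc 1 N, f (T^[n] x) * g (T^[2 * n] x) * h (T^[3 * n] x)) atTop (𝓝 L) :=
  final (fun _ _ hκ _ _ hp hpq _ _ _ hu hv bu bv s =>
    Pool.Agent.Shared.DoubleRec.bdr hκ hp (hp.trans hpq) hpq.ne hu hv bu bv s)
    hT hf hg hh hA hB hC sf sg sh hn

end Pool.Agent.Results.MP_9721b5_an.SingularSpectrum
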