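import Pool.Agent.Lib.MP_9721b5_an.Sing.Core
import Pool.Agent.Lib.MP_9721b5_an.Sing.Defs

/-!
Existence and uniqueness of spectral measures, mixtures of spectral measures, and the
behaviour under multiplication maps of the circle.
-/

set_option autoImplicit false

open MeasureTheory Filter Topology Finset ComplexConjugate
open scoped NNReal ENNReal

namespace Pool.Agent.Lib.MP_9721b5_an.Sing

variable {X : Type*} [MeasurableSpace X] {μ : Measure X}

lemma integral_fourier (k : ℤ) :
    ∫ s : UnitAddCircle, fourier k s = if k = 0 then 1 else 0 := by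
  split_ifs with h
  · subst h; simp [Measure.real]
  · exact integral_eq_zero_of_add_right_eq_neg (μ := volume)
      (fourier_add_half_inv_index h one_pos)

lemma integrable_fourier (σ : Measure UnitAddCircle) [IsFiniteMeasure σ] (k : ℤ) :
    Integrable (fourier k : UnitAddCircle → ℂ) σ :=
  integrable_bdd (fourier k).continuous.measurable fun s => (norm_fourier k s).le

lemma integral_fourier_neg (σ : Measure UnitAddCircle) (k : ℤ) :
    ∫ s, fourier (-k) s ∂σ = conj (∫ s, fourier k s ∂σ) := by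
  rw [← integral_conj]
  simp only [fourier_neg]

/-- The theorem of Herglotz -/
theorem herglotz [IsProbabilityMeasure μ] {S : X → X} (hS : MeasurePreserving S μ μ) {f : X → ℂ}
    (hf : Measurable f) (bf : ∀ x, ‖f x‖ ≤ 1) : ∃ σ, IsSpectralMeasure μ S f σ := by
  have mS : ∀ n, Measurable S^[n] := fun n => hS.measurable.iterate n
  let c : ℕ → ℕ → ℂ := fun a b => ∫ x, f (S^[a] x) * conj (f (S^[b] x)) ∂μ
  have mc : ∀ a b, Measurable fun x => f (S^[a] x) * conj (f (S^[b] x)) := fun a b =>
    (hf.comp (mS a)).mul (Complex.continuous_conj.measurable.comp (hf.comp (mS b)))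
  have bc : ∀ a b x, ‖f (S^[a] x) * conj (f (S^[b] x))‖ ≤ 1 := fun a b x => by
    rw [norm_mul, Complex.norm_conj]; exact mul_le_one₀ (bf _) (norm_nonneg _) (bf _)
  have hc : ∀ m b, c (b + m) b = c m 0 := fun m b => by
    simp only [c]
    rw [← integral_comp_mp (hS.iterate b) (mc m 0)]
    simp only [← Function.iterate_add_apply, add_comm, add_zero]
  let w : ℕ → UnitAddCircle → ℝ := fun N s =>
    (N : ℝ)⁻¹ * ∫ x, ‖∑ n ∈ range N, f (S^[n] x) * fourier (-(n : ℤ)) s‖ ^ 2 ∂μ
  have hw0 : ∀ N s, 0 ≤ w N s := fun N s =>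
    mul_nonneg (by positivity) (integral_nonneg fun x => by positivity)
  have ew : ∀ N s, (w N s : ℂ) =
      (N : ℂ)⁻¹ * ∑ j ∈ range N ×ˢ range N, c j.1 j.2 * fourier ((j.2 : ℤ) - j.1) s := by
    intro N s
    simp only [w, Complex.ofReal_mul, Complex.ofReal_inv, Complex.ofReal_natCast,
      ← integral_complex_ofReal, ofReal_norm_sq_sum]
    congr 1
    rw [integral_finsetSum]
    · refine sum_congr rfl fun j _ => ?_
      rw [← integral_mul_const]
      refine integral_congr_ae (Eventually.of_forall fun x => ?_)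
      simp only [map_mul, sub_eq_add_neg, fourier_add, fourier_neg, Complex.conj_conj]
      ring
    · intro j _
      refine integrable_bdd (C := 1) (((hf.comp (mS _)).mul measurable_const).mul
        (Complex.continuous_conj.measurable.comp ((hf.comp (mS _)).mul measurable_const)))
        fun x => ?_
      simp only [norm_mul, Complex.norm_conj, norm_fourier, mul_one]
      exact mul_le_one₀ (bf _) (norm_nonneg _) (bf _)
  have cw : ∀ N, Continuous (w N) := fun N => by
    have : w N = fun s => ((w N s : ℝ) : ℂ).re := by funext s; simp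
    rw [this]
    simp only [ew]
    fun_prop
  have key : ∀ N m : ℕ, ∫ s, fourier (m : ℤ) s ∂(volume.withDensity fun s => ENNReal.ofReal (w N s))
      = (N : ℂ)⁻¹ * ((N - m : ℕ) : ℂ) * c m 0 := by
    intro N m
    rw [integral_withDensity_eq_integral_toReal_smul (cw N).measurable.ennreal_ofReal
      (Eventually.of_forall fun s => ENNReal.ofReal_lt_top)]
    simp only [ENNReal.toReal_ofReal (hw0 _ _), Complex.real_smul, ew, mul_assoc, sum_mul,
      ← fourier_add]
    rw [integral_const_mul, integral_finsetSum _ fun j _ => (integrable_fourier _ _).const_mul _]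
    congr 1
    simp only [integral_const_mul, integral_fourier]
    rw [sum_product_right]
    have : ∀ b ∈ range N, ∑ a ∈ range N, c a b * (if (b : ℤ) - a + m = 0 then 1 else 0) =
        if b + m < N then c m 0 else 0 := by
      intro b _
      have : ∀ a : ℕ, ((b : ℤ) - a + m = 0) ↔ a = b + m := fun a => by omega
      simp only [this, mul_ite, mul_one, mul_zero, sum_ite_eq', mem_range, hc]
    rw [sum_congr rfl this, ← sum_filter, sum_const, nsmul_eq_mul]
    congr 2
    have : filter (fun b => b + m < N) (range N) = range (N - m) := by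
      ext b; simp only [mem_filter, mem_range]; omega
    rw [this, card_range]
  have fin : ∀ N, IsFiniteMeasure (volume.withDensity fun s => ENNReal.ofReal (w N s)) := fun N =>
    isFiniteMeasure_withDensity_ofReal ((cw N).integrable_of_hasCompactSupport
      (HasCompactSupport.of_compactSpace _)).2
  let ν : ℕ → FiniteMeasure UnitAddCircle := fun N => ⟨_, fin N⟩
  have hν : ∀ N, (ν N).mass ≤ 1 := by
    intro N
    have h := key N 0
    simp only [Nat.cast_zero, fourier_zero, integral_const, Complex.real_smul, mul_one,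
      Nat.sub_zero] at h
    have h1 : ‖c 0 0‖ ≤ 1 := by
      simpa [c] using norm_integral_le_of_norm_le_const (μ := μ) (Eventually.of_forall (bc 0 0))
    have h2 := congrArg norm h
    rw [Complex.norm_real, Real.norm_eq_abs, abs_of_nonneg measureReal_nonneg, norm_mul, norm_mul,
      norm_inv, Complex.norm_natCast] at h2
    have h3 : (N : ℝ)⁻¹ * N ≤ 1 := inv_mul_le_one_of_le₀ le_rfl (Nat.cast_nonneg _)
    have h4 : ((ν N).mass : ℝ) ≤ 1 := by
      change Measure.real _ _ ≤ _
      exact h2.trans_le (mul_le_one₀ h3 (norm_nonneg _) h1)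
    exact_mod_cast h4
  obtain ⟨σ, -, hσ⟩ := (isCompact_setOfPred_finiteMeasure_le_of_compactSpace UnitAddCircle
    1).ultrafilter_le_nhds' ((hyperfilter ℕ).map ν) (Ultrafilter.mem_map.2 (univ_mem' hν))
  refine ⟨σ, inferInstance, fun m => ?_⟩
  have h1 := (FiniteMeasure.tendsto_iff_forall_integral_rclike_tendsto ℂ).1 hσ
    (BoundedContinuousFunction.mkOfCompact (fourier m))
  have h2 : Tendsto (fun N : ℕ => (N : ℂ)⁻¹ * ((N - m : ℕ) : ℂ) * c m 0) atTop (𝓝 (c m 0)) := by
    have : Tendsto (fun N : ℕ => (1 - (N : ℂ)⁻¹ * m) * c m 0) atTop (𝓝 ((1 - 0 * m) * c m 0)) :=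
      ((tendsto_inv_atTop_nhds_zero_nat.mul_const _).const_sub _).mul_const _
    rw [zero_mul, sub_zero, one_mul] at this
    refine this.congr' ?_
    filter_upwards [eventually_ge_atTop m, eventually_gt_atTop 0] with N h h'
    have : (N : ℂ) ≠ 0 := by exact_mod_cast h'.ne'
    rw [Nat.cast_sub h]; field_simp
  simp only [← key] at h2
  exact tendsto_nhds_unique h1 (h2.mono_left Nat.hyperfilter_le_atTop)

lemma measure_eq_of_fourier {σ σ' : Measure UnitAddCircle} [IsFiniteMeasure σ]
    [IsFiniteMeasure σ'] (h : ∀ n : ℕ, ∫ s, fourier (n : ℤ) s ∂σ = ∫ s, fourier (n : ℤ) s ∂σ') :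
    σ = σ' := by
  have h' : ∀ n : ℤ, ∫ s, fourier n s ∂σ = ∫ s, fourier n s ∂σ' := by
    intro n
    obtain ⟨m, rfl | rfl⟩ := n.eq_nat_or_neg
    · exact h m
    · rw [integral_fourier_neg, integral_fourier_neg, h]
  ext A hA
  have := setIntegral_eq_of_dense (Z := UnitAddCircle) fourier span_fourier_closure_eq_top
    measurable_id measurable_id (integrable_const (μ := σ) (1 : ℂ))
    (integrable_const (μ := σ') (1 : ℂ)) (by simpa using h') A hA
  simp only [Set.preimage_id, setIntegral_const, Complex.real_smul, mul_one,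
    Complex.ofReal_inj] at this
  exact (measureReal_eq_measureReal_iff (measure_ne_top _ _) (measure_ne_top _ _)).1 this

lemma mixture_null {Y : Type*} [MeasurableSpace Y] (ν : Measure Y) [IsProbabilityMeasure ν]
    (τ : Y → Measure UnitAddCircle) [∀ y, IsFiniteMeasure (τ y)] (hτ : ∀ y, (τ y).real Set.univ ≤ 1)
    (σ : Measure UnitAddCircle) [IsFiniteMeasure σ]
    (h : ∀ n : ℕ, AEStronglyMeasurable (fun y => ∫ s, fourier (n : ℤ) s ∂τ y) ν ∧
      ∫ y, ∫ s, fourier (n : ℤ) s ∂τ y ∂ν = ∫ s, fourier (n : ℤ) s ∂σ)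
    {R : Set UnitAddCircle} (hR : σ R = 0) : ∀ᵐ y ∂ν, τ y R = 0 := by
  let Q : (UnitAddCircle → ℂ) → Prop := fun φ =>
    AEStronglyMeasurable (fun y => ∫ s, φ s ∂τ y) ν ∧ ∫ y, ∫ s, φ s ∂τ y ∂ν = ∫ s, φ s ∂σ
  have hb : ∀ {φ : UnitAddCircle → ℂ} {C : ℝ}, (∀ s, ‖φ s‖ ≤ C) → ∀ y, ‖∫ s, φ s ∂τ y‖ ≤ C := by
    intro φ C hφ y
    exact (norm_integral_le_of_norm_le_const (Eventually.of_forall hφ)).trans
      (mul_le_of_le_one_right ((norm_nonneg _).trans (hφ 0)) (hτ y))
  have Qlim : ∀ (φ : ℕ → UnitAddCircle → ℂ) (ψ : UnitAddCircle → ℂ) (C : ℝ),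
      (∀ n, Measurable (φ n)) → (∀ n s, ‖φ n s‖ ≤ C) →
      (∀ s, Tendsto (fun n => φ n s) atTop (𝓝 (ψ s))) → (∀ n, Q (φ n)) → Q ψ := by
    intro φ ψ C hm hC hl hQ
    have t : ∀ (ρ : Measure UnitAddCircle) [IsFiniteMeasure ρ],
        Tendsto (fun n => ∫ s, φ n s ∂ρ) atTop (𝓝 (∫ s, ψ s ∂ρ)) := fun ρ _ =>
      tendsto_integral_of_dominated_convergence (fun _ => C)
        (fun n => (hm n).aestronglyMeasurable) (integrable_const _)
        (fun n => Eventually.of_forall (hC n)) (Eventually.of_forall hl)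
    refine ⟨aestronglyMeasurable_of_tendsto_ae atTop (fun n => (hQ n).1)
      (Eventually.of_forall fun y => t (τ y)), ?_⟩
    have t2 := tendsto_integral_of_dominated_convergence (μ := ν) (fun _ => C)
      (fun n => (hQ n).1) (integrable_const _)
      (fun n => Eventually.of_forall (hb (hC n))) (Eventually.of_forall fun y => t (τ y))
    simp only [fun n => (hQ n).2] at t2
    exact tendsto_nhds_unique t2 (t σ)
  have Qlin : ∀ (φ ψ : UnitAddCircle → ℂ) (a C D : ℝ) (c : ℂ), Measurable φ → Measurable ψ →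
      (∀ s, ‖φ s‖ ≤ C) → (∀ s, ‖ψ s‖ ≤ D) → Q φ → Q ψ → Q fun s => φ s + c * ψ s := by
    intro φ ψ _ C D c hφ hψ bφ bψ qφ qψ
    have e : ∀ (ρ : Measure UnitAddCircle) [IsFiniteMeasure ρ],
        ∫ s, (φ s + c * ψ s) ∂ρ = ∫ s, φ s ∂ρ + c * ∫ s, ψ s ∂ρ := fun ρ _ => by
      rw [integral_add (integrable_bdd hφ bφ) ((integrable_bdd hψ bψ).const_mul c),
        integral_const_mul]
    simp only [Q, e]
    refine ⟨qφ.1.add (qψ.1.const_mul c), ?_⟩
    rw [integral_add (Integrable.of_bound qφ.1 C (Eventually.of_forall (hb bφ)))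
      ((Integrable.of_bound qψ.1 D (Eventually.of_forall (hb bψ))).const_mul c),
      integral_const_mul, qφ.2, qψ.2]
  have Q0 : Q fun _ => 0 := by simp [Q, aestronglyMeasurable_const]
  have Qf : ∀ n : ℤ, Q (fourier n) := by
    intro n
    obtain ⟨m, rfl | rfl⟩ := n.eq_nat_or_neg
    · exact h m
    · simp only [Q, integral_fourier_neg]
      exact ⟨Complex.continuous_conj.comp_aestronglyMeasurable (h m).1, by
        rw [integral_conj, (h m).2]⟩
  have Qs : ∀ ψ ∈ Submodule.span ℂ (Set.range (@fourier 1)), Q ψ := by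
    intro ψ hψ
    induction hψ using Submodule.span_induction with
    | mem x hx => obtain ⟨n, rfl⟩ := hx; exact Qf n
    | zero => exact Q0
    | add x y _ _ hx hy =>
      have := Qlin x y 0 _ _ 1 x.continuous.measurable y.continuous.measurable
        x.norm_coe_le_norm y.norm_coe_le_norm hx hy
      simp only [one_mul] at this
      exact this
    | smul a x _ hx =>
      have := Qlin (fun _ => 0) x 0 0 _ a measurable_const x.continuous.measurable
        (by simp) x.norm_coe_le_norm Q0 hx
      simp only [zero_add] at this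
      exact this
  have Qc : ∀ ψ : C(UnitAddCircle, ℂ), Q ψ := by
    intro ψ
    have hψ : ψ ∈ closure (Submodule.span ℂ (Set.range (@fourier 1)) : Set C(UnitAddCircle, ℂ)) := by
      rw [← Submodule.topologicalClosure_coe, span_fourier_closure_eq_top]; trivial
    obtain ⟨φ, hφ, hl⟩ := mem_closure_iff_seq_limit.1 hψ
    obtain ⟨C, hC⟩ := (Metric.isBounded_range_of_tendsto φ hl).exists_norm_le
    exact Qlim (fun n => φ n) ψ C (fun n => (φ n).continuous.measurable)
      (fun n s => ((φ n).norm_coe_le_norm s).trans (hC _ ⟨n, rfl⟩))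
      (fun s => ((continuous_eval_const s).tendsto ψ).comp hl) fun n => Qs _ (hφ n)
  have Qo : ∀ U : Set UnitAddCircle, IsOpen U → Q (U.indicator fun _ => 1) := by
    intro U hU
    have hpos : ∀ n : ℕ, (0 : ℝ) < 1 / ((n : ℝ) + 1) := fun n => by positivity
    have hl := thickenedIndicator_tendsto_indicator_closure hpos
      tendsto_one_div_add_atTop_nhds_zero_nat Uᶜ
    rw [hU.isClosed_compl.closure_eq, tendsto_pi_nhds] at hl
    refine Qlim (fun n z => 1 - ((thickenedIndicator (hpos n) Uᶜ z : ℝ) : ℂ)) _ 2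
      (fun n => Continuous.measurable (by fun_prop)) (fun n z => ?_) (fun z => ?_)
      fun n => Qc ⟨fun z => 1 - ((thickenedIndicator (hpos n) Uᶜ z : ℝ) : ℂ), by fun_prop⟩
    · refine (norm_sub_le _ _).trans ?_
      have : ((thickenedIndicator (hpos n) Uᶜ z : ℝ≥0) : ℝ) ≤ 1 := by
        exact_mod_cast thickenedIndicator_le_one (hpos n) Uᶜ z
      simp only [norm_one, Complex.norm_real, Real.norm_eq_abs, NNReal.abs_eq]
      linarith
    · have := ((Complex.continuous_ofReal.tendsto _).comp
        ((NNReal.continuous_coe.tendsto _).comp (hl z))).const_sub 1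
      have e : U.indicator (fun _ => (1 : ℂ)) z =
          1 - (((Uᶜ.indicator (fun _ => (1 : ℝ≥0)) z : ℝ≥0) : ℝ) : ℂ) := by
        by_cases hz : z ∈ U <;> simp [hz]
      rw [e]
      exact this
  have hU : ∀ U : Set UnitAddCircle, IsOpen U →
      Integrable (fun y => (τ y).real U) ν ∧ ∫ y, (τ y).real U ∂ν = σ.real U := by
    intro U hU
    have := Qo U hU
    simp only [Q, integral_indicator hU.measurableSet, setIntegral_const, Complex.real_smul,
      mul_one, integral_complex_ofReal, Complex.ofReal_inj] at this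
    refine ⟨Integrable.of_bound (Complex.continuous_re.comp_aestronglyMeasurable this.1) 1
      (Eventually.of_forall fun y => ?_), this.2⟩
    rw [Real.norm_eq_abs, abs_of_nonneg measureReal_nonneg]
    exact (measureReal_mono (Set.subset_univ _)).trans (hτ y)
  have hδ : ∀ δ > 0, ν {y | δ ≤ (τ y).real R} = 0 := by
    intro δ hδ
    rw [← measureReal_eq_zero_iff (measure_ne_top _ _)]
    refine le_antisymm (le_of_forall_pos_le_add fun ε hε => ?_) measureReal_nonneg
    obtain ⟨U, hRU, hUo, hUm⟩ := R.exists_isOpen_lt_of_lt (μ := σ) (ENNReal.ofReal (δ * ε))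
      (by rw [hR]; simpa using mul_pos hδ hε)
    have h1 := mul_meas_ge_le_integral_of_nonneg
      (Eventually.of_forall fun y => measureReal_nonneg) (hU U hUo).1 δ
    rw [(hU U hUo).2] at h1
    have h2 : σ.real U ≤ δ * ε := ENNReal.toReal_le_of_le_ofReal (by positivity) hUm.le
    have h3 : ν.real {y | δ ≤ (τ y).real R} ≤ ν.real {y | δ ≤ (τ y).real U} :=
      measureReal_mono fun y hy => le_trans hy (measureReal_mono hRU)
    have := le_of_mul_le_mul_left (h1.trans h2) hδ
    linarith
  have : ∀ᵐ y ∂ν, ∀ n : ℕ, y ∉ {y | 1 / ((n : ℝ) + 1) ≤ (τ y).real R} :=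
    ae_all_iff.2 fun n => measure_eq_zero_iff_ae_notMem.1 (hδ _ (by positivity))
  filter_upwards [this] with y hy
  by_contra hne
  obtain ⟨n, hn⟩ := exists_nat_one_div_lt (ENNReal.toReal_pos hne (measure_ne_top _ _))
  exact hy n hn.le

lemma measurableSet_image_nsmul {j : ℕ} (hj : 0 < j) {S : Set UnitAddCircle}
    (hS : MeasurableSet S) : MeasurableSet ((fun s => j • s) '' S) := by
  let r : UnitAddCircle → UnitAddCircle := fun t =>
    (((AddCircle.measurableEquivIoc 1 0 t : ℝ) / j : ℝ) : UnitAddCircle)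
  have hr : Measurable r := AddCircle.measurable_mk'.comp
    ((measurable_subtype_coe.comp (AddCircle.measurableEquivIoc 1 0).measurable).div_const _)
  have er : ∀ t, j • r t = t := fun t => by
    have hj' : (j : ℝ) ≠ 0 := by exact_mod_cast hj.ne'
    simp only [r]
    rw [← AddCircle.coe_nsmul, nsmul_eq_mul, mul_div_cancel₀ _ hj']
    exact AddCircle.coe_equivIoc
  have : (fun s => j • s) '' S =
      r ⁻¹' ⋃ u ∈ {u : UnitAddCircle | j • u = 0}, (fun x => x + u) ⁻¹' S := by
    ext t
    simp only [Set.mem_image, Set.mem_preimage, Set.mem_iUnion, Set.mem_ofPred_eq, exists_prop]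
    constructor
    · rintro ⟨s, hs, rfl⟩
      exact ⟨s - r (j • s), by rw [smul_sub, er, sub_self], by simpa using hs⟩
    · rintro ⟨u, hu, hs⟩
      exact ⟨_, hs, by rw [smul_add, er, hu, add_zero]⟩
  rw [this]
  exact hr (MeasurableSet.biUnion (AddCircle.finite_torsion 1 hj).countable
    fun u _ => measurable_add_const u hS)

lemma mp_nsmul {j : ℕ} (hj : 0 < j) :
    MeasurePreserving (fun s : UnitAddCircle => j • s) volume volume := by
  have := Measure.measurePreserving_zsmul (volume : Measure UnitAddCircle) (n := j)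
    (by exact_mod_cast hj.ne')
  simpa using this

lemma null_image {H : Type*} [AddCommGroup H] [MeasurableSpace H] [MeasurableAdd H]
    {lam : Measure H} [lam.IsAddRightInvariant] (π : H →+ H) (hπ : MeasurePreserving π lam lam)
    (hk : {u | π u = 0}.Countable) {N M : Set H} (hN : lam N = 0) (hM : MeasurableSet M)
    (h : M ⊆ π '' N) : lam M = 0 := by
  rw [← hπ.measure_preimage hM.nullMeasurableSet]
  refine measure_mono_null (t := ⋃ u ∈ {u | π u = 0}, (fun x => x + u) ⁻¹' N) (fun x hx => ?_)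
    ((measure_biUnion_null_iff hk).2 fun u _ => by rw [measure_preimage_add_right, hN])
  obtain ⟨n, hn, e⟩ := h hx
  exact Set.mem_biUnion (x := n - x) (by simp [e]) (by simpa using hn)

lemma singular_map {j : ℕ} (hj : 0 < j) {σ : Measure UnitAddCircle} {S : Set UnitAddCircle}
    (hS : MeasurableSet S) (h : σ.restrict Sᶜ ⟂ₘ volume) :
    (σ.map fun s => j • s).restrict ((fun s => j • s) '' S)ᶜ ⟂ₘ volume := by
  obtain ⟨N, hN, h1, h2⟩ := h.symm
  have hN' := measurableSet_image_nsmul hj hN
  refine Measure.MutuallySingular.symm ⟨_, hN', null_image (nsmulAddMonoidHom j) (mp_nsmul hj)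
    (AddCircle.finite_torsion 1 hj).countable h1 hN' le_rfl, ?_⟩
  rw [Measure.restrict_apply hN'.compl, Measure.map_apply (mp_nsmul hj).measurable
    (hN'.compl.inter (measurableSet_image_nsmul hj hS).compl)]
  rw [Measure.restrict_apply hN.compl] at h2
  refine measure_mono_null (fun s hs => ?_) h2
  exact ⟨fun h => hs.1 ⟨s, h, rfl⟩, fun h => hs.2 ⟨s, h, rfl⟩⟩

lemma nonres_transfer {S₁ S₂ S₃ : Set UnitAddCircle} (hS₁ : MeasurableSet S₁)
    (hS₂ : MeasurableSet S₂) (hS₃ : MeasurableSet S₃)
    (hn : ((volume : Measure UnitAddCircle).prod (volume : Measure UnitAddCircle))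
      {p | -(2 • p.1) - 3 • p.2 ∈ S₁ ∧ p.1 ∈ S₂ ∧ p.2 ∈ S₃} = 0) :
    ((volume : Measure UnitAddCircle).prod (volume : Measure UnitAddCircle))
      {p | p.1 ∈ (fun s => 1 • s) '' S₁ ∧ p.2 ∈ (fun s => 2 • s) '' S₂ ∧
        -p.1 - p.2 ∈ (fun s => 3 • s) '' S₃} = 0 := by
  have m₂ := measurableSet_image_nsmul two_pos hS₂
  have m₃ := measurableSet_image_nsmul three_pos hS₃
  have hE : MeasurableSet {p : UnitAddCircle × UnitAddCircle | -p.1 - p.2 ∈ S₁ ∧
      p.1 ∈ (fun s => 2 • s) '' S₂ ∧ p.2 ∈ (fun s => 3 • s) '' S₃} :=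
    ((measurable_fst.neg.sub measurable_snd) hS₁).inter
      ((measurable_fst m₂).inter (measurable_snd m₃))
  have h1 := null_image ((nsmulAddMonoidHom 2).prodMap (nsmulAddMonoidHom 3))
    ((mp_nsmul two_pos).prod (mp_nsmul three_pos))
    (((AddCircle.finite_torsion 1 two_pos).prod
      (AddCircle.finite_torsion 1 three_pos)).countable.mono fun u hu => by
        simpa [Prod.ext_iff] using hu) hn hE (by
      rintro ⟨_, _⟩ ⟨h1, ⟨s, hs, rfl⟩, ⟨t, ht, rfl⟩⟩
      exact ⟨(s, t), ⟨h1, hs, ht⟩, rfl⟩)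
  have h2 := Measure.measure_ae_null_of_prod_null h1
  simp only [one_smul, Set.image_id']
  have hE' : MeasurableSet {p : UnitAddCircle × UnitAddCircle | p.1 ∈ S₁ ∧
      p.2 ∈ (fun s => 2 • s) '' S₂ ∧ -p.1 - p.2 ∈ (fun s => 3 • s) '' S₃} :=
    (measurable_fst hS₁).inter ((measurable_snd m₂).inter
      ((measurable_fst.neg.sub measurable_snd) m₃))
  rw [Measure.prod_apply_symm hE']
  refine (lintegral_congr_ae ?_).trans lintegral_zero
  filter_upwards [h2] with t ht
  have := (Measure.measurePreserving_sub_left volume (-t)).quasiMeasurePreserving.preimage_null ht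
  refine measure_mono_null (fun s hs => ?_) this
  have e1 : -t - (-t - s) = s := by abel
  have e2 : -t - s = -s - t := by abel
  simp only [Set.mem_preimage, Set.mem_ofPred_eq] at hs ⊢
  rw [e1, e2]
  exact hs

end Pool.Agent.Lib.MP_9721b5_an.Sing
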