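import Mathlib

/-!
Approximate stabilisers of a finite measure on the circle.  A non atomic measure which charges
most translates of one of its own approximate stabilisers is not singular.
-/

set_option autoImplicit false

open MeasureTheory Set Filter Topology

namespace Pool.Agent.Lib.MP_9721b5_an.Sing

/-- approximate stabiliser -/
def V (α : Measure UnitAddCircle) (r : ℝ) : Set UnitAddCircle :=
  {v | ∀ A, MeasurableSet A → α.real ((fun x => x + v) ⁻¹' A) ≤ α.real A + r}

variable {α : Measure UnitAddCircle} [IsFiniteMeasure α]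

omit [IsFiniteMeasure α] in
lemma V_mono {r r' : ℝ} (h : r ≤ r') : V α r ⊆ V α r' := fun _ hv A hA =>
  (hv A hA).trans (by linarith)

omit [IsFiniteMeasure α] in
lemma zero_mem_V {r : ℝ} (h : 0 ≤ r) : (0 : UnitAddCircle) ∈ V α r := fun A _ => by
  simpa using h

omit [IsFiniteMeasure α] in
lemma add_mem_V {r r' : ℝ} {v w : UnitAddCircle} (hv : v ∈ V α r) (hw : w ∈ V α r') :
    v + w ∈ V α (r + r') := fun A hA => by
  have h1 := hw A hA
  have h2 := hv ((fun x => x + w) ⁻¹' A) (measurable_add_const w hA)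
  have : (fun x => x + (v + w)) ⁻¹' A = (fun x => x + v) ⁻¹' ((fun x => x + w) ⁻¹' A) := by
    ext x; simp [add_assoc]
  rw [this]; linarith

lemma neg_mem_V {r : ℝ} {v : UnitAddCircle} (hv : v ∈ V α r) : -v ∈ V α r := fun A hA => by
  have hB : MeasurableSet ((fun x => x + -v) ⁻¹' A) := measurable_add_const _ hA
  have h := hv _ hB.compl
  have e : (fun x => x + v) ⁻¹' ((fun x => x + -v) ⁻¹' A)ᶜ = Aᶜ := by
    ext x; simp
  rw [e, measureReal_compl hA, measureReal_compl hB] at h
  linarith

lemma sub_mem_V {r r' : ℝ} {v w : UnitAddCircle} (hv : v ∈ V α r) (hw : w ∈ V α r') :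
    v - w ∈ V α (r + r') := by
  rw [sub_eq_add_neg]; exact add_mem_V hv (neg_mem_V hw)

lemma le_of_mem_V {r : ℝ} {v : UnitAddCircle} (hv : v ∈ V α r) {A : Set UnitAddCircle}
    (hA : MeasurableSet A) : α.real A ≤ α.real ((fun x => x + v) ⁻¹' A) + r := by
  have h := neg_mem_V hv _ (measurable_add_const v hA)
  have e : (fun x => x + -v) ⁻¹' ((fun x => x + v) ⁻¹' A) = A := by
    ext x; simp
  rwa [e] at h

lemma isClosed_V (r : ℝ) : IsClosed (V α r) := by
  refine IsSeqClosed.isClosed fun u v hu huv A hA => ?_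
  refine le_of_forall_pos_le_add fun δ hδ => ?_
  obtain ⟨U, hAU, hU, hUm⟩ := A.exists_isOpen_lt_add (μ := α) (measure_ne_top _ _)
    (ε := ENNReal.ofReal δ) (by simpa using hδ)
  have hU' : α.real U ≤ α.real A + δ := by
    have := ENNReal.toReal_mono (by finiteness) hUm.le
    rwa [ENNReal.toReal_add (by finiteness) (by finiteness), ENNReal.toReal_ofReal hδ.le] at this
  let S : ℕ → Set UnitAddCircle := fun N => ⋂ n ≥ N, (fun x => x + u n) ⁻¹' U
  have hS : Monotone S := fun N M h => biInter_subset_biInter_left fun n hn => le_trans h hn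
  have hsub : (fun x => x + v) ⁻¹' A ⊆ ⋃ N, S N := by
    intro x hx
    have : ∀ᶠ n in atTop, x + u n ∈ U := (huv.const_add x).eventually (hU.mem_nhds (hAU hx))
    obtain ⟨N, hN⟩ := eventually_atTop.1 this
    exact mem_iUnion.2 ⟨N, mem_iInter₂.2 fun n hn => hN n hn⟩
  have hlim := tendsto_measure_iUnion_atTop (μ := α) hS
  have hlim' := (ENNReal.tendsto_toReal (measure_ne_top α _)).comp hlim
  have hb : ∀ N, α.real (S N) ≤ α.real U + r := fun N =>
    (measureReal_mono (biInter_subset_of_mem (show N ∈ {n | n ≥ N} from le_refl N))).trans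
      (hu N U hU.measurableSet)
  have : α.real (⋃ N, S N) ≤ α.real U + r := le_of_tendsto' hlim' hb
  have := (measureReal_mono hsub (measure_ne_top _ _)).trans this
  linarith

lemma measurable_shift {B : Set UnitAddCircle} (hB : MeasurableSet B) :
    Measurable fun s => α ((fun x => x - s) ⁻¹' B) := by
  have : MeasurableSet {p : UnitAddCircle × UnitAddCircle | p.2 - p.1 ∈ B} :=
    (measurable_snd.sub measurable_fst) hB
  exact measurable_measure_prodMk_left this

/-- separated families in a large stabiliser have bounded size -/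
lemma card_bound {ε : ℝ} (hε : 0 < ε) (hm : 8 * ε < α.real univ)
    (hZ : α.real {s | α ((fun x => x - s) ⁻¹' V α ε) = 0} ≤ ε) :
    ∃ K : ℕ, ∀ F : Finset UnitAddCircle, (∀ v ∈ F, v ∈ V α (6 * ε)) →
      (∀ v ∈ F, ∀ w ∈ F, v ≠ w → v - w ∉ V α (2 * ε)) → F.card ≤ K := by
  set m := α.real univ with hmdef
  have hVm : MeasurableSet (V α ε) := (isClosed_V ε).measurableSet
  let φ : UnitAddCircle → ℝ := fun s => α.real ((fun x => x - s) ⁻¹' V α ε)
  have hφ : Measurable φ := (measurable_shift hVm).ennreal_toReal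
  let W : ℕ → Set UnitAddCircle := fun n => {s | 1 / ((n : ℝ) + 1) < φ s}
  have hWm : ∀ n, MeasurableSet (W n) := fun n => measurableSet_lt measurable_const hφ
  have hWmono : Monotone W := fun n k h s hs =>
    show 1 / ((k : ℝ) + 1) < φ s from lt_of_le_of_lt (Nat.one_div_le_one_div h) hs
  have hU : ⋃ n, W n = {s | α ((fun x => x - s) ⁻¹' V α ε) = 0}ᶜ := by
    ext s
    simp only [mem_iUnion, mem_compl_iff, mem_ofPred_eq, W]
    constructor
    · rintro ⟨n, hn⟩ h0
      have : φ s = 0 := by simp [φ, Measure.real, h0]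
      rw [this] at hn
      have : (0 : ℝ) < 1 / ((n : ℝ) + 1) := by positivity
      linarith
    · intro h
      have : 0 < φ s := ENNReal.toReal_pos h (measure_ne_top _ _)
      exact exists_nat_one_div_lt this
  have hZm : MeasurableSet {s | α ((fun x => x - s) ⁻¹' V α ε) = 0} :=
    measurable_shift hVm (measurableSet_singleton 0)
  have hlim := (ENNReal.tendsto_toReal (measure_ne_top α _)).comp
    (tendsto_measure_iUnion_atTop (μ := α) hWmono)
  have hbig : m - 2 * ε < (α (⋃ n, W n)).toReal := by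
    change m - 2 * ε < α.real (⋃ n, W n)
    rw [hU, measureReal_compl hZm]; linarith
  obtain ⟨n, hn⟩ := (hlim.eventually (lt_mem_nhds hbig)).exists
  change m - 2 * ε < α.real (W n) at hn
  set η : ℝ := 1 / ((n : ℝ) + 1) with hη
  have hη0 : 0 < η := by positivity
  refine ⟨⌈m ^ 2 / (η * (m - 8 * ε))⌉₊, fun F hF hsep => ?_⟩
  -- pointwise bound
  have hpt : ∀ s, ∑ v ∈ F, η * ((fun x => x + v) ⁻¹' W n).indicator (fun _ => (1 : ℝ)) s ≤ m := by
    intro s
    have hd : (F : Set UnitAddCircle).PairwiseDisjoint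
        (fun v => (fun x => x - (s + v)) ⁻¹' V α ε) := by
      intro v hv w hw hvw
      refine Set.disjoint_left.2 fun x hx hx' => hsep v hv w hw hvw ?_
      have := sub_mem_V (α := α) hx' hx
      rw [two_mul]
      convert this using 1
      simp only []
      abel
    have h1 : ∑ v ∈ F, φ (s + v) ≤ m := by
      have := measureReal_biUnion_finset (μ := α) hd
        (fun v _ => measurable_sub_const _ hVm) (fun _ _ => measure_ne_top _ _)
      rw [← this]
      exact measureReal_mono (subset_univ _)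
    refine le_trans (Finset.sum_le_sum fun v _ => ?_) h1
    by_cases h : s + v ∈ W n
    · rw [indicator_of_mem (by simpa using h), mul_one]; exact le_of_lt h
    · rw [indicator_of_notMem (by simpa using h), mul_zero]; exact measureReal_nonneg
  have hint : ∀ v, Integrable (fun s =>
      η * ((fun x => x + v) ⁻¹' W n).indicator (fun _ => (1 : ℝ)) s) α := fun v =>
    ((integrable_const _).indicator (measurable_add_const v (hWm n))).const_mul _
  have h2 := integral_mono (integrable_finsetSum F fun v _ => hint v) (integrable_const m) hpt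
  rw [integral_finsetSum _ fun v _ => hint v, integral_const, smul_eq_mul, ← hmdef] at h2
  have h3 : ∑ _v ∈ F, η * (m - 8 * ε) ≤ m * m := by
    refine le_trans (Finset.sum_le_sum fun v hv => ?_) h2
    rw [integral_const_mul, integral_indicator (measurable_add_const v (hWm n)), setIntegral_const,
      smul_eq_mul, mul_one]
    have := le_of_mem_V (hF v hv) (hWm n)
    exact mul_le_mul_of_nonneg_left (by linarith) hη0.le
  rw [Finset.sum_const, nsmul_eq_mul] at h3
  have hpos : 0 < η * (m - 8 * ε) := mul_pos hη0 (by linarith)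
  have : (F.card : ℝ) ≤ m ^ 2 / (η * (m - 8 * ε)) := by
    rw [le_div_iff₀ hpos]; nlinarith
  exact_mod_cast this.trans (Nat.le_ceil _)

/-- near zero the large stabiliser is contained in a smaller one -/
lemma local_gap {ε : ℝ} (hε : 0 < ε) (hm : 8 * ε < α.real univ)
    (hZ : α.real {s | α ((fun x => x - s) ⁻¹' V α ε) = 0} ≤ ε) :
    ∃ r > 0, ∀ v : UnitAddCircle, ‖v‖ < r → v ∈ V α (6 * ε) → v ∈ V α (4 * ε) := by
  classical
  obtain ⟨K, hK⟩ := card_bound hε hm hZ
  let P : ℕ → Prop := fun k => ∃ F : Finset UnitAddCircle, (∀ v ∈ F, v ∈ V α (6 * ε)) ∧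
      (∀ v ∈ F, ∀ w ∈ F, v ≠ w → v - w ∉ V α (2 * ε)) ∧ F.card = k
  have hP0 : P 0 := ⟨∅, by simp, by simp, rfl⟩
  obtain ⟨F, hF, hsep, hcard⟩ : P (Nat.findGreatest P K) :=
    Nat.findGreatest_spec (Nat.zero_le K) hP0
  have hcov : ∀ v ∈ V α (6 * ε), ∃ c ∈ F, v - c ∈ V α (2 * ε) := by
    intro v hv
    by_contra hne
    push Not at hne
    have hvF : v ∉ F := fun h => hne v h (by simpa using zero_mem_V (by linarith))
    have h1 : ∀ w ∈ insert v F, w ∈ V α (6 * ε) := by
      intro w hw
      rcases Finset.mem_insert.1 hw with rfl | hw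
      exacts [hv, hF w hw]
    have h2 : ∀ a ∈ insert v F, ∀ b ∈ insert v F, a ≠ b → a - b ∉ V α (2 * ε) := by
      intro a ha b hb hab
      rcases Finset.mem_insert.1 ha with rfl | ha' <;> rcases Finset.mem_insert.1 hb with rfl | hb'
      · exact absurd rfl hab
      · exact hne b hb'
      · intro h
        exact hne a ha' (by simpa using neg_mem_V h)
      · exact hsep a ha' b hb' hab
    have h3 := hK _ h1 h2
    have h4 : P (F.card + 1) := ⟨insert v F, h1, h2, Finset.card_insert_of_notMem hvF⟩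
    rw [Finset.card_insert_of_notMem hvF] at h3
    have := Nat.le_findGreatest h3 h4
    omega
  have hev : ∀ᶠ v in 𝓝 (0 : UnitAddCircle), ∀ c ∈ F, -c ∉ V α (2 * ε) → v - c ∉ V α (2 * ε) := by
    refine (eventually_all_finset F).2 fun c _ => ?_
    by_cases hc : -c ∈ V α (2 * ε)
    · exact Eventually.of_forall fun v h => absurd hc h
    · have ho : IsOpen {v : UnitAddCircle | v - c ∉ V α (2 * ε)} :=
        ((isClosed_V (2 * ε)).preimage (continuous_sub_right c)).isOpen_compl
      filter_upwards [ho.mem_nhds (by simpa using hc)] with v hv _ using hv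
  obtain ⟨r, hr, hb⟩ := Metric.eventually_nhds_iff.1 hev
  refine ⟨r, hr, fun v hv hv6 => ?_⟩
  obtain ⟨c, hc, hvc⟩ := hcov v hv6
  have hc' : -c ∈ V α (2 * ε) := by
    by_contra h
    exact hb (by simpa using hv) c hc h hvc
  have := sub_mem_V hvc hc'
  have e : v - c - -c = v := by abel
  rw [e] at this
  exact V_mono (by linarith) this

lemma exists_close {S : Set UnitAddCircle} (hS : S.Infinite) {δ : ℝ} (hδ : 0 < δ) :
    ∃ v ∈ S, ∃ w ∈ S, v ≠ w ∧ ‖v - w‖ < δ := by
  obtain ⟨t, -, ht, hcov⟩ := finite_cover_balls_of_compact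
    (isCompact_univ (X := UnitAddCircle)) (half_pos hδ)
  have : ∀ x : UnitAddCircle, ∃ c ∈ t, x ∈ Metric.ball c (δ / 2) := fun x => by
    simpa using hcov (mem_univ x)
  choose c hc hx using this
  obtain ⟨v, hv, w, hw, hvw, he⟩ := hS.exists_ne_map_eq_of_mapsTo (f := c) (t := t)
    (fun x _ => hc x) ht
  refine ⟨v, hv, w, hw, hvw, ?_⟩
  have h1 := hx v
  have h2 := hx w
  rw [← he] at h2
  rw [← dist_eq_norm]
  have := dist_triangle_right v w (c v)
  rw [Metric.mem_ball] at h1 h2
  linarith

lemma exists_lift (v : UnitAddCircle) : ∃ y : ℝ, (y : UnitAddCircle) = v ∧ |y| = ‖v‖ := by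
  induction v using QuotientAddGroup.induction_on with
  | H x =>
    refine ⟨x - round x, ?_, ?_⟩
    · rw [AddCircle.coe_sub]
      have : ((round x : ℝ) : UnitAddCircle) = 0 := by
        rw [AddCircle.coe_eq_zero_iff]; exact ⟨round x, by simp⟩
      rw [this, sub_zero]
    · rw [UnitAddCircle.norm_eq]

lemma norm_coe_le (y : ℝ) : ‖(y : UnitAddCircle)‖ ≤ |y| := by
  rw [UnitAddCircle.norm_eq]
  simpa using round_le y 0

/-- the stabiliser lemma -/
theorem not_singular [NullSingletonClass α] {ε : ℝ} (hε : 0 < ε) (hm : 8 * ε < α.real univ)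
    (hZ : α.real {s | α ((fun x => x - s) ⁻¹' V α ε) = 0} ≤ ε) : ¬ α ⟂ₘ volume := by
  obtain ⟨r, hr, hgap⟩ := local_gap hε hm hZ
  have hinf : (V α ε).Infinite := by
    intro hfin
    have : {s | α ((fun x => x - s) ⁻¹' V α ε) = 0} = univ := by
      refine eq_univ_of_forall fun s => ?_
      exact (hfin.preimage (sub_left_injective.injOn)).measure_zero α
    rw [this] at hZ
    linarith
  -- nonnegative reals below r
  have hpos : ∀ y : ℝ, 0 ≤ y → y < r → (y : UnitAddCircle) ∈ V α (4 * ε) := by
    intro y hy hyr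
    rw [← (isClosed_V (α := α) (4 * ε)).closure_eq, Metric.mem_closure_iff]
    intro δ hδ
    obtain ⟨v, hv, w, hw, hvw, hd⟩ := exists_close hinf hδ
    have hvw2 : v - w ∈ V α (2 * ε) := by rw [two_mul]; exact sub_mem_V hv hw
    obtain ⟨u, hu, hun⟩ := exists_lift (v - w)
    have hu0 : u ≠ 0 := by
      rintro rfl
      exact hvw (sub_eq_zero.1 (by simpa using hu.symm))
    have hupos : 0 < |u| := abs_pos.2 hu0
    have huV : ((|u| : ℝ) : UnitAddCircle) ∈ V α (2 * ε) := by
      rcases abs_choice u with h | h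
      · rw [h, hu]; exact hvw2
      · rw [h, AddCircle.coe_neg, hu]; exact neg_mem_V hvw2
    have hmul : ∀ n : ℕ, n * |u| < r → ((n * |u| : ℝ) : UnitAddCircle) ∈ V α (4 * ε) := by
      intro n
      induction n with
      | zero => intro _; simpa using zero_mem_V (by linarith)
      | succ n ih =>
        intro h
        push_cast at h
        have h1 := add_mem_V (ih (by nlinarith)) huV
        rw [← AddCircle.coe_add] at h1
        have e : (n * |u| + |u| : ℝ) = ((n + 1 : ℕ) : ℝ) * |u| := by push_cast; ring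
        rw [e] at h1
        refine hgap _ ((norm_coe_le _).trans_lt ?_) (V_mono (by linarith) h1)
        rw [abs_of_nonneg (by positivity)]
        push_cast; exact h
    have hfl := Nat.floor_le (div_nonneg hy hupos.le)
    have hfl2 := Nat.lt_floor_add_one (y / |u|)
    rw [le_div_iff₀ hupos] at hfl
    rw [div_lt_iff₀ hupos] at hfl2
    refine ⟨_, hmul ⌊y / |u|⌋₊ (by linarith), ?_⟩
    rw [dist_eq_norm, ← AddCircle.coe_sub]
    refine (norm_coe_le _).trans_lt ?_
    rw [abs_of_nonneg (by linarith)]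
    linarith
  have hball : Metric.ball (0 : UnitAddCircle) r ⊆ V α (4 * ε) := by
    intro v hv
    obtain ⟨y, hy, hyn⟩ := exists_lift v
    rw [mem_ball_zero_iff, ← hyn] at hv
    have := hpos |y| (abs_nonneg y) hv
    rcases abs_choice y with h | h
    · rwa [h, hy] at this
    · rw [h, AddCircle.coe_neg, hy] at this
      simpa using neg_mem_V this
  rintro ⟨N, hN, hαN, hvN⟩
  have hE : MeasurableSet {p : UnitAddCircle × UnitAddCircle | p.1 + p.2 ∈ Nᶜ} :=
    (measurable_fst.add measurable_snd) hN.compl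
  have h0 : (α.prod volume) {p : UnitAddCircle × UnitAddCircle | p.1 + p.2 ∈ Nᶜ} = 0 := by
    refine Measure.measure_prod_null_of_ae_null hE (Eventually.of_forall fun s => ?_)
    change volume ((fun v => s + v) ⁻¹' Nᶜ) = 0
    rw [measure_preimage_add, hvN]
  rw [Measure.prod_apply_symm hE, lintegral_eq_zero_iff (measurable_measure_prodMk_right hE)] at h0
  have hpos' : volume (Metric.ball (0 : UnitAddCircle) r) ≠ 0 :=
    (Metric.measure_ball_pos _ _ hr).ne'
  obtain ⟨v, hv, hv0⟩ := Measure.exists_mem_of_measure_ne_zero_of_ae hpos' (ae_restrict_of_ae h0)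
  have h1 := le_of_mem_V (hball hv) hN.compl
  have h2 : α.real ((fun x => x + v) ⁻¹' Nᶜ) = 0 := by
    have : α ((fun x => x + v) ⁻¹' Nᶜ) = 0 := hv0
    rw [Measure.real, this]; rfl
  have h3 : α.real N = 0 := by simp [Measure.real, hαN]
  rw [h2, measureReal_compl hN, h3] at h1
  linarith

end Pool.Agent.Lib.MP_9721b5_an.Sing
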