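import Pool.Agent.Lib.MP_9721b5_an.Tools

/-!
Averages along measurable stopping times, tested against bounded weights.
-/

set_option autoImplicit false

open MeasureTheory Filter Topology Finset ComplexConjugate
open Pool.Agent.Shared.Ergodic

namespace Pool.Agent.Lib.MP_9721b5_an.Sing

/-- Cesaro average -/
noncomputable def av (a : ℕ → ℂ) (N : ℕ) : ℂ := (N : ℂ)⁻¹ * ∑ n ∈ range N, a n

lemma norm_av_le {a : ℕ → ℂ} {C : ℝ} (h : ∀ n, ‖a n‖ ≤ C) (N : ℕ) : ‖av a N‖ ≤ C := by
  have hC : 0 ≤ C := (norm_nonneg _).trans (h 0)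
  rw [av, norm_mul, norm_inv, Complex.norm_natCast]
  have : ‖∑ n ∈ range N, a n‖ ≤ N * C :=
    (norm_sum_le _ _).trans ((sum_le_sum fun n _ => h n).trans (by simp))
  rcases Nat.eq_zero_or_pos N with rfl | hN
  · simpa using hC
  · rw [inv_mul_le_iff₀ (by exact_mod_cast hN)]; exact this

lemma av_shift {a : ℕ → ℂ} {C : ℝ} (h : ∀ n, ‖a n‖ ≤ C) (N : ℕ) :
    ‖av (fun n => a (n + 1)) N - av a N‖ ≤ 2 * C * (N : ℝ)⁻¹ := by
  have e : ∑ n ∈ range N, a (n + 1) - ∑ n ∈ range N, a n = a N - a 0 := by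
    rw [← sum_sub_distrib, sum_range_sub]
  rw [av, av, ← mul_sub, e, norm_mul, norm_inv, Complex.norm_natCast, mul_comm]
  gcongr
  exact (norm_sub_le _ _).trans (by linarith [h N, h 0])

lemma tendsto_av_shift {a : ℕ → ℂ} {C : ℝ} (h : ∀ n, ‖a n‖ ≤ C) :
    Tendsto (fun N => av (fun n => a (n + 1)) N - av a N) atTop (𝓝 0) :=
  squeeze_zero_norm (av_shift h) (by simpa using tendsto_inv_atTop_nhds_zero_nat.const_mul (2 * C))

lemma norm_av_sq_le (a : ℕ → ℂ) (N : ℕ) :
    ‖av a N‖ ^ 2 ≤ (N : ℝ)⁻¹ * ∑ n ∈ range N, ‖a n‖ ^ 2 := by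
  rcases Nat.eq_zero_or_pos N with rfl | hN
  · simp [av]
  have hN' : (0 : ℝ) < N := by exact_mod_cast hN
  rw [av, norm_mul, norm_inv, Complex.norm_natCast, mul_pow]
  have h1 : ‖∑ n ∈ range N, a n‖ ^ 2 ≤ N * ∑ n ∈ range N, ‖a n‖ ^ 2 := by
    refine (pow_le_pow_left₀ (norm_nonneg _) (norm_sum_le _ _) 2).trans ?_
    simpa using sq_sum_le_card_mul_sum_sq (s := range N) (f := fun n => ‖a n‖)
  calc (N : ℝ)⁻¹ ^ 2 * ‖∑ n ∈ range N, a n‖ ^ 2
      ≤ (N : ℝ)⁻¹ ^ 2 * (N * ∑ n ∈ range N, ‖a n‖ ^ 2) := by gcongr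
    _ = _ := by field_simp

lemma av_sum {ι : Type*} (s : Finset ι) (c : ι → ℂ) (a : ι → ℕ → ℂ) (N : ℕ) :
    av (fun n => ∑ i ∈ s, c i * a i n) N = ∑ i ∈ s, c i * av (a i) N := by
  simp only [av, mul_sum]
  rw [sum_comm]
  refine sum_congr rfl fun i _ => sum_congr rfl fun n _ => by ring

lemma av_ofReal (a : ℕ → ℝ) (N : ℕ) :
    av (fun n => (a n : ℂ)) N = (((N : ℝ)⁻¹ * ∑ n ∈ range N, a n : ℝ) : ℂ) := by
  simp [av]

variable {X : Type*} [MeasurableSpace X] {μ : Measure X}

/-- a bounded measurable sequence of functions -/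
structure Bd (G : ℕ → X → ℂ) (C : ℝ) : Prop where
  meas : ∀ n, Measurable (G n)
  le : ∀ n x, ‖G n x‖ ≤ C

lemma measurable_av {G : ℕ → X → ℂ} (h : ∀ n, Measurable (G n)) (N : ℕ) :
    Measurable fun x => av (fun n => G n x) N :=
  measurable_const.mul (Finset.measurable_sum _ fun n _ => h n)

lemma measurable_av_stop {G : ℕ → X → ℂ} (h : ∀ n, Measurable (G n)) {N : X → ℕ}
    (hN : Measurable N) : Measurable fun x => av (fun n => G n x) (N x) := by
  have h1 : Measurable fun p : X × ℕ => av (fun n => G n p.1) p.2 :=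
    measurable_from_prod_countable_left fun M => measurable_av h M
  have h2 : Measurable fun x => (x, N x) := measurable_id.prodMk hN
  exact Measurable.comp (g := fun p : X × ℕ => av (fun n => G n p.1) p.2)
    (f := fun x => (x, N x)) h1 h2

lemma integrable_bdd [IsFiniteMeasure μ] {f : X → ℂ} (hf : Measurable f) {C : ℝ}
    (h : ∀ x, ‖f x‖ ≤ C) : Integrable f μ :=
  Integrable.of_bound hf.aestronglyMeasurable C (Eventually.of_forall h)

lemma integral_comp_mp {T : X → X} (hT : MeasurePreserving T μ μ) {v : X → ℂ} (hv : Measurable v) :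
    ∫ x, v (T x) ∂μ = ∫ x, v x ∂μ := by
  rw [← integral_map hT.measurable.aemeasurable hv.aestronglyMeasurable, hT.map_eq]

/-- two stopping times and a weight -/
structure Stop (X : Type*) [MeasurableSpace X] where
  N : ℕ → X → ℕ
  M : ℕ → X → ℕ
  w : ℕ → X → ℂ
  mN : ∀ k, Measurable (N k)
  mM : ∀ k, Measurable (M k)
  mw : ∀ k, Measurable (w k)
  leN : ∀ k x, k ≤ N k x
  leM : ∀ k x, k ≤ M k x
  bw : ∀ k x, ‖w k x‖ ≤ 2

/-- integrand of the tested oscillation -/
noncomputable def Stop.osc (S : Stop X) (G : ℕ → X → ℂ) (k : ℕ) (x : X) : ℂ :=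
  S.w k x * (av (fun n => G n x) (S.N k x) - av (fun n => G n x) (S.M k x))

/-- tested oscillation -/
noncomputable def Stop.lam (S : Stop X) (μ : Measure X) (G : ℕ → X → ℂ) (k : ℕ) : ℂ :=
  ∫ x, S.osc G k x ∂μ

lemma Stop.measurable_osc (S : Stop X) {G : ℕ → X → ℂ} (h : ∀ n, Measurable (G n)) (k : ℕ) :
    Measurable (S.osc G k) :=
  (S.mw k).mul ((measurable_av_stop h (S.mN k)).sub (measurable_av_stop h (S.mM k)))

lemma Stop.norm_osc_le (S : Stop X) {G : ℕ → X → ℂ} {C : ℝ} (h : Bd G C) (k : ℕ) (x : X) :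
    ‖S.osc G k x‖ ≤ 4 * C := by
  have h1 := norm_av_le (fun n => h.le n x) (S.N k x)
  have h2 := norm_av_le (fun n => h.le n x) (S.M k x)
  have h3 := (norm_sub_le _ _).trans (add_le_add h1 h2)
  rw [Stop.osc, norm_mul]
  calc _ ≤ 2 * (C + C) := mul_le_mul (S.bw k x) h3 (norm_nonneg _) (by norm_num)
    _ = _ := by ring

variable [IsProbabilityMeasure μ]

lemma Stop.integrable_osc (S : Stop X) {G : ℕ → X → ℂ} {C : ℝ} (h : Bd G C) (k : ℕ) :
    Integrable (S.osc G k) μ := integrable_bdd (S.measurable_osc h.meas k) (S.norm_osc_le h k)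

lemma Stop.norm_lam_le (S : Stop X) {G : ℕ → X → ℂ} {C : ℝ} (h : Bd G C) (k : ℕ) :
    ‖S.lam μ G k‖ ≤ 4 * C := by
  simpa [Stop.lam] using norm_integral_le_of_norm_le_const (μ := μ)
    (Eventually.of_forall (S.norm_osc_le h k))

lemma Stop.lam_sum (S : Stop X) {ι : Type*} (s : Finset ι) (c : ι → ℂ) {G : ι → ℕ → X → ℂ}
    {C : ℝ} (h : ∀ i, Bd (G i) C) (k : ℕ) :
    S.lam μ (fun n x => ∑ i ∈ s, c i * G i n x) k = ∑ i ∈ s, c i * S.lam μ (G i) k := by
  simp only [Stop.lam, ← integral_const_mul]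
  rw [← integral_finsetSum _ fun i _ => (S.integrable_osc (h i) k).const_mul _]
  refine integral_congr_ae (Eventually.of_forall fun x => ?_)
  simp only [Stop.osc, av_sum, ← sum_sub_distrib, mul_sum]
  exact sum_congr rfl fun i _ => by ring

lemma Stop.lam_sub (S : Stop X) {G G' : ℕ → X → ℂ} {C C' : ℝ} (h : Bd G C) (h' : Bd G' C')
    (k : ℕ) : S.lam μ (fun n x => G n x - G' n x) k = S.lam μ G k - S.lam μ G' k := by
  simp only [Stop.lam]
  rw [← integral_sub (S.integrable_osc h k) (S.integrable_osc h' k)]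
  refine integral_congr_ae (Eventually.of_forall fun x => ?_)
  simp only [Stop.osc, av, sum_sub_distrib]
  ring

lemma Stop.lam_shift (S : Stop X) {G : ℕ → X → ℂ} {C : ℝ} (h : Bd G C) :
    Tendsto (fun k => S.lam μ (fun n => G (n + 1)) k - S.lam μ G k) atTop (𝓝 0) := by
  have h' : Bd (fun n => G (n + 1)) C := ⟨fun n => h.meas _, fun n => h.le _⟩
  refine squeeze_zero_norm' (a := fun k : ℕ => 8 * C * (k : ℝ)⁻¹) ?_
    (by simpa using tendsto_inv_atTop_nhds_zero_nat.const_mul (8 * C))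
  filter_upwards [eventually_gt_atTop 0] with k hk
  simp only [Stop.lam]
  rw [← integral_sub (S.integrable_osc h' k) (S.integrable_osc h k)]
  have hb : ∀ x, ‖S.osc (fun n => G (n + 1)) k x - S.osc G k x‖ ≤ 8 * C * (k : ℝ)⁻¹ := by
    intro x
    have hC : 0 ≤ C := (norm_nonneg _).trans (h.le 0 x)
    have hk' : (0 : ℝ) < k := by exact_mod_cast hk
    have b : ∀ N : ℕ, k ≤ N → ‖av (fun n => G (n + 1) x) N - av (fun n => G n x) N‖ ≤
        2 * C * (k : ℝ)⁻¹ := fun N hN =>
      (av_shift (fun n => h.le n x) N).trans (by gcongr)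
    have e : S.osc (fun n => G (n + 1)) k x - S.osc G k x = S.w k x *
        ((av (fun n => G (n + 1) x) (S.N k x) - av (fun n => G n x) (S.N k x)) -
          (av (fun n => G (n + 1) x) (S.M k x) - av (fun n => G n x) (S.M k x))) := by
      simp only [Stop.osc]; ring
    rw [e, norm_mul]
    have h3 := (norm_sub_le _ _).trans (add_le_add (b _ (S.leN k x)) (b _ (S.leM k x)))
    calc _ ≤ 2 * (2 * C * (k : ℝ)⁻¹ + 2 * C * (k : ℝ)⁻¹) :=
          mul_le_mul (S.bw k x) h3 (norm_nonneg _) (by norm_num)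
      _ = _ := by ring
  simpa using norm_integral_le_of_norm_le_const (μ := μ) (Eventually.of_forall hb)

lemma Stop.lam_conv (S : Stop X) {G : ℕ → X → ℂ} {C : ℝ} (h : Bd G C) (hc : Conv μ G) :
    Tendsto (S.lam μ G) atTop (𝓝 0) := by
  have := tendsto_integral_of_dominated_convergence (μ := μ) (F := fun k => S.osc G k)
    (f := fun _ => 0) (fun _ => 4 * C) (fun k => (S.measurable_osc h.meas k).aestronglyMeasurable)
    (integrable_const _) (fun k => Eventually.of_forall (S.norm_osc_le h k)) (by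
      filter_upwards [hc] with x ⟨L, hL⟩
      have t1 := hL.comp (tendsto_atTop_mono (fun k => S.leN k x) tendsto_id)
      have t2 := hL.comp (tendsto_atTop_mono (fun k => S.leM k x) tendsto_id)
      have t3 := (t1.sub t2).norm.const_mul 2
      rw [sub_self, norm_zero, mul_zero] at t3
      refine squeeze_zero_norm (fun k => ?_) t3
      rw [Stop.osc, norm_mul]
      exact mul_le_mul_of_nonneg_right (S.bw k x) (norm_nonneg _))
  rw [integral_zero] at this
  exact this

lemma exists_stop {G : ℕ → X → ℂ} (h : Bd G 1) (hc : ¬ Conv μ G) :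
    ∃ (S : Stop X) (c : ℝ), 0 < c ∧ ∀ k, c ≤ (S.lam μ G k).re := by
  classical
  let D : ℕ → ℕ → X → ℂ := fun N M x => av (fun n => G n x) N - av (fun n => G n x) M
  have hD : ∀ N M, Measurable (D N M) := fun N M =>
    (measurable_av h.meas N).sub (measurable_av h.meas M)
  let P : ℕ → ℕ → Set X := fun m k => {x | ∃ N M, k ≤ N ∧ k ≤ M ∧ 1 / ((m : ℝ) + 1) < ‖D N M x‖}
  have hlt : ∀ (m N M : ℕ), MeasurableSet {x | 1 / ((m : ℝ) + 1) < ‖D N M x‖} := fun m N M =>
    measurableSet_lt measurable_const (hD N M).norm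
  have hP : ∀ m k, MeasurableSet (P m k) := by
    intro m k
    simp only [P, Set.ofPred_exists, Set.ofPred_and]
    exact MeasurableSet.iUnion fun N => MeasurableSet.iUnion fun M =>
      (MeasurableSet.const _).inter ((MeasurableSet.const _).inter (hlt m N M))
  have hex : ∃ m, μ (⋂ k, P m k) ≠ 0 := by
    by_contra hno
    push Not at hno
    apply hc
    have : ∀ᵐ x ∂μ, ∀ m, x ∉ ⋂ k, P m k :=
      ae_all_iff.2 fun m => measure_eq_zero_iff_ae_notMem.1 (hno m)
    filter_upwards [this] with x hx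
    refine cauchySeq_tendsto_of_complete (Metric.cauchySeq_iff.2 fun ε hε => ?_)
    obtain ⟨m, hm⟩ := exists_nat_one_div_lt hε
    have := hx m
    simp only [Set.mem_iInter, not_forall, P, Set.mem_ofPred_eq, not_exists, not_and,
      not_lt] at this
    obtain ⟨k, hk⟩ := this
    refine ⟨k, fun N hN M hM => ?_⟩
    rw [dist_eq_norm]
    exact (hk N M hN hM).trans_lt hm
  obtain ⟨m, hm⟩ := hex
  let q : ℕ → X → ℕ → Prop := fun k x j => k ≤ j.unpair.1 ∧ k ≤ j.unpair.2 ∧
    (x ∈ P m k → 1 / ((m : ℝ) + 1) < ‖D j.unpair.1 j.unpair.2 x‖)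
  have hq : ∀ k x, ∃ j, q k x j := by
    intro k x
    by_cases hx : x ∈ P m k
    · obtain ⟨N, M, h1, h2, h3⟩ := hx
      exact ⟨Nat.pair N M, by simpa [q] using ⟨h1, h2, fun _ => by simpa using h3⟩⟩
    · exact ⟨Nat.pair k k, by simp [q, hx]⟩
  have hqm : ∀ k j, MeasurableSet {x | q k x j} := by
    intro k j
    simp only [q, Set.ofPred_and, imp_iff_not_or, Set.ofPred_or]
    exact (MeasurableSet.const _).inter ((MeasurableSet.const _).inter
      ((hP m k).compl.union (hlt m _ _)))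
  have hJ : ∀ k, Measurable fun x => Nat.find (hq k x) := fun k => measurable_find (hq k) (hqm k)
  have hN : ∀ k, Measurable fun x => (Nat.find (hq k x)).unpair.1 := fun k =>
    (measurable_from_top (f := fun j : ℕ => j.unpair.1)).comp (hJ k)
  have hM : ∀ k, Measurable fun x => (Nat.find (hq k x)).unpair.2 := fun k =>
    (measurable_from_top (f := fun j : ℕ => j.unpair.2)).comp (hJ k)
  let E : ℕ → X → ℂ := fun k x => D (Nat.find (hq k x)).unpair.1 (Nat.find (hq k x)).unpair.2 x
  have hE : ∀ k, Measurable (E k) := fun k =>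
    (measurable_av_stop h.meas (hN k)).sub (measurable_av_stop h.meas (hM k))
  have hEb : ∀ k x, ‖E k x‖ ≤ 2 := fun k x =>
    (norm_sub_le _ _).trans (by
      have h1 := norm_av_le (fun n => h.le n x) (Nat.find (hq k x)).unpair.1
      have h2 := norm_av_le (fun n => h.le n x) (Nat.find (hq k x)).unpair.2
      linarith)
  let S : Stop X :=
    { N := fun k x => (Nat.find (hq k x)).unpair.1
      M := fun k x => (Nat.find (hq k x)).unpair.2
      w := fun k x => conj (E k x)
      mN := hN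
      mM := hM
      mw := fun k => Complex.continuous_conj.measurable.comp (hE k)
      leN := fun k x => (Nat.find_spec (hq k x)).1
      leM := fun k x => (Nat.find_spec (hq k x)).2.1
      bw := fun k x => by rw [Complex.norm_conj]; exact hEb k x }
  refine ⟨S, (1 / ((m : ℝ) + 1)) ^ 2 * μ.real (⋂ k, P m k),
    mul_pos (by positivity) (ENNReal.toReal_pos hm (measure_ne_top _ _)), fun k => ?_⟩
  have e : S.lam μ G k = ((∫ x, ‖E k x‖ ^ 2 ∂μ : ℝ) : ℂ) := by
    rw [← integral_complex_ofReal]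
    refine integral_congr_ae (Eventually.of_forall fun x => ?_)
    change conj (E k x) * E k x = _
    rw [Complex.conj_mul']
    push_cast; rfl
  rw [e, Complex.ofReal_re]
  have hI := MeasurableSet.iInter (hP m)
  rw [mul_comm, ← smul_eq_mul, ← setIntegral_const, ← integral_indicator hI]
  refine integral_mono ((integrable_const _).indicator hI)
    (Integrable.of_bound ((hE k).norm.pow_const 2).aestronglyMeasurable 4
      (Eventually.of_forall fun x => ?_)) fun x => ?_
  · rw [Real.norm_eq_abs, abs_of_nonneg (by positivity)]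
    nlinarith [hEb k x, norm_nonneg (E k x)]
  · by_cases hx : x ∈ ⋂ k, P m k
    · rw [Set.indicator_of_mem hx]
      exact pow_le_pow_left₀ (by positivity)
        ((Nat.find_spec (hq k x)).2.2 (Set.mem_iInter.1 hx k)).le 2
    · rw [Set.indicator_of_notMem hx]; positivity

omit [IsProbabilityMeasure μ] in
lemma conv_sum {ι : Type*} (s : Finset ι) (c : ι → ℂ) {G : ι → ℕ → X → ℂ}
    (h : ∀ i ∈ s, Conv μ (G i)) : Conv μ fun n x => ∑ i ∈ s, c i * G i n x := by
  classical
  induction s using Finset.induction_on with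
  | empty => simpa using conv_zero
  | insert a s ha ih =>
    simp only [sum_insert ha]
    exact ((h a (mem_insert_self _ _)).mul_left fun _ => c a).add
      (ih fun i hi => h i (mem_insert_of_mem hi))

lemma sq_integral_le {g : X → ℝ} (hg : Measurable g) {C : ℝ} (h : ∀ x, ‖g x‖ ≤ C) :
    (∫ x, g x ∂μ) ^ 2 ≤ ∫ x, g x ^ 2 ∂μ := by
  have hm : MemLp g 2 μ := MemLp.of_bound hg.aestronglyMeasurable C (Eventually.of_forall h)
  have := ProbabilityTheory.variance_nonneg g μ
  rw [ProbabilityTheory.variance_eq_sub hm] at this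
  have e : ∫ x, (g ^ 2) x ∂μ = ∫ x, g x ^ 2 ∂μ := rfl
  linarith

lemma erg_mean {T : X → X} (hT : Ergodic T μ) {v : X → ℂ} (hv : Measurable v) {C : ℝ}
    (hb : ∀ x, ‖v x‖ ≤ C) :
    ∀ᵐ x ∂μ, Tendsto (av fun n => v (T^[n] x)) atTop (𝓝 (∫ x, v x ∂μ)) := by
  have hm : ∀ n, Measurable fun x => v (T^[n] x) := fun n => hv.comp (hT.measurable.iterate n)
  have h1 : ∀ᵐ x ∂μ, Tendsto (fun N => av (fun n => v (T^[n] x)) N) atTop
      (𝓝 (limUnder atTop (av fun n => v (T^[n] x)))) := by
    filter_upwards [birkhoff_complex hT.toMeasurePreserving hv C hb] with x hx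
    exact tendsto_nhds_limUnder hx
  have hL := aestronglyMeasurable_of_tendsto_ae atTop
    (fun N => (measurable_av hm N).aestronglyMeasurable) h1
  obtain ⟨c, hc⟩ := hT.ae_eq_const_of_ae_eq_comp_ae hL (by
    filter_upwards [h1, hT.quasiMeasurePreserving.ae h1] with x hx hx'
    have := (tendsto_av_shift (a := fun n => v (T^[n] x)) fun n => hb _).add hx
    simp only [sub_add_cancel, zero_add, Function.iterate_succ_apply] at this
    exact tendsto_nhds_unique hx' this)
  have h2 : ∀ᵐ x ∂μ, Tendsto (fun N => av (fun n => v (T^[n] x)) N) atTop (𝓝 c) := by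
    filter_upwards [h1, hc] with x hx hx'
    rwa [hx'] at hx
  have h3 := tendsto_integral_of_dominated_convergence (μ := μ) (fun _ => C)
    (fun N => (measurable_av hm N).aestronglyMeasurable) (integrable_const _)
    (fun N => Eventually.of_forall fun x => norm_av_le (fun n => hb _) N) h2
  have h4 : ∀ᶠ N : ℕ in atTop, ∫ x, v x ∂μ = ∫ x, av (fun n => v (T^[n] x)) N ∂μ := by
    filter_upwards [eventually_gt_atTop 0] with N hN
    have hN' : (N : ℂ) ≠ 0 := by exact_mod_cast hN.ne'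
    simp only [av]
    rw [integral_const_mul, integral_finsetSum _ fun n _ => integrable_bdd (hm n) fun x => hb _]
    have : ∀ n, ∫ x, v (T^[n] x) ∂μ = ∫ x, v x ∂μ := fun n =>
      integral_comp_mp (hT.toMeasurePreserving.iterate n) hv
    simp [this, hN']
  have := tendsto_nhds_unique (tendsto_const_nhds.congr' h4) h3
  simp only [integral_const, probReal_univ, one_smul] at this
  rw [this]
  exact h2

end Pool.Agent.Lib.MP_9721b5_an.Sing
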